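import Mathlib
import Pool.Agent.TH278.DX.Defs2
set_option autoImplicit false

namespace Pool.Agent.TH278.DX

/-- The positive square root of a self-adjoint operator bounded below by a positive constant:
self-adjoint, invertible, with square the given operator, and commuting with whatever commutes
with it. -/
theorem exists_sqrt_unit {K : Type} [NormedAddCommGroup K] [InnerProductSpace ℂ K]
    [CompleteSpace K] (A : K →L[ℂ] K) (δ : ℝ) (hδ : 0 < δ)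
    (hA : ∀ v w : K, inner ℂ (A v) w = inner ℂ v (A w))
    (hlow : ∀ v : K, δ * ‖v‖ ^ 2 ≤ (inner ℂ (A v) v).re) :
    ∃ S : (K →L[ℂ] K)ˣ, (∀ v w : K, inner ℂ (((S : (K →L[ℂ] K)ˣ) : K →L[ℂ] K) v) w =
        inner ℂ v (((S : (K →L[ℂ] K)ˣ) : K →L[ℂ] K) w)) ∧
      ((S : (K →L[ℂ] K)ˣ) : K →L[ℂ] K) * ((S : (K →L[ℂ] K)ˣ) : K →L[ℂ] K) = A ∧
      ∀ B : K →L[ℂ] K, Commute A B → Commute ((S : (K →L[ℂ] K)ˣ) : K →L[ℂ] K) B := by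
  have hpos : (0 : K →L[ℂ] K) ≤ A := by
    rw [ContinuousLinearMap.nonneg_iff_isPositive]
    refine ⟨?_, ?_⟩
    · intro v w
      exact hA v w
    · intro v
      have := hlow v
      have h2 : 0 ≤ δ * ‖v‖ ^ 2 := by positivity
      rw [ContinuousLinearMap.reApplyInnerSelf_apply]
      exact h2.trans this
  have hunit : IsUnit A := by
    refine ContinuousLinearMap.isUnit_of_forall_le_norm_inner_map A (c := ⟨δ, hδ.le⟩) hδ ?_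
    intro x
    have h1 := hlow x
    have h2 : (inner ℂ (A x) x).re ≤ ‖(inner ℂ (A x) x : ℂ)‖ := Complex.re_le_norm _
    have h3 : ‖x‖ ^ 2 * δ ≤ ‖(inner ℂ (A x) x : ℂ)‖ := by nlinarith
    exact h3
  have hSu : IsUnit (CFC.sqrt A) := (CFC.isUnit_sqrt_iff A hpos).2 hunit
  obtain ⟨S, hS⟩ := hSu
  refine ⟨S, ?_, ?_, ?_⟩
  · intro v w
    rw [hS]
    have hsa : IsSelfAdjoint (CFC.sqrt A) := (CFC.sqrt_nonneg A).isSelfAdjoint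
    exact (ContinuousLinearMap.isSelfAdjoint_iff_isSymmetric.1 hsa) v w
  · rw [hS]
    exact CFC.sqrt_mul_sqrt_self A hpos
  · intro B hB
    rw [hS]
    exact Commute.cfcₙ_nnreal hB _

theorem newfactor {G K : Type} [Group G] [NormedAddCommGroup K] [InnerProductSpace ℂ K]
    [CompleteSpace K] (τ : G →* (K →L[ℂ] K)ˣ)
    (hτ : ∀ g, ((τ g : (K →L[ℂ] K)ˣ) : K →L[ℂ] K) ∈ unitary (K →L[ℂ] K))
    (ζ ω : K) (A : K →L[ℂ] K) (δ c C₂ M₁ : ℝ) (hδ : 0 < δ) (hc : 1 ≤ c) (hC : 0 ≤ C₂)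
    (hM : 1 ≤ M₁) (hA : ∀ v w : K, inner ℂ (A v) w = inner ℂ v (A w))
    (hlow : ∀ v : K, δ * ‖v‖ ^ 2 ≤ (inner ℂ (A v) v).re)
    (hcontr : ∀ (g : G) (v : K), (inner ℂ (A (((τ g : (K →L[ℂ] K)ˣ) : K →L[ℂ] K) v))
        (((τ g : (K →L[ℂ] K)ˣ) : K →L[ℂ] K) v)).re ≤ c ^ 2 * (inner ℂ (A v) v).re)
    (h1 : (inner ℂ (A ζ) ζ).re ≤ 1)
    (h2 : ∀ v : K, ‖(inner ℂ ω v : ℂ)‖ ^ 2 ≤ C₂ * (inner ℂ (A v) v).re)
    (hgood : ∀ (H : Type) [NormedAddCommGroup H] [InnerProductSpace ℂ H] [CompleteSpace H]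
      (π : G →* (H →L[ℂ] H)ˣ), (∃ M : ℝ, Inv π 1 M) → Bdd π c → Inv π 1 M₁) :
    Bn (fun g => inner ℂ ω (((τ g : (K →L[ℂ] K)ˣ) : K →L[ℂ] K) ζ)) (Real.sqrt (M₁ * C₂)) := by
  -- the inner product is preserved by τ
  have hiso : ∀ (g : G) (x y : K), inner ℂ (((τ g : (K →L[ℂ] K)ˣ) : K →L[ℂ] K) x)
      (((τ g : (K →L[ℂ] K)ˣ) : K →L[ℂ] K) y) = (inner ℂ x y : ℂ) := by
    intro g x y
    exact ContinuousLinearMap.inner_map_map_of_mem_unitary (hτ g) x y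
  obtain ⟨S, hSsym, hSS, -⟩ := exists_sqrt_unit A δ hδ hA hlow
  -- norms under S
  have hSnorm : ∀ v : K, ‖((S : (K →L[ℂ] K)ˣ) : K →L[ℂ] K) v‖ ^ 2 = (inner ℂ (A v) v).re := by
    intro v
    have e1 : (inner ℂ (A v) v : ℂ) = inner ℂ (((S : (K →L[ℂ] K)ˣ) : K →L[ℂ] K) v)
        (((S : (K →L[ℂ] K)ˣ) : K →L[ℂ] K) v) := by
      rw [← hSS, mul_apply_eq_comp, hSsym]
    rw [e1]
    exact (inner_self_eq_norm_sq (𝕜 := ℂ) _).symm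
  have hSinv : ∀ v : K, ((S : (K →L[ℂ] K)ˣ) : K →L[ℂ] K)
      (((S⁻¹ : (K →L[ℂ] K)ˣ) : K →L[ℂ] K) v) = v := by
    intro v
    rw [← mul_apply_eq_comp, Units.mul_inv, one_apply_eq_self]
  have hSinv' : ∀ v : K, ((S⁻¹ : (K →L[ℂ] K)ˣ) : K →L[ℂ] K)
      (((S : (K →L[ℂ] K)ˣ) : K →L[ℂ] K) v) = v := by
    intro v
    rw [← mul_apply_eq_comp, Units.inv_mul, one_apply_eq_self]
  -- the conjugated representation
  let π : G →* (K →L[ℂ] K)ˣ := (MulAut.conj S).toMonoidHom.comp τ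
  have hπ : ∀ (g : G) (v : K), ((π g : (K →L[ℂ] K)ˣ) : K →L[ℂ] K) v =
      ((S : (K →L[ℂ] K)ˣ) : K →L[ℂ] K) (((τ g : (K →L[ℂ] K)ˣ) : K →L[ℂ] K)
        (((S⁻¹ : (K →L[ℂ] K)ˣ) : K →L[ℂ] K) v)) := by
    intro g v
    rfl
  have hBdd : Bdd π c := by
    intro g
    refine ContinuousLinearMap.opNorm_le_bound _ (by linarith) ?_
    intro w
    have e1 : ‖((π g : (K →L[ℂ] K)ˣ) : K →L[ℂ] K) w‖ ^ 2 ≤ (c * ‖w‖) ^ 2 := by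
      rw [hπ, hSnorm]
      refine (hcontr g _).trans ?_
      rw [← hSnorm, hSinv, mul_pow]
    exact (abs_le_of_sq_le_sq' e1 (by positivity)).2
  have hInv : ∃ M : ℝ, Inv π 1 M := by
    have hadj : ∀ (x y : K), inner ℂ ((((‖A‖ : ℝ) : ℂ) •
        (ContinuousLinearMap.adjoint ((S⁻¹ : (K →L[ℂ] K)ˣ) : K →L[ℂ] K) ∘L
          ((S⁻¹ : (K →L[ℂ] K)ˣ) : K →L[ℂ] K))) x) y =
        ((‖A‖ : ℝ) : ℂ) * inner ℂ (((S⁻¹ : (K →L[ℂ] K)ˣ) : K →L[ℂ] K) x)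
          (((S⁻¹ : (K →L[ℂ] K)ˣ) : K →L[ℂ] K) y) := by
      intro x y
      rw [smul_apply, inner_smul_left, ContinuousLinearMap.comp_apply,
        ContinuousLinearMap.adjoint_inner_left, Complex.conj_ofReal]
    have hadj' : ∀ (x y : K), inner ℂ x ((((‖A‖ : ℝ) : ℂ) •
        (ContinuousLinearMap.adjoint ((S⁻¹ : (K →L[ℂ] K)ˣ) : K →L[ℂ] K) ∘L
          ((S⁻¹ : (K →L[ℂ] K)ˣ) : K →L[ℂ] K))) y) =
        ((‖A‖ : ℝ) : ℂ) * inner ℂ (((S⁻¹ : (K →L[ℂ] K)ˣ) : K →L[ℂ] K) x)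
          (((S⁻¹ : (K →L[ℂ] K)ˣ) : K →L[ℂ] K) y) := by
      intro x y
      rw [smul_apply, inner_smul_right, ContinuousLinearMap.comp_apply,
        ContinuousLinearMap.adjoint_inner_right]
    have hdiag : ∀ x : K, (((‖A‖ : ℝ) : ℂ) * inner ℂ (((S⁻¹ : (K →L[ℂ] K)ˣ) : K →L[ℂ] K) x)
          (((S⁻¹ : (K →L[ℂ] K)ˣ) : K →L[ℂ] K) x)).re =
        ‖A‖ * ‖((S⁻¹ : (K →L[ℂ] K)ˣ) : K →L[ℂ] K) x‖ ^ 2 := by
      intro x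
      rw [Complex.re_ofReal_mul]
      congr 1
      exact inner_self_eq_norm_sq (𝕜 := ℂ) _
    refine ⟨‖A‖ * ‖((S⁻¹ : (K →L[ℂ] K)ˣ) : K →L[ℂ] K)‖ ^ 2, (((‖A‖ : ℝ) : ℂ) •
        (ContinuousLinearMap.adjoint ((S⁻¹ : (K →L[ℂ] K)ˣ) : K →L[ℂ] K) ∘L
          ((S⁻¹ : (K →L[ℂ] K)ˣ) : K →L[ℂ] K))), ?_, ?_, ?_, ?_⟩
    · intro x y
      rw [hadj, hadj']
    · intro x
      rw [hadj, hdiag, one_mul]
      have e1 : ‖x‖ ^ 2 = (inner ℂ (A (((S⁻¹ : (K →L[ℂ] K)ˣ) : K →L[ℂ] K) x))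
          (((S⁻¹ : (K →L[ℂ] K)ˣ) : K →L[ℂ] K) x)).re := by
        rw [← hSnorm, hSinv]
      rw [e1]
      refine (Complex.re_le_norm _).trans ?_
      refine (norm_inner_le_norm _ _).trans ?_
      have e2 := A.le_opNorm (((S⁻¹ : (K →L[ℂ] K)ˣ) : K →L[ℂ] K) x)
      calc ‖A (((S⁻¹ : (K →L[ℂ] K)ˣ) : K →L[ℂ] K) x)‖ * ‖((S⁻¹ : (K →L[ℂ] K)ˣ) : K →L[ℂ] K) x‖
          ≤ (‖A‖ * ‖((S⁻¹ : (K →L[ℂ] K)ˣ) : K →L[ℂ] K) x‖) *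
            ‖((S⁻¹ : (K →L[ℂ] K)ˣ) : K →L[ℂ] K) x‖ :=
            mul_le_mul_of_nonneg_right e2 (norm_nonneg _)
        _ = ‖A‖ * ‖((S⁻¹ : (K →L[ℂ] K)ˣ) : K →L[ℂ] K) x‖ ^ 2 := by ring
    · intro x
      rw [hadj, hdiag]
      have e2 := ((S⁻¹ : (K →L[ℂ] K)ˣ) : K →L[ℂ] K).le_opNorm x
      calc ‖A‖ * ‖((S⁻¹ : (K →L[ℂ] K)ˣ) : K →L[ℂ] K) x‖ ^ 2
          ≤ ‖A‖ * (‖((S⁻¹ : (K →L[ℂ] K)ˣ) : K →L[ℂ] K)‖ * ‖x‖) ^ 2 :=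
            mul_le_mul_of_nonneg_left (pow_le_pow_left₀ (norm_nonneg _) e2 2) (norm_nonneg _)
        _ = ‖A‖ * ‖((S⁻¹ : (K →L[ℂ] K)ˣ) : K →L[ℂ] K)‖ ^ 2 * ‖x‖ ^ 2 := by ring
    · intro g x y
      rw [hadj, hadj, hπ, hπ, hSinv', hSinv', hiso]
  obtain ⟨B, hBsym, hBlow, hBup, hBinv⟩ := hgood K π hInv hBdd
  -- the averaged form
  have hA2 : ∀ x y : K, inner ℂ ((ContinuousLinearMap.adjoint ((S : (K →L[ℂ] K)ˣ) : K →L[ℂ] K)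
      ∘L (B ∘L ((S : (K →L[ℂ] K)ˣ) : K →L[ℂ] K))) x) y =
      inner ℂ (B (((S : (K →L[ℂ] K)ˣ) : K →L[ℂ] K) x)) (((S : (K →L[ℂ] K)ˣ) : K →L[ℂ] K) y) := by
    intro x y
    rw [ContinuousLinearMap.comp_apply, ContinuousLinearMap.adjoint_inner_left,
      ContinuousLinearMap.comp_apply]
  have hA2' : ∀ x y : K, inner ℂ x ((ContinuousLinearMap.adjoint ((S : (K →L[ℂ] K)ˣ) :
      K →L[ℂ] K) ∘L (B ∘L ((S : (K →L[ℂ] K)ˣ) : K →L[ℂ] K))) y) =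
      inner ℂ (((S : (K →L[ℂ] K)ˣ) : K →L[ℂ] K) x)
        (B (((S : (K →L[ℂ] K)ˣ) : K →L[ℂ] K) y)) := by
    intro x y
    rw [ContinuousLinearMap.comp_apply, ContinuousLinearMap.adjoint_inner_right,
      ContinuousLinearMap.comp_apply]
  generalize (ContinuousLinearMap.adjoint ((S : (K →L[ℂ] K)ˣ) : K →L[ℂ] K)
      ∘L (B ∘L ((S : (K →L[ℂ] K)ˣ) : K →L[ℂ] K))) = A₂ at hA2 hA2'
  have hA2low : ∀ v : K, (inner ℂ (A v) v).re ≤ (inner ℂ (A₂ v) v).re := by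
    intro v
    rw [hA2, ← hSnorm]
    have := hBlow (((S : (K →L[ℂ] K)ˣ) : K →L[ℂ] K) v)
    linarith
  have hA2up : ∀ v : K, (inner ℂ (A₂ v) v).re ≤ M₁ * (inner ℂ (A v) v).re := by
    intro v
    rw [hA2, ← hSnorm]
    exact hBup _
  obtain ⟨T, hTsym, hTT, hTcomm⟩ := exists_sqrt_unit A₂ δ hδ
    (fun v w => by rw [hA2, hA2', hBsym]) (fun v => (hlow v).trans (hA2low v))
  have hcomm : ∀ g : G, Commute A₂ ((τ g : (K →L[ℂ] K)ˣ) : K →L[ℂ] K) := by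
    intro g
    refine ContinuousLinearMap.ext fun x => ?_
    refine ext_inner_right ℂ fun y => ?_
    rw [mul_apply_eq_comp, mul_apply_eq_comp]
    have hy : y = ((τ g : (K →L[ℂ] K)ˣ) : K →L[ℂ] K)
        ((((τ g)⁻¹ : (K →L[ℂ] K)ˣ) : K →L[ℂ] K) y) := by
      rw [← mul_apply_eq_comp, Units.mul_inv, one_apply_eq_self]
    rw [hy, hiso, hA2, hA2]
    have := hBinv g (((S : (K →L[ℂ] K)ˣ) : K →L[ℂ] K) x) (((S : (K →L[ℂ] K)ˣ) : K →L[ℂ] K)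
      ((((τ g)⁻¹ : (K →L[ℂ] K)ˣ) : K →L[ℂ] K) y))
    rw [hπ, hπ, hSinv', hSinv'] at this
    exact this
  have hTinv : ∀ v : K, ((T : (K →L[ℂ] K)ˣ) : K →L[ℂ] K)
      (((T⁻¹ : (K →L[ℂ] K)ˣ) : K →L[ℂ] K) v) = v := by
    intro v
    rw [← mul_apply_eq_comp, Units.mul_inv, one_apply_eq_self]
  have hTnorm : ∀ v : K, ‖((T : (K →L[ℂ] K)ˣ) : K →L[ℂ] K) v‖ ^ 2 = (inner ℂ (A₂ v) v).re := by
    intro v
    have e1 : (inner ℂ (A₂ v) v : ℂ) = inner ℂ (((T : (K →L[ℂ] K)ˣ) : K →L[ℂ] K) v)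
        (((T : (K →L[ℂ] K)ˣ) : K →L[ℂ] K) v) := by
      rw [← hTT, mul_apply_eq_comp, hTsym]
    rw [e1]
    exact (inner_self_eq_norm_sq (𝕜 := ℂ) _).symm
  refine ⟨K, inferInstance, inferInstance, inferInstance, τ,
    ((T : (K →L[ℂ] K)ˣ) : K →L[ℂ] K) ζ, ((T⁻¹ : (K →L[ℂ] K)ˣ) : K →L[ℂ] K) ω, hτ, ?_, ?_⟩
  · intro g
    have e1 : ((τ g : (K →L[ℂ] K)ˣ) : K →L[ℂ] K) (((T : (K →L[ℂ] K)ˣ) : K →L[ℂ] K) ζ) =
        ((T : (K →L[ℂ] K)ˣ) : K →L[ℂ] K) (((τ g : (K →L[ℂ] K)ˣ) : K →L[ℂ] K) ζ) := by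
      have := hTcomm _ (hcomm g)
      rw [← mul_apply_eq_comp, ← mul_apply_eq_comp, this.eq]
    rw [e1, ← hTsym, hTinv]
  · have hn1 : ‖((T : (K →L[ℂ] K)ˣ) : K →L[ℂ] K) ζ‖ ^ 2 ≤ M₁ := by
      rw [hTnorm]
      refine (hA2up ζ).trans ?_
      nlinarith
    have hn2 : ‖((T⁻¹ : (K →L[ℂ] K)ˣ) : K →L[ℂ] K) ω‖ ^ 2 ≤ C₂ := by
      set η := ((T⁻¹ : (K →L[ℂ] K)ˣ) : K →L[ℂ] K) ω with hη
      have hω : ω = ((T : (K →L[ℂ] K)ˣ) : K →L[ℂ] K) η := by rw [hη, hTinv]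
      have e1 := h2 (((T⁻¹ : (K →L[ℂ] K)ˣ) : K →L[ℂ] K) η)
      have e2 : (inner ℂ ω (((T⁻¹ : (K →L[ℂ] K)ˣ) : K →L[ℂ] K) η) : ℂ) = inner ℂ η η := by
        rw [hω, hTsym, hTinv]
      rw [e2] at e1
      have e3 : ‖(inner ℂ η η : ℂ)‖ = ‖η‖ ^ 2 := by
        rw [inner_self_eq_norm_sq_to_K, norm_pow]
        simp
      rw [e3] at e1
      have e4 : (inner ℂ (A (((T⁻¹ : (K →L[ℂ] K)ˣ) : K →L[ℂ] K) η))
          (((T⁻¹ : (K →L[ℂ] K)ˣ) : K →L[ℂ] K) η)).re ≤ ‖η‖ ^ 2 := by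
        refine (hA2low _).trans ?_
        rw [← hTnorm, hTinv]
      have e5 : (‖η‖ ^ 2) ^ 2 ≤ C₂ * ‖η‖ ^ 2 :=
        e1.trans (mul_le_mul_of_nonneg_left e4 hC)
      by_cases h0 : ‖η‖ ^ 2 = 0
      · rw [h0]; exact hC
      · have h0' : 0 < ‖η‖ ^ 2 := lt_of_le_of_ne (by positivity) (Ne.symm h0)
        by_contra hcon
        push Not at hcon
        nlinarith [mul_lt_mul_of_pos_right hcon h0']
    refine Real.le_sqrt_of_sq_le ?_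
    rw [mul_pow]
    exact mul_le_mul hn1 hn2 (by positivity) (by linarith)

end Pool.Agent.TH278.DX
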