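import Mathlib

set_option autoImplicit false

open MeasureTheory Set
open scoped ENNReal

namespace Pool.Agent.TH318.Br

/-- the kernel `L ^ r / (L ^ r + |x - c| ^ r)` -/
noncomputable def ker (r c L x : ℝ) : ℝ := L ^ r / (L ^ r + |x - c| ^ r)

lemma ker_nonneg {r c L x : ℝ} (hL : 0 < L) : 0 ≤ ker r c L x := by
  have h1 : 0 < L ^ r := Real.rpow_pos_of_pos hL r
  have h2 : 0 ≤ |x - c| ^ r := Real.rpow_nonneg (abs_nonneg _) r
  unfold ker; positivity

lemma measurable_ker (r c L : ℝ) : Measurable (ker r c L) := by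
  unfold ker
  fun_prop

/-- the open interval of centre `c` and length `L` -/
def iv (c L : ℝ) : Set ℝ := Ioo (c - L / 2) (c + L / 2)

lemma mem_iv {c L x : ℝ} : x ∈ iv c L ↔ |x - c| < L / 2 := by
  unfold iv
  rw [mem_Ioo, abs_lt]
  constructor
  · rintro ⟨h1, h2⟩; constructor <;> linarith
  · rintro ⟨h1, h2⟩; constructor <;> linarith

lemma measurableSet_iv (c L : ℝ) : MeasurableSet (iv c L) := measurableSet_Ioo

/-- `F(L) = ∫ dμ / (L ^ r + |x - c| ^ r)` -/
noncomputable def F (μ : Measure ℝ) (r c L : ℝ) : ℝ≥0∞ :=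
  ∫⁻ x, ENNReal.ofReal (1 / (L ^ r + |x - c| ^ r)) ∂μ

lemma ker_eq {r c L x : ℝ} (hL : 0 < L) :
    ENNReal.ofReal (ker r c L x) =
      ENNReal.ofReal (L ^ r) * ENNReal.ofReal (1 / (L ^ r + |x - c| ^ r)) := by
  rw [← ENNReal.ofReal_mul (Real.rpow_nonneg hL.le r)]
  congr 1
  unfold ker
  ring

lemma lint_ker {μ : Measure ℝ} {r c L : ℝ} (hL : 0 < L) :
    ∫⁻ x, ENNReal.ofReal (ker r c L x) ∂μ = ENNReal.ofReal (L ^ r) * F μ r c L := by
  unfold F
  rw [← lintegral_const_mul]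
  · exact lintegral_congr fun x => ker_eq hL
  · fun_prop

/-- the condition `B_r` for a measure -/
def Bm (μ : Measure ℝ) (r : ℝ) (C : ℝ≥0∞) : Prop :=
  ∀ c L : ℝ, 0 < L → ∫⁻ x, ENNReal.ofReal (ker r c L x) ∂μ ≤ C * μ (iv c L)

/-- `μ(I) ≤ 2 L ^ r F(L)` -/
lemma meas_le {μ : Measure ℝ} {r c L : ℝ} (hr : 0 < r) (hL : 0 < L) :
    μ (iv c L) ≤ 2 * (ENNReal.ofReal (L ^ r) * F μ r c L) := by
  rw [← lint_ker hL, ← lintegral_const_mul]
  · calc μ (iv c L) = ∫⁻ x in iv c L, 1 ∂μ := by simp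
      _ ≤ ∫⁻ x in iv c L, 2 * ENNReal.ofReal (ker r c L x) ∂μ := by
          apply setLIntegral_mono' (measurableSet_iv c L)
          intro x hx
          rw [mem_iv] at hx
          have h1 : 0 < L ^ r := Real.rpow_pos_of_pos hL r
          have h2 : |x - c| ^ r ≤ L ^ r :=
            Real.rpow_le_rpow (abs_nonneg _) (by linarith) hr.le
          have h3 : 0 ≤ |x - c| ^ r := Real.rpow_nonneg (abs_nonneg _) r
          have h4 : (1 : ℝ) ≤ 2 * ker r c L x := by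
            unfold ker
            rw [← mul_div_assoc, le_div_iff₀ (by positivity)]
            linarith
          have h5 : (2 : ℝ≥0∞) = ENNReal.ofReal 2 := by simp
          rw [h5, ← ENNReal.ofReal_mul (by norm_num)]
          rw [← ENNReal.ofReal_one]
          exact ENNReal.ofReal_le_ofReal h4
      _ ≤ ∫⁻ x, 2 * ENNReal.ofReal (ker r c L x) ∂μ := setLIntegral_le_lintegral _ _
  · exact (measurable_ker r c L).ennreal_ofReal

/-- pointwise gain -/
lemma point {r : ℝ} (hr : 0 < r) {c L x : ℝ} (hL : 0 < L) :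
    1 / ((2 * L) ^ r + |x - c| ^ r) ≤ 1 / (L ^ r + |x - c| ^ r) := by
  have h1 : 0 < L ^ r := Real.rpow_pos_of_pos hL r
  have h3 : 0 ≤ |x - c| ^ r := Real.rpow_nonneg (abs_nonneg _) r
  have h2 : L ^ r ≤ (2 * L) ^ r := Real.rpow_le_rpow hL.le (by linarith) hr.le
  apply one_div_le_one_div_of_le (by positivity)
  linarith

/-- on the interval the kernel drops by a definite amount -/
lemma point_in {r : ℝ} (hr : 1 < r) {c L x : ℝ} (hL : 0 < L) (hx : x ∈ iv c L) :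
    1 / ((2 * L) ^ r + |x - c| ^ r) + 1 / (8 * L ^ r) ≤ 1 / (L ^ r + |x - c| ^ r) := by
  rw [mem_iv] at hx
  have h1 : 0 < L ^ r := Real.rpow_pos_of_pos hL r
  have h3 : 0 ≤ |x - c| ^ r := Real.rpow_nonneg (abs_nonneg _) r
  have h2 : (2 * L) ^ r = 2 ^ r * L ^ r := Real.mul_rpow (by norm_num) hL.le
  have h4 : (2 : ℝ) ≤ 2 ^ r := by
    calc (2 : ℝ) = 2 ^ (1 : ℝ) := by simp
      _ ≤ 2 ^ r := Real.rpow_le_rpow_of_exponent_le (by norm_num) hr.le
  have h5 : |x - c| ^ r ≤ L ^ r / 2 := by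
    calc |x - c| ^ r ≤ (L / 2) ^ r := Real.rpow_le_rpow (abs_nonneg _) hx.le (by linarith)
      _ = L ^ r / 2 ^ r := Real.div_rpow hL.le (by norm_num) r
      _ ≤ L ^ r / 2 := by
        apply div_le_div_of_nonneg_left h1.le (by norm_num) h4
  set A := L ^ r with hA
  set t := |x - c| ^ r with ht
  have h6 : 2 * A + t ≤ (2 * L) ^ r + t := by
    rw [h2]; nlinarith
  have h7 : 1 / ((2 * L) ^ r + t) ≤ 1 / (2 * A + t) :=
    one_div_le_one_div_of_le (by positivity) h6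
  have h8 : 1 / (2 * A + t) + 1 / (8 * A) ≤ 1 / (A + t) := by
    rw [div_add_div _ _ (by positivity) (by positivity), div_le_div_iff₀ (by positivity)
      (by positivity)]
    nlinarith [mul_nonneg h3 h1.le, mul_pos h1 h1, mul_nonneg h3 h3]
  linarith


lemma F_drop {μ : Measure ℝ} {r : ℝ} (hr : 1 < r) {c L : ℝ} (hL : 0 < L) :
    F μ r c (2 * L) + ENNReal.ofReal (1 / (8 * L ^ r)) * μ (iv c L) ≤ F μ r c L := by
  have h1 : 0 < L ^ r := Real.rpow_pos_of_pos hL r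
  have e1 : ENNReal.ofReal (1 / (8 * L ^ r)) * μ (iv c L)
      = ∫⁻ x, (iv c L).indicator (fun _ => ENNReal.ofReal (1 / (8 * L ^ r))) x ∂μ := by
    rw [lintegral_indicator (measurableSet_iv c L)]
    simp
  rw [e1]
  unfold F
  rw [← lintegral_add_left (by fun_prop)]
  apply lintegral_mono
  intro x
  simp only
  by_cases hx : x ∈ iv c L
  · rw [indicator_of_mem hx, ← ENNReal.ofReal_add (by positivity) (by positivity)]
    exact ENNReal.ofReal_le_ofReal (point_in hr hL hx)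
  · rw [indicator_of_notMem hx, add_zero]
    exact ENNReal.ofReal_le_ofReal (point (by linarith) hL)

/-- the measure is finite on bounded open intervals -/
def LF (μ : Measure ℝ) : Prop := ∀ c L : ℝ, μ (iv c L) < ⊤

lemma F_fin {μ : Measure ℝ} {r C : ℝ} (hC : 1 ≤ C) (hμ : LF μ)
    (hB : Bm μ r (ENNReal.ofReal C)) {c L : ℝ} (hL : 0 < L) : F μ r c L < ⊤ := by
  have h1 : 0 < L ^ r := Real.rpow_pos_of_pos hL r
  have h := hB c L hL
  rw [lint_ker hL] at h
  have h2 : ENNReal.ofReal C * μ (iv c L) < ⊤ := ENNReal.mul_lt_top (by simp) (hμ c L)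
  have h3 := lt_of_le_of_lt h h2
  by_contra hF
  rw [not_lt, top_le_iff] at hF
  rw [hF, ENNReal.mul_top (by simpa using h1)] at h3
  exact lt_irrefl _ h3

lemma F_step {μ : Measure ℝ} {r C : ℝ} (hr : 1 < r) (hC : 1 ≤ C) (hμ : LF μ)
    (hB : Bm μ r (ENNReal.ofReal C)) {c L : ℝ} (hL : 0 < L) :
    (F μ r c (2 * L)).toReal ≤ (1 - 1 / (8 * C)) * (F μ r c L).toReal := by
  have h1 : 0 < L ^ r := Real.rpow_pos_of_pos hL r
  have hC0 : 0 < C := by linarith
  have hfin := F_fin hC hμ hB (c := c) hL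
  have hfin2 := F_fin hC hμ hB (c := c) (L := 2 * L) (by linarith)
  have hd := F_drop (μ := μ) hr (c := c) hL
  have hm := hμ c L
  have hb := hB c L hL
  rw [lint_ker hL] at hb
  have hb' : L ^ r * (F μ r c L).toReal ≤ C * (μ (iv c L)).toReal := by
    have := ENNReal.toReal_mono (ENNReal.mul_lt_top (by simp) hm).ne hb
    rwa [ENNReal.toReal_mul, ENNReal.toReal_mul, ENNReal.toReal_ofReal h1.le,
      ENNReal.toReal_ofReal hC0.le] at this
  have hd' : (F μ r c (2 * L)).toReal + 1 / (8 * L ^ r) * (μ (iv c L)).toReal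
      ≤ (F μ r c L).toReal := by
    have := ENNReal.toReal_mono hfin.ne hd
    rwa [ENNReal.toReal_add hfin2.ne (ENNReal.mul_lt_top (by simp) hm).ne,
      ENNReal.toReal_mul, ENNReal.toReal_ofReal (by positivity)] at this
  have h2 : 1 / (8 * C) * (F μ r c L).toReal ≤ 1 / (8 * L ^ r) * (μ (iv c L)).toReal := by
    rw [div_mul_eq_mul_div, div_mul_eq_mul_div, div_le_div_iff₀ (by positivity) (by positivity)]
    nlinarith
  nlinarith

lemma F_iter {μ : Measure ℝ} {r C : ℝ} (hr : 1 < r) (hC : 1 ≤ C) (hμ : LF μ)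
    (hB : Bm μ r (ENNReal.ofReal C)) {c L : ℝ} (hL : 0 < L) (k : ℕ) :
    (F μ r c (2 ^ k * L)).toReal ≤ (1 - 1 / (8 * C)) ^ k * (F μ r c L).toReal := by
  induction k with
  | zero => simp
  | succ k ih =>
    have hθ : 0 ≤ 1 - 1 / (8 * C) := by
      have : 1 / (8 * C) ≤ 1 := by
        rw [div_le_one (by linarith)]; linarith
      linarith
    have e : (2 : ℝ) ^ (k + 1) * L = 2 * (2 ^ k * L) := by ring
    rw [e]
    calc _ ≤ (1 - 1 / (8 * C)) * (F μ r c (2 ^ k * L)).toReal :=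
          F_step hr hC hμ hB (by positivity)
      _ ≤ (1 - 1 / (8 * C)) * ((1 - 1 / (8 * C)) ^ k * (F μ r c L).toReal) :=
          mul_le_mul_of_nonneg_left ih hθ
      _ = _ := by ring

/-- doubling of order smaller than `r` -/
lemma dbl {μ : Measure ℝ} {r C : ℝ} (hr : 1 < r) (hC : 1 ≤ C) (hμ : LF μ)
    (hB : Bm μ r (ENNReal.ofReal C)) {c L : ℝ} (hL : 0 < L) (k : ℕ) :
    (μ (iv c (2 ^ k * L))).toReal ≤
      2 * C * (2 ^ r * (1 - 1 / (8 * C))) ^ k * (μ (iv c L)).toReal := by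
  have h1 : 0 < L ^ r := Real.rpow_pos_of_pos hL r
  have hC0 : 0 < C := by linarith
  have hθ : 0 ≤ 1 - 1 / (8 * C) := by
    have : 1 / (8 * C) ≤ 1 := by
      rw [div_le_one (by linarith)]; linarith
    linarith
  have h2k : (0 : ℝ) < 2 ^ k * L := by positivity
  have h2 := meas_le (μ := μ) (r := r) (c := c) (by linarith) h2k
  have hF2 := F_fin hC hμ hB (c := c) h2k
  have h2' : (μ (iv c (2 ^ k * L))).toReal ≤ 2 * ((2 ^ k * L) ^ r * (F μ r c (2 ^ k * L)).toReal) := by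
    have := ENNReal.toReal_mono
      (ENNReal.mul_lt_top (by simp) (ENNReal.mul_lt_top (by simp) hF2)).ne h2
    rw [ENNReal.toReal_mul, ENNReal.toReal_mul, ENNReal.toReal_ofReal (by positivity)] at this
    simpa using this
  have hb := hB c L hL
  rw [lint_ker hL] at hb
  have hb' : L ^ r * (F μ r c L).toReal ≤ C * (μ (iv c L)).toReal := by
    have := ENNReal.toReal_mono (ENNReal.mul_lt_top (by simp) (hμ c L)).ne hb
    rwa [ENNReal.toReal_mul, ENNReal.toReal_mul, ENNReal.toReal_ofReal h1.le,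
      ENNReal.toReal_ofReal hC0.le] at this
  have e1 : (2 ^ k * L) ^ r = (2 ^ r) ^ k * L ^ r := by
    rw [Real.mul_rpow (by positivity) hL.le]
    congr 1
    rw [← Real.rpow_natCast 2 k, ← Real.rpow_mul (by norm_num), mul_comm (k : ℝ) r,
      Real.rpow_mul (by norm_num), Real.rpow_natCast]
  calc (μ (iv c (2 ^ k * L))).toReal
      ≤ 2 * ((2 ^ k * L) ^ r * (F μ r c (2 ^ k * L)).toReal) := h2'
    _ ≤ 2 * ((2 ^ k * L) ^ r * ((1 - 1 / (8 * C)) ^ k * (F μ r c L).toReal)) := by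
        gcongr
        exact F_iter hr hC hμ hB hL k
    _ = 2 * (2 ^ r * (1 - 1 / (8 * C))) ^ k * (L ^ r * (F μ r c L).toReal) := by
        rw [e1, mul_pow]; ring
    _ ≤ 2 * (2 ^ r * (1 - 1 / (8 * C))) ^ k * (C * (μ (iv c L)).toReal) := by
        gcongr
    _ = _ := by ring

/-- the kernel is bounded by a sum over dyadic dilates -/
lemma ker_le_sum {q c L x : ℝ} (hq : 0 < q) (hL : 0 < L) :
    ENNReal.ofReal (ker q c L x) ≤
      ∑' k : ℕ, ENNReal.ofReal (4 ^ q * ((2 ^ q)⁻¹) ^ k) *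
        (iv c (2 ^ k * L)).indicator (fun _ => (1 : ℝ≥0∞)) x := by
  have hLq : 0 < L ^ q := Real.rpow_pos_of_pos hL q
  have ht3 : 0 ≤ |x - c| ^ q := Real.rpow_nonneg (abs_nonneg _) q
  by_cases hx : |x - c| < L / 2
  · refine le_trans ?_ (ENNReal.le_tsum 0)
    rw [indicator_of_mem (by rw [mem_iv]; simpa using hx)]
    rw [mul_one]
    apply ENNReal.ofReal_le_ofReal
    rw [pow_zero, mul_one]
    have h4 : (1 : ℝ) ≤ 4 ^ q := Real.one_le_rpow (by norm_num) hq.le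
    refine le_trans ?_ h4
    unfold ker
    rw [div_le_one (by positivity)]
    linarith
  · push Not at hx
    have h1 : 1 ≤ 2 * |x - c| / L := by
      rw [le_div_iff₀ hL]; linarith
    obtain ⟨n, hn1, hn2⟩ := exists_nat_pow_near h1 (by norm_num : (1 : ℝ) < 2)
    rw [le_div_iff₀ hL] at hn1
    rw [div_lt_iff₀ hL] at hn2
    refine le_trans ?_ (ENNReal.le_tsum (n + 1))
    rw [indicator_of_mem (by rw [mem_iv]; linarith)]
    rw [mul_one]
    apply ENNReal.ofReal_le_ofReal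
    have hp : 0 < |x - c| := by
      have : 0 < L / 2 := by linarith
      linarith
    have htq : 0 < |x - c| ^ q := Real.rpow_pos_of_pos hp q
    have h5 : (2 ^ n * L / 2) ^ q ≤ |x - c| ^ q :=
      Real.rpow_le_rpow (by positivity) (by linarith) hq.le
    have e1 : (2 ^ n * L / 2) ^ q = (2 ^ q) ^ n * L ^ q / 2 ^ q := by
      rw [Real.div_rpow (by positivity) (by norm_num), Real.mul_rpow (by positivity) hL.le]
      congr 2
      rw [← Real.rpow_natCast 2 n, ← Real.rpow_mul (by norm_num), mul_comm (n : ℝ) q,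
        Real.rpow_mul (by norm_num), Real.rpow_natCast]
    have h2q : (0 : ℝ) < 2 ^ q := Real.rpow_pos_of_pos (by norm_num) q
    have e2 : (4 : ℝ) ^ q = 2 ^ q * 2 ^ q := by
      rw [← Real.mul_rpow (by norm_num) (by norm_num)]; norm_num
    calc ker q c L x ≤ L ^ q / |x - c| ^ q := by
          unfold ker
          apply div_le_div_of_nonneg_left hLq.le htq
          linarith
      _ ≤ L ^ q / ((2 ^ q) ^ n * L ^ q / 2 ^ q) := by
          apply div_le_div_of_nonneg_left hLq.le (by positivity)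
          rw [← e1]; exact h5
      _ = 4 ^ q * ((2 ^ q)⁻¹) ^ (n + 1) := by
          rw [e2, inv_pow, pow_succ]
          field_simp

/-- the self-improvement for measures -/
theorem self_improve {μ : Measure ℝ} {r C : ℝ} (hr : 1 < r) (hC : 1 ≤ C) (hμ : LF μ)
    (hB : Bm μ r (ENNReal.ofReal C)) :
    ∃ q : ℝ, 1 < q ∧ q < r ∧ ∃ C' : ℝ, 1 ≤ C' ∧ Bm μ q (ENNReal.ofReal C') := by
  have hC0 : 0 < C := by linarith
  set θ : ℝ := 1 - 1 / (8 * C) with hθdef
  have hθ1 : θ < 1 := by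
    have : 0 < 1 / (8 * C) := by positivity
    linarith
  have hθ0 : 0 < θ := by
    have : 1 / (8 * C) < 1 := by
      rw [div_lt_one (by linarith)]; linarith
    linarith
  obtain ⟨ε, hε0, hε1, hε2⟩ : ∃ ε : ℝ, 0 < ε ∧ 2 ^ ε * θ < 1 ∧ ε < r - 1 := by
    have hcont : Filter.Tendsto (fun ε : ℝ => (2 : ℝ) ^ ε * θ) (nhdsWithin 0 (Ioi 0)) (nhds θ) := by
      have h : ContinuousAt (fun ε : ℝ => (2 : ℝ) ^ ε * θ) 0 := by
        apply ContinuousAt.mul _ continuousAt_const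
        exact (Real.continuous_const_rpow (by norm_num)).continuousAt
      have h2 : Filter.Tendsto (fun ε : ℝ => (2 : ℝ) ^ ε * θ) (nhds 0) (nhds θ) := by
        have := h.tendsto
        simpa using this
      exact h2.mono_left nhdsWithin_le_nhds
    have e1 : ∀ᶠ ε : ℝ in nhdsWithin 0 (Ioi 0), (2 : ℝ) ^ ε * θ < 1 :=
      hcont.eventually (gt_mem_nhds hθ1)
    have e2 : ∀ᶠ ε : ℝ in nhdsWithin 0 (Ioi 0), ε < r - 1 :=
      nhdsWithin_le_nhds (gt_mem_nhds (by linarith))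
    have e3 : ∀ᶠ ε : ℝ in nhdsWithin 0 (Ioi 0), 0 < ε := self_mem_nhdsWithin
    obtain ⟨ε, h1, h2, h3⟩ := (e1.and (e2.and e3)).exists
    exact ⟨ε, h3, h1, h2⟩
  set q : ℝ := r - ε with hq
  have hq1 : 1 < q := by linarith
  have hq0 : 0 < q := by linarith
  have h2q : (0 : ℝ) < 2 ^ q := Real.rpow_pos_of_pos (by norm_num) q
  have h2r : (0 : ℝ) < 2 ^ r := Real.rpow_pos_of_pos (by norm_num) r
  set ρ : ℝ := (2 ^ q)⁻¹ * (2 ^ r * θ) with hρ
  have hρe : ρ = 2 ^ ε * θ := by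
    rw [hρ, ← mul_assoc]
    congr 1
    have : r = q + ε := by rw [hq]; ring
    rw [this, Real.rpow_add (by norm_num)]
    field_simp
  have hρ0 : 0 ≤ ρ := by positivity
  have hρ1 : ρ < 1 := by rw [hρe]; exact hε1
  set C' : ℝ := 4 ^ q * (2 * C) * (1 - ρ)⁻¹ with hC'
  have hC'1 : 1 ≤ C' := by
    have h4 : (1 : ℝ) ≤ 4 ^ q := Real.one_le_rpow (by norm_num) hq0.le
    have h5 : (1 : ℝ) ≤ (1 - ρ)⁻¹ := by
      rw [one_le_inv₀ (by linarith)]; linarith
    have h6 : (1 : ℝ) ≤ 2 * C := by linarith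
    calc (1 : ℝ) = 1 * 1 * 1 := by norm_num
      _ ≤ 4 ^ q * (2 * C) * (1 - ρ)⁻¹ := by gcongr
  refine ⟨q, hq1, by linarith, C', hC'1, ?_⟩
  intro c L hL
  have hterm : ∀ k : ℕ, ENNReal.ofReal (4 ^ q * ((2 ^ q)⁻¹) ^ k) * μ (iv c (2 ^ k * L)) ≤
      ENNReal.ofReal (4 ^ q * (2 * C) * ρ ^ k) * μ (iv c L) := by
    intro k
    have hd := dbl hr hC hμ hB (c := c) hL k
    rw [← ENNReal.ofReal_toReal (hμ c (2 ^ k * L)).ne, ← ENNReal.ofReal_toReal (hμ c L).ne,
      ← ENNReal.ofReal_mul (by positivity), ← ENNReal.ofReal_mul (by positivity)]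
    apply ENNReal.ofReal_le_ofReal
    calc 4 ^ q * ((2 ^ q)⁻¹) ^ k * (μ (iv c (2 ^ k * L))).toReal
        ≤ 4 ^ q * ((2 ^ q)⁻¹) ^ k * (2 * C * (2 ^ r * θ) ^ k * (μ (iv c L)).toReal) := by
          gcongr
      _ = 4 ^ q * (2 * C) * ρ ^ k * (μ (iv c L)).toReal := by
          rw [hρ, mul_pow]; ring
  calc ∫⁻ x, ENNReal.ofReal (ker q c L x) ∂μ
      ≤ ∫⁻ x, ∑' k : ℕ, ENNReal.ofReal (4 ^ q * ((2 ^ q)⁻¹) ^ k) *
        (iv c (2 ^ k * L)).indicator (fun _ => (1 : ℝ≥0∞)) x ∂μ :=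
        lintegral_mono fun x => ker_le_sum hq0 hL
    _ = ∑' k : ℕ, ∫⁻ x, ENNReal.ofReal (4 ^ q * ((2 ^ q)⁻¹) ^ k) *
        (iv c (2 ^ k * L)).indicator (fun _ => (1 : ℝ≥0∞)) x ∂μ := by
        apply lintegral_tsum
        intro k
        exact (((measurable_const.indicator (measurableSet_iv _ _))).const_mul _).aemeasurable
    _ = ∑' k : ℕ, ENNReal.ofReal (4 ^ q * ((2 ^ q)⁻¹) ^ k) * μ (iv c (2 ^ k * L)) := by
        congr 1
        ext k
        rw [lintegral_const_mul _ (measurable_const.indicator (measurableSet_iv _ _)),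
          lintegral_indicator (measurableSet_iv _ _)]
        simp
    _ ≤ ∑' k : ℕ, ENNReal.ofReal (4 ^ q * (2 * C) * ρ ^ k) * μ (iv c L) :=
        ENNReal.tsum_le_tsum hterm
    _ = (∑' k : ℕ, ENNReal.ofReal (4 ^ q * (2 * C) * ρ ^ k)) * μ (iv c L) :=
        ENNReal.tsum_mul_right
    _ = ENNReal.ofReal C' * μ (iv c L) := by
        congr 1
        rw [← ENNReal.ofReal_tsum_of_nonneg]
        · rw [tsum_mul_left, tsum_geometric_of_lt_one hρ0 hρ1]
        · intro k; positivity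
        · exact (summable_geometric_of_lt_one hρ0 hρ1).mul_left _


/-- doubling of order `q < r` implies `B_r` -/
theorem bm_of_doubling {μ : Measure ℝ} {r q C : ℝ} (hr : 0 < r) (hq : q < r) (hC : 0 ≤ C)
    (h : ∀ c L : ℝ, 0 < L → ∀ k : ℕ,
      μ (iv c (2 ^ k * L)) ≤ ENNReal.ofReal (C * (2 ^ q) ^ k) * μ (iv c L)) :
    Bm μ r (ENNReal.ofReal (4 ^ r * C * (1 - (2 ^ r)⁻¹ * 2 ^ q)⁻¹)) := by
  have h2q : (0 : ℝ) < 2 ^ q := Real.rpow_pos_of_pos (by norm_num) q
  have h2r : (0 : ℝ) < 2 ^ r := Real.rpow_pos_of_pos (by norm_num) r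
  set ρ : ℝ := (2 ^ r)⁻¹ * 2 ^ q with hρ
  have hρ0 : 0 ≤ ρ := by positivity
  have hρ1 : ρ < 1 := by
    rw [hρ, inv_mul_lt_one₀ h2r]
    exact Real.rpow_lt_rpow_of_exponent_lt (by norm_num) hq
  intro c L hL
  have hterm : ∀ k : ℕ, ENNReal.ofReal (4 ^ r * ((2 ^ r)⁻¹) ^ k) * μ (iv c (2 ^ k * L)) ≤
      ENNReal.ofReal (4 ^ r * C * ρ ^ k) * μ (iv c L) := by
    intro k
    calc ENNReal.ofReal (4 ^ r * ((2 ^ r)⁻¹) ^ k) * μ (iv c (2 ^ k * L))
        ≤ ENNReal.ofReal (4 ^ r * ((2 ^ r)⁻¹) ^ k) *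
            (ENNReal.ofReal (C * (2 ^ q) ^ k) * μ (iv c L)) := by
          gcongr
          exact h c L hL k
      _ = ENNReal.ofReal (4 ^ r * C * ρ ^ k) * μ (iv c L) := by
          rw [← mul_assoc, ← ENNReal.ofReal_mul (by positivity), hρ, mul_pow]
          congr 2
          ring
  calc ∫⁻ x, ENNReal.ofReal (ker r c L x) ∂μ
      ≤ ∫⁻ x, ∑' k : ℕ, ENNReal.ofReal (4 ^ r * ((2 ^ r)⁻¹) ^ k) *
        (iv c (2 ^ k * L)).indicator (fun _ => (1 : ℝ≥0∞)) x ∂μ :=
        lintegral_mono fun x => ker_le_sum hr hL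
    _ = ∑' k : ℕ, ∫⁻ x, ENNReal.ofReal (4 ^ r * ((2 ^ r)⁻¹) ^ k) *
        (iv c (2 ^ k * L)).indicator (fun _ => (1 : ℝ≥0∞)) x ∂μ := by
        apply lintegral_tsum
        intro k
        exact (((measurable_const.indicator (measurableSet_iv _ _))).const_mul _).aemeasurable
    _ = ∑' k : ℕ, ENNReal.ofReal (4 ^ r * ((2 ^ r)⁻¹) ^ k) * μ (iv c (2 ^ k * L)) := by
        congr 1
        ext k
        rw [lintegral_const_mul _ (measurable_const.indicator (measurableSet_iv _ _)),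
          lintegral_indicator (measurableSet_iv _ _)]
        simp
    _ ≤ ∑' k : ℕ, ENNReal.ofReal (4 ^ r * C * ρ ^ k) * μ (iv c L) :=
        ENNReal.tsum_le_tsum hterm
    _ = (∑' k : ℕ, ENNReal.ofReal (4 ^ r * C * ρ ^ k)) * μ (iv c L) :=
        ENNReal.tsum_mul_right
    _ = ENNReal.ofReal (4 ^ r * C * (1 - ρ)⁻¹) * μ (iv c L) := by
        congr 1
        rw [← ENNReal.ofReal_tsum_of_nonneg]
        · rw [tsum_mul_left, tsum_geometric_of_lt_one hρ0 hρ1]
        · intro k; positivity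
        · exact (summable_geometric_of_lt_one hρ0 hρ1).mul_left _

lemma iv_mono {c L M : ℝ} (h : L ≤ M) : iv c L ⊆ iv c M := by
  intro x hx
  rw [mem_iv] at hx ⊢
  linarith

/-- `B_r` implies doubling of an order smaller than `r` -/
theorem doubling_of_bm {μ : Measure ℝ} {r C : ℝ} (hr : 1 < r) (hC : 1 ≤ C) (hμ : LF μ)
    (hB : Bm μ r (ENNReal.ofReal C)) :
    ∃ q : ℝ, 0 < q ∧ q < r ∧ ∃ C' : ℝ, 1 ≤ C' ∧ ∀ c L t : ℝ, 0 < L → 1 ≤ t →
      μ (iv c (t * L)) ≤ ENNReal.ofReal (C' * t ^ q) * μ (iv c L) := by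
  have hC0 : 0 < C := by linarith
  set θ : ℝ := 1 - 1 / (8 * C) with hθdef
  have hθ1 : θ < 1 := by
    have : 0 < 1 / (8 * C) := by positivity
    linarith
  have hθ0 : 1 / 2 < θ := by
    have : 1 / (8 * C) < 1 / 2 := by
      rw [div_lt_div_iff₀ (by linarith) (by norm_num)]; linarith
    linarith
  have h2r : (2 : ℝ) < 2 ^ r := by
    calc (2 : ℝ) = 2 ^ (1 : ℝ) := by simp
      _ < 2 ^ r := Real.rpow_lt_rpow_of_exponent_lt (by norm_num) hr
  have hpos : 0 < 2 ^ r * θ := by positivity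
  set q : ℝ := Real.logb 2 (2 ^ r * θ) with hq
  have h2q : (2 : ℝ) ^ q = 2 ^ r * θ := Real.rpow_logb (by norm_num) (by norm_num) hpos
  have hq0 : 0 < q := by
    apply Real.logb_pos (by norm_num)
    nlinarith
  have hqr : q < r := by
    have : (2 : ℝ) ^ q < 2 ^ r := by
      rw [h2q]; nlinarith
    exact (Real.rpow_lt_rpow_left_iff (by norm_num)).1 this
  refine ⟨q, hq0, hqr, 2 * C * 2 ^ q, ?_, ?_⟩
  · have h1 : (1 : ℝ) ≤ 2 ^ q := Real.one_le_rpow (by norm_num) hq0.le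
    nlinarith
  · intro c L t hL ht
    obtain ⟨n, hn1, hn2⟩ := exists_nat_pow_near ht (by norm_num : (1 : ℝ) < 2)
    have hd := dbl hr hC hμ hB (c := c) hL (n + 1)
    have hsub : iv c (t * L) ⊆ iv c (2 ^ (n + 1) * L) :=
      iv_mono (mul_le_mul_of_nonneg_right hn2.le hL.le)
    calc μ (iv c (t * L)) ≤ μ (iv c (2 ^ (n + 1) * L)) := measure_mono hsub
      _ = ENNReal.ofReal (μ (iv c (2 ^ (n + 1) * L))).toReal :=
          (ENNReal.ofReal_toReal (hμ _ _).ne).symm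
      _ ≤ ENNReal.ofReal (2 * C * 2 ^ q * t ^ q * (μ (iv c L)).toReal) := by
          apply ENNReal.ofReal_le_ofReal
          refine hd.trans ?_
          have e : (2 ^ r * (1 - 1 / (8 * C))) ^ (n + 1) ≤ 2 ^ q * t ^ q := by
            rw [← hθdef, ← h2q, ← Real.rpow_natCast, ← Real.rpow_mul (by norm_num)]
            calc (2 : ℝ) ^ (q * ((n + 1 : ℕ) : ℝ)) = 2 ^ q * (2 ^ n) ^ q := by
                  rw [← Real.rpow_natCast 2 n, ← Real.rpow_mul (by norm_num),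
                    ← Real.rpow_add (by norm_num)]
                  congr 1
                  push_cast
                  ring
              _ ≤ 2 ^ q * t ^ q := by
                  gcongr
          have hm0 : 0 ≤ (μ (iv c L)).toReal := ENNReal.toReal_nonneg
          calc 2 * C * (2 ^ r * (1 - 1 / (8 * C))) ^ (n + 1) * (μ (iv c L)).toReal
              ≤ 2 * C * (2 ^ q * t ^ q) * (μ (iv c L)).toReal := by gcongr
            _ = _ := by ring
      _ = ENNReal.ofReal (2 * C * 2 ^ q * t ^ q) * μ (iv c L) := by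
          rw [ENNReal.ofReal_mul (by positivity), ENNReal.ofReal_toReal (hμ _ _).ne]

end Pool.Agent.TH318.Br
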