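import Mathlib

set_option autoImplicit false

open Filter Topology Set

namespace Pool.Agent.TH318.BiExt

variable {𝕜 : Type*} [RCLike 𝕜] {E : Type*} [NormedAddCommGroup E] [NormedSpace 𝕜 E]

/-- For a norm bounded sequence of functionals, convergence to zero on a set passes to the
closure of the set. -/
theorem null_closure (g : ℕ → E →L[𝕜] 𝕜) (D : ℝ) (hg : ∀ n, ‖g n‖ ≤ D) (A : Set E)
    (hA : ∀ z ∈ A, Tendsto (fun n => g n z) atTop (𝓝 0)) :
    ∀ z ∈ closure A, Tendsto (fun n => g n z) atTop (𝓝 0) := by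
  intro z hz
  rw [Metric.tendsto_atTop]
  intro ε hε
  have hD : 0 ≤ D := (norm_nonneg _).trans (hg 0)
  obtain ⟨a, haA, ha⟩ := Metric.mem_closure_iff.1 hz (ε / (2 * (D + 1))) (by positivity)
  obtain ⟨N, hN⟩ := (Metric.tendsto_atTop.1 (hA a haA)) (ε / 2) (by positivity)
  refine ⟨N, fun n hn => ?_⟩
  have h1 := hN n hn
  rw [dist_zero_right] at h1 ⊢
  have h2 : g n z = g n (z - a) + g n a := by rw [← map_add]; simp
  have h3 : ‖g n (z - a)‖ ≤ D * ‖z - a‖ := (g n).le_of_opNorm_le (hg n) _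
  rw [dist_eq_norm] at ha
  have h4 : D * ‖z - a‖ ≤ (D + 1) * (ε / (2 * (D + 1))) := by
    apply mul_le_mul (by linarith) ha.le (norm_nonneg _) (by linarith)
  have h5 : (D + 1) * (ε / (2 * (D + 1))) = ε / 2 := by field_simp
  calc ‖g n z‖ ≤ ‖g n (z - a)‖ + ‖g n a‖ := by rw [h2]; exact norm_add_le _ _
    _ < ε := by linarith

/-- Convergence to zero on a set passes to its linear span. -/
theorem null_span (g : ℕ → E →L[𝕜] 𝕜) (A : Set E)
    (hA : ∀ z ∈ A, Tendsto (fun n => g n z) atTop (𝓝 0)) :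
    ∀ z ∈ Submodule.span 𝕜 A, Tendsto (fun n => g n z) atTop (𝓝 0) := by
  intro z hz
  induction hz using Submodule.span_induction with
  | mem x hx => exact hA x hx
  | zero => simp
  | add x y _ _ hx hy => simpa using hx.add hy
  | smul c x _ hx => simpa using hx.const_mul c

/-- **Lemma A.** A norm bounded sequence of functionals which tends to zero pointwise on a
subspace `F` can be corrected, by functionals vanishing on `F` of no larger norm, to a sequence
tending to zero pointwise on the whole (separable) space. -/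
theorem exists_null_correction [TopologicalSpace.SeparableSpace E] (F : Submodule 𝕜 E)
    (f : ℕ → E →L[𝕜] 𝕜) (D : ℝ) (hf : ∀ n, ‖f n‖ ≤ D)
    (h0 : ∀ z ∈ F, Tendsto (fun n => f n z) atTop (𝓝 0)) :
    ∃ h : ℕ → E →L[𝕜] 𝕜, (∀ n, ‖h n‖ ≤ D) ∧ (∀ n, ∀ z ∈ F, h n z = 0) ∧
      ∀ z, Tendsto (fun n => (f n - h n) z) atTop (𝓝 0) := by
  classical
  have hD : 0 ≤ D := (norm_nonneg _).trans (hf 0)
  set z : ℕ → E := TopologicalSpace.denseSeq E with hz
  -- the approximation property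
  let P : ℕ → ℕ → Prop := fun m n => ∃ h : E →L[𝕜] 𝕜, ‖h‖ ≤ D ∧ (∀ w ∈ F, h w = 0) ∧
    ∀ i ≤ m, ‖(f n - h) (z i)‖ ≤ 1 / ((m : ℝ) + 1)
  have key : ∀ m, ∀ᶠ n in atTop, P m n := by
    intro m
    by_contra hcon
    rw [Filter.not_eventually] at hcon
    obtain ⟨φ, hφ, hφP⟩ := Filter.extraction_of_frequently_atTop hcon
    have hball : ∀ k, (StrongDual.toWeakDual (f (φ k))) ∈
        (WeakDual.toStrongDual ⁻¹' Metric.closedBall (0 : StrongDual 𝕜 E) D :
          Set (WeakDual 𝕜 E)) := by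
      intro k
      simp only [mem_preimage, Metric.mem_closedBall, dist_zero_right]
      exact hf (φ k)
    obtain ⟨g, hg, ψ, hψ, hconv⟩ := WeakDual.isSeqCompact_closedBall 𝕜 E
      (0 : StrongDual 𝕜 E) D hball
    have hconv' : ∀ w : E, Tendsto (fun k => f (φ (ψ k)) w) atTop
        (𝓝 ((WeakDual.toStrongDual g : E →L[𝕜] 𝕜) w)) := by
      intro w
      exact ((WeakDual.eval_continuous w).tendsto g).comp hconv
    have hgn : ‖(WeakDual.toStrongDual g : E →L[𝕜] 𝕜)‖ ≤ D := by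
      simpa using hg
    have hgF : ∀ w ∈ F, (WeakDual.toStrongDual g : E →L[𝕜] 𝕜) w = 0 := by
      intro w hw
      refine tendsto_nhds_unique (hconv' w) ?_
      exact (h0 w hw).comp (hφ.comp hψ).tendsto_atTop
    have hev : ∀ᶠ k in atTop, ∀ i ∈ Finset.range (m + 1),
        ‖(f (φ (ψ k)) - (WeakDual.toStrongDual g : E →L[𝕜] 𝕜)) (z i)‖ ≤ 1 / ((m : ℝ) + 1) := by
      rw [Filter.eventually_all_finset]
      intro i _
      have h1 : Tendsto (fun k => ‖(f (φ (ψ k)) - (WeakDual.toStrongDual g : E →L[𝕜] 𝕜)) (z i)‖)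
          atTop (𝓝 0) := by
        have := ((hconv' (z i)).sub_const ((WeakDual.toStrongDual g : E →L[𝕜] 𝕜) (z i))).norm
        simpa using this
      have h2 : (0 : ℝ) < 1 / ((m : ℝ) + 1) := by positivity
      exact (h1.eventually (gt_mem_nhds h2)).mono fun k hk => hk.le
    obtain ⟨k, hk⟩ := hev.exists
    refine hφP (ψ k) ⟨WeakDual.toStrongDual g, hgn, hgF, fun i hi => ?_⟩
    exact hk i (Finset.mem_range.2 (Nat.lt_succ_of_le hi))
  -- the diagonal choice
  have hchoice : ∀ n, ∃ h : E →L[𝕜] 𝕜, ‖h‖ ≤ D ∧ (∀ w ∈ F, h w = 0) ∧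
      ∀ m ≤ n, P m n → ∀ i ≤ m, ‖(f n - h) (z i)‖ ≤ 1 / ((m : ℝ) + 1) := by
    intro n
    by_cases hex : ∃ m ≤ n, P m n
    · obtain ⟨m₀, hm₀, hP₀⟩ := hex
      have hspec : P (Nat.findGreatest (fun m => P m n) n) n :=
        Nat.findGreatest_spec (P := fun m => P m n) hm₀ hP₀
      obtain ⟨h, h1, h2, h3⟩ := hspec
      refine ⟨h, h1, h2, fun m hm hP i hi => ?_⟩
      have hle : m ≤ Nat.findGreatest (fun m => P m n) n := Nat.le_findGreatest hm hP
      refine (h3 i (hi.trans hle)).trans ?_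
      apply one_div_le_one_div_of_le (by positivity)
      have : (m : ℝ) ≤ (Nat.findGreatest (fun m => P m n) n : ℝ) := by exact_mod_cast hle
      linarith
    · push Not at hex
      exact ⟨0, by simpa using hD, by simp, fun m hm hP => absurd hP (hex m hm)⟩
  choose h h1 h2 h3 using hchoice
  refine ⟨h, h1, h2, ?_⟩
  have hbd : ∀ n, ‖f n - h n‖ ≤ D + D := fun n =>
    (norm_sub_le _ _).trans (add_le_add (hf n) (h1 n))
  have hdense : ∀ w ∈ Set.range z, Tendsto (fun n => (f n - h n) w) atTop (𝓝 0) := by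
    rintro _ ⟨i, rfl⟩
    rw [Metric.tendsto_atTop]
    intro ε hε
    obtain ⟨m, hm⟩ := exists_nat_one_div_lt hε
    have hev := (key (max m i)).and (Filter.eventually_ge_atTop (max m i))
    obtain ⟨N, hN⟩ := Filter.eventually_atTop.1 hev
    refine ⟨N, fun n hn => ?_⟩
    obtain ⟨hP, hge⟩ := hN n hn
    rw [dist_zero_right]
    refine lt_of_le_of_lt (h3 n (max m i) hge hP i (le_max_right _ _)) ?_
    refine lt_of_le_of_lt ?_ hm
    apply one_div_le_one_div_of_le (by positivity)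
    have : (m : ℝ) ≤ ((max m i : ℕ) : ℝ) := by exact_mod_cast le_max_left _ _
    linarith
  intro w
  refine null_closure (fun n => f n - h n) (D + D) hbd (Set.range z) hdense w ?_
  rw [(TopologicalSpace.denseRange_denseSeq E).closure_range]
  trivial

/-- The quotient form of Hahn-Banach: a functional vanishing on a closed subspace, equal to one at
a given point outside of it. -/
theorem exists_functional (G : Submodule 𝕜 E) (hG : IsClosed (G : Set E)) (w : E) (hw : w ∉ G) :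
    ∃ g : E →L[𝕜] 𝕜, (∀ z ∈ G, g z = 0) ∧ g w = 1 ∧
      ∀ r : ℝ, 0 < r → (∀ z ∈ G, r ≤ ‖w - z‖) → ‖g‖ ≤ r⁻¹ := by
  have : IsClosed (G : Set E) := hG
  have hcl : IsClosed (G.toAddSubgroup : Set E) := hG
  have hne : (G.mkQ w) ≠ 0 := by
    intro h
    exact hw ((Submodule.Quotient.mk_eq_zero G).1 h)
  have hnpos : 0 < ‖G.mkQ w‖ := norm_pos_iff.2 hne
  obtain ⟨φ, hφ1, hφ2⟩ := exists_dual_vector 𝕜 (G.mkQ w) hnpos.ne'
  let π : E →L[𝕜] (E ⧸ G) := G.mkQL
  have hπ : ∀ z, ‖π z‖ ≤ 1 * ‖z‖ := by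
    intro z
    rw [one_mul]
    exact Submodule.Quotient.norm_mk_le G z
  have hπn : ‖π‖ ≤ 1 := ContinuousLinearMap.opNorm_le_bound _ zero_le_one hπ
  refine ⟨((‖G.mkQ w‖ : ℝ) : 𝕜)⁻¹ • (φ.comp π), ?_, ?_, ?_⟩
  · intro z hz
    have : π z = 0 := (Submodule.Quotient.mk_eq_zero G).2 hz
    simp [this]
  · have h1 : φ (π w) = ((‖G.mkQ w‖ : ℝ) : 𝕜) := hφ2
    change ((‖G.mkQ w‖ : ℝ) : 𝕜)⁻¹ • (φ (π w)) = 1
    rw [h1, smul_eq_mul]
    apply inv_mul_cancel₀
    exact_mod_cast hnpos.ne'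
  · intro r hr hdist
    have h1 : r ≤ ‖G.mkQ w‖ := by
      by_contra hlt
      push Not at hlt
      obtain ⟨m, hm1, hm2⟩ := Submodule.Quotient.norm_mk_lt (S := G) (G.mkQ w)
        (sub_pos.2 hlt)
      have h2 : w - m ∈ G := by
        rw [← Submodule.Quotient.mk_eq_zero, Submodule.Quotient.mk_sub, hm1]
        simp
      have h3 := hdist _ h2
      have h4 : w - (w - m) = m := by abel
      rw [h4] at h3
      linarith
    rw [norm_smul]
    calc ‖((‖G.mkQ w‖ : ℝ) : 𝕜)⁻¹‖ * ‖φ.comp π‖ ≤ ‖((‖G.mkQ w‖ : ℝ) : 𝕜)⁻¹‖ * (1 * 1) := by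
          apply mul_le_mul_of_nonneg_left _ (norm_nonneg _)
          refine (ContinuousLinearMap.opNorm_comp_le _ _).trans ?_
          exact mul_le_mul hφ1.le hπn (norm_nonneg _) zero_le_one
      _ = (‖G.mkQ w‖)⁻¹ := by
          rw [norm_inv, RCLike.norm_ofReal, abs_of_pos hnpos]; ring
      _ ≤ r⁻¹ := inv_anti₀ hr h1

end Pool.Agent.TH318.BiExt
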