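import Mathlib
import Pool.Agent.TH318.BiExtA

set_option autoImplicit false

open Filter Topology Set

namespace Pool.Agent.TH318.BiExt

/-- A recursion principle for finite sets with an invariant. -/
theorem finset_recursion {α : Type*} (Inv : Finset α → Prop) (Q : ℕ → Finset α → Prop)
    (h0 : Inv ∅) (hstep : ∀ n s, Inv s → ∃ s', s ⊆ s' ∧ Inv s' ∧ Q n s') :
    ∃ S : Set α, S.Countable ∧
      (∀ t : Finset α, (↑t : Set α) ⊆ S → ∃ s : Finset α, t ⊆ s ∧ (↑s : Set α) ⊆ S ∧ Inv s) ∧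
      ∀ n, ∃ s : Finset α, (↑s : Set α) ⊆ S ∧ Inv s ∧ Q n s := by
  classical
  choose! next hn1 hn2 hn3 using hstep
  let L : ℕ → Finset α := fun n => Nat.rec ∅ (fun n s => next n s) n
  have hL0 : L 0 = ∅ := rfl
  have hLs : ∀ n, L (n + 1) = next n (L n) := fun n => rfl
  have hInv : ∀ n, Inv (L n) := by
    intro n
    induction n with
    | zero => exact h0
    | succ n ih => rw [hLs]; exact hn2 n _ ih
  have hmono : Monotone L := by
    apply monotone_nat_of_le_succ
    intro n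
    rw [hLs]
    exact hn1 n _ (hInv n)
  refine ⟨{a | ∃ n, a ∈ L n}, ?_, ?_, ?_⟩
  · have h1 : {a | ∃ n, a ∈ L n} = ⋃ n, {a | a ∈ L n} := by
      ext a
      simp only [Set.mem_iUnion]
      rfl
    rw [h1]
    exact Set.countable_iUnion fun n => (L n).countable_toSet
  · intro t ht
    have : ∃ n, t ⊆ L n := by
      induction t using Finset.induction with
      | empty => exact ⟨0, Finset.empty_subset _⟩
      | insert a t _ ih =>
        obtain ⟨n, hn⟩ := ih (fun b hb => ht (by simpa using Or.inr hb))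
        obtain ⟨m, hm⟩ := ht (show a ∈ (↑(insert a t) : Set α) by simp)
        refine ⟨max n m, fun b hb => ?_⟩
        rcases Finset.mem_insert.1 hb with rfl | hb
        · exact hmono (le_max_right n m) hm
        · exact hmono (le_max_left n m) (hn hb)
    obtain ⟨n, hn⟩ := this
    exact ⟨L n, hn, fun a ha => ⟨n, ha⟩, hInv n⟩
  · intro n
    exact ⟨L (n + 1), fun a ha => ⟨n + 1, ha⟩, hInv (n + 1), hn3 n (L n) (hInv n)⟩

variable {𝕜 : Type*} [RCLike 𝕜] {E : Type*} [NormedAddCommGroup E] [NormedSpace 𝕜 E]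

/-- For a finite biorthogonal set, the associated finite sum reproduces the values of the
functionals. -/
theorem apply_proj (s : Finset (E × (E →L[𝕜] 𝕜))) (h1 : ∀ p ∈ s, p.2 p.1 = 1)
    (h2 : ∀ p ∈ s, ∀ q ∈ s, p ≠ q → p.2 q.1 = 0) (d : E) (p : E × (E →L[𝕜] 𝕜)) (hp : p ∈ s) :
    p.2 (∑ q ∈ s, q.2 d • q.1) = p.2 d := by
  rw [map_sum, Finset.sum_eq_single p]
  · simp [h1 p hp]
  · intro q hq hqp
    simp [h2 p hp q hq (Ne.symm hqp)]
  · intro h; exact absurd hp h

/-- **Lemma C.** A closed subspace of a separable normed space has a countable biorthogonal system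
of pairs whose functionals vanish on it and whose vectors together with the subspace span a dense
subspace. -/
theorem exists_complement_system [TopologicalSpace.SeparableSpace E] (F : Submodule 𝕜 E) :
    ∃ S : Set (E × (E →L[𝕜] 𝕜)), S.Countable ∧ (∀ p ∈ S, ∀ z ∈ F, p.2 z = 0) ∧
      (∀ p ∈ S, p.2 p.1 = 1) ∧ (∀ p ∈ S, ∀ q ∈ S, p ≠ q → p.2 q.1 = 0) ∧
      (F ⊔ Submodule.span 𝕜 (Prod.fst '' S)).topologicalClosure = ⊤ := by
  classical
  let Inv : Finset (E × (E →L[𝕜] 𝕜)) → Prop := fun s => (∀ p ∈ s, ∀ z ∈ F, p.2 z = 0) ∧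
      (∀ p ∈ s, p.2 p.1 = 1) ∧ (∀ p ∈ s, ∀ q ∈ s, p ≠ q → p.2 q.1 = 0)
  let Q : ℕ → Finset (E × (E →L[𝕜] 𝕜)) → Prop := fun n s =>
    TopologicalSpace.denseSeq E n ∈
      (F ⊔ Submodule.span 𝕜 (Prod.fst '' (↑s : Set (E × (E →L[𝕜] 𝕜))))).topologicalClosure
  obtain ⟨S, hS1, hS2, hS3⟩ := finset_recursion Inv Q
    ⟨by simp, by simp, by simp⟩ (by
      intro n s hs
      set d := TopologicalSpace.denseSeq E n with hd
      set G := (F ⊔ Submodule.span 𝕜
        (Prod.fst '' (↑s : Set (E × (E →L[𝕜] 𝕜))))).topologicalClosure with hG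
      by_cases hdG : d ∈ G
      · exact ⟨s, Finset.Subset.refl _, hs, hdG⟩
      · obtain ⟨hs1, hs2, hs3⟩ := hs
        set u := ∑ q ∈ s, q.2 d • q.1 with hu
        have hle : F ⊔ Submodule.span 𝕜 (Prod.fst '' (↑s : Set (E × (E →L[𝕜] 𝕜)))) ≤ G :=
          Submodule.le_topologicalClosure _
        have huspan : u ∈ Submodule.span 𝕜 (Prod.fst '' (↑s : Set (E × (E →L[𝕜] 𝕜)))) := by
          apply Submodule.sum_mem
          intro q hq
          exact Submodule.smul_mem _ _ (Submodule.subset_span ⟨q, hq, rfl⟩)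
        have huG : u ∈ G := hle (Submodule.mem_sup_right huspan)
        have hwG : d - u ∉ G := fun h => hdG (by
          have := G.add_mem h huG
          simpa using this)
        obtain ⟨g, hg1, hg2, -⟩ := exists_functional G
          (Submodule.isClosed_topologicalClosure _) (d - u) hwG
        have hnotin : (d - u, g) ∉ s := by
          intro hmem
          apply hwG
          exact hle (Submodule.mem_sup_right (Submodule.subset_span ⟨_, hmem, rfl⟩))
        refine ⟨insert (d - u, g) s, Finset.subset_insert _ _, ⟨?_, ?_, ?_⟩, ?_⟩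
        · intro p hp z hz
          rcases Finset.mem_insert.1 hp with rfl | hp
          · exact hg1 z (hle (Submodule.mem_sup_left hz))
          · exact hs1 p hp z hz
        · intro p hp
          rcases Finset.mem_insert.1 hp with rfl | hp
          · exact hg2
          · exact hs2 p hp
        · intro p hp q hq hpq
          rcases Finset.mem_insert.1 hp with rfl | hp
          · rcases Finset.mem_insert.1 hq with rfl | hq
            · exact absurd rfl hpq
            · exact hg1 _ (hle (Submodule.mem_sup_right (Submodule.subset_span ⟨q, hq, rfl⟩)))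
          · rcases Finset.mem_insert.1 hq with rfl | hq
            · change p.2 (d - u) = 0
              rw [map_sub, hu, apply_proj s hs2 hs3 d p hp, sub_self]
            · exact hs3 p hp q hq hpq
        · change d ∈ _
          apply Submodule.le_topologicalClosure
          apply Submodule.mem_sup_right
          have h1 : d = (d - u) + u := by abel
          rw [h1]
          apply Submodule.add_mem
          · exact Submodule.subset_span ⟨(d - u, g), by simp, rfl⟩
          · exact Submodule.span_mono (Set.image_mono (by simp)) huspan)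
  refine ⟨S, hS1, ?_, ?_, ?_, ?_⟩
  · intro p hp
    obtain ⟨s, hs1, -, hs3⟩ := hS2 {p} (by simpa using hp)
    exact hs3.1 p (hs1 (by simp))
  · intro p hp
    obtain ⟨s, hs1, -, hs3⟩ := hS2 {p} (by simpa using hp)
    exact hs3.2.1 p (hs1 (by simp))
  · intro p hp q hq hpq
    obtain ⟨s, hs1, -, hs3⟩ := hS2 {p, q} (by
      intro a ha
      simp only [Finset.coe_insert, Finset.coe_singleton, Set.mem_insert_iff,
        Set.mem_singleton_iff] at ha
      rcases ha with rfl | rfl <;> assumption)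
    exact hs3.2.2 p (hs1 (by simp)) q (hs1 (by simp)) hpq
  · rw [eq_top_iff]
    have hsub : Set.range (TopologicalSpace.denseSeq E) ⊆
        ((F ⊔ Submodule.span 𝕜 (Prod.fst '' S)).topologicalClosure : Set E) := by
      rintro _ ⟨n, rfl⟩
      obtain ⟨s, hs1, -, hs3⟩ := hS3 n
      refine Submodule.topologicalClosure_mono ?_ hs3
      exact sup_le_sup le_rfl (Submodule.span_mono (Set.image_mono hs1))
    intro z _
    have h1 : z ∈ closure (Set.range (TopologicalSpace.denseSeq E)) := by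
      rw [(TopologicalSpace.denseRange_denseSeq E).closure_range]; trivial
    exact closure_minimal hsub (Submodule.isClosed_topologicalClosure _) h1

/-- **Proposition B.** Let `(x n, f n)` be biorthogonal with `f n` tending to zero pointwise, and
let `S` be a countable biorthogonal system whose functionals vanish on a subspace `F` containing
all `x n`. Then the vectors of `S` can be changed by elements of the span of the `x n`, and the
`f n` by functionals of arbitrarily small norm vanishing on `F`, so that the whole system becomes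
biorthogonal. -/
theorem exists_kill (x : ℕ → E) (f : ℕ → E →L[𝕜] 𝕜)
    (hxf : ∀ i j, f i (x j) = if i = j then 1 else 0)
    (hnull : ∀ z, Tendsto (fun n => f n z) atTop (𝓝 0)) (F : Submodule 𝕜 E)
    (hxF : ∀ n, x n ∈ F) (S : Set (E × (E →L[𝕜] 𝕜))) (hS : S.Countable)
    (hSF : ∀ p ∈ S, ∀ z ∈ F, p.2 z = 0) (hS1 : ∀ p ∈ S, p.2 p.1 = 1)
    (hS2 : ∀ p ∈ S, ∀ q ∈ S, p ≠ q → p.2 q.1 = 0) (ε : ℝ) (hε : 0 < ε) :
    ∃ (y : S → E) (f' : ℕ → E →L[𝕜] 𝕜),
      (∀ p : S, (p : E × (E →L[𝕜] 𝕜)).1 - y p ∈ Submodule.span 𝕜 (Set.range x)) ∧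
      (∀ n, ∀ z ∈ F, f' n z = f n z) ∧ (∀ n, ‖f' n - f n‖ ≤ ε) ∧ (∀ n p, f' n (y p) = 0) ∧
      (∀ p q : S, (p = q → (p : E × (E →L[𝕜] 𝕜)).2 (y q) = 1) ∧
        (p ≠ q → (p : E × (E →L[𝕜] 𝕜)).2 (y q) = 0)) := by
  classical
  have : Countable S := hS.to_subtype
  let enc : Encodable S := Encodable.ofCountable S
  obtain ⟨ε', hε'pos, c, hc, hcε⟩ := posSumOfEncodable hε S
  have hN : ∀ p : S, ∃ N, ∀ i, N ≤ i →
      ‖f i (p : E × (E →L[𝕜] 𝕜)).1‖ * ‖(p : E × (E →L[𝕜] 𝕜)).2‖ ≤ ε' p := by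
    intro p
    have h1 : Tendsto (fun i => ‖f i (p : E × (E →L[𝕜] 𝕜)).1‖ * ‖(p : E × (E →L[𝕜] 𝕜)).2‖) atTop
        (𝓝 0) := by
      have := (hnull (p : E × (E →L[𝕜] 𝕜)).1).norm.mul_const (‖(p : E × (E →L[𝕜] 𝕜)).2‖)
      simpa using this
    obtain ⟨N, hN⟩ := Filter.eventually_atTop.1 (h1.eventually (gt_mem_nhds (hε'pos p)))
    exact ⟨N, fun i hi => (hN i hi).le⟩
  choose N hN using hN
  let u : S → E := fun p => ∑ j ∈ Finset.range (N p), f j (p : E × (E →L[𝕜] 𝕜)).1 • x j
  let y : S → E := fun p => (p : E × (E →L[𝕜] 𝕜)).1 - u p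
  have huspan : ∀ p, u p ∈ Submodule.span 𝕜 (Set.range x) := by
    intro p
    exact Submodule.sum_mem _ fun j _ =>
      Submodule.smul_mem _ _ (Submodule.subset_span (Set.mem_range_self j))
  have hspanF : Submodule.span 𝕜 (Set.range x) ≤ F := by
    rw [Submodule.span_le]
    rintro _ ⟨j, rfl⟩
    exact hxF j
  have hfu : ∀ i p, f i (u p) = if i < N p then f i (p : E × (E →L[𝕜] 𝕜)).1 else 0 := by
    intro i p
    change f i (∑ j ∈ Finset.range (N p), f j (p : E × (E →L[𝕜] 𝕜)).1 • x j) = _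
    rw [map_sum]
    simp only [map_smul, hxf, smul_eq_mul, mul_ite, mul_one, mul_zero]
    rw [Finset.sum_ite_eq]
    simp only [Finset.mem_range]
  have hfy : ∀ i p, ‖f i (y p)‖ * ‖(p : E × (E →L[𝕜] 𝕜)).2‖ ≤ ε' p := by
    intro i p
    have h0 : f i (y p) = f i (p : E × (E →L[𝕜] 𝕜)).1 - f i (u p) := map_sub _ _ _
    rw [h0, hfu]
    split_ifs with h
    · rw [sub_self, norm_zero, zero_mul]; exact (hε'pos p).le
    · rw [sub_zero]; exact hN p i (not_lt.1 h)
  have hSy : ∀ p q : S, (p = q → (p : E × (E →L[𝕜] 𝕜)).2 (y q) = 1) ∧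
        (p ≠ q → (p : E × (E →L[𝕜] 𝕜)).2 (y q) = 0) := by
    intro p q
    have h0 : (p : E × (E →L[𝕜] 𝕜)).2 (y q) =
        (p : E × (E →L[𝕜] 𝕜)).2 (q : E × (E →L[𝕜] 𝕜)).1 := by
      change (p : E × (E →L[𝕜] 𝕜)).2 ((q : E × (E →L[𝕜] 𝕜)).1 - u q) = _
      rw [map_sub, hSF _ p.2 _ (hspanF (huspan q)), sub_zero]
    rw [h0]
    exact ⟨fun h => by subst h; exact hS1 _ p.2,
      fun h => hS2 _ p.2 _ q.2 (fun h' => h (Subtype.ext h'))⟩
  let T : ℕ → S → (E →L[𝕜] 𝕜) := fun i p => f i (y p) • (p : E × (E →L[𝕜] 𝕜)).2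
  have hTn : ∀ i p, ‖T i p‖ ≤ ε' p := by
    intro i p
    rw [norm_smul]
    exact hfy i p
  have hsum : ∀ i, Summable (T i) := fun i => Summable.of_norm_bounded hc.summable (hTn i)
  have hTapp : ∀ i z, HasSum (fun p => T i p z) ((∑' p, T i p) z) := by
    intro i z
    have h : HasSum (fun p => (ContinuousLinearMap.apply 𝕜 𝕜 z : (E →L[𝕜] 𝕜) →L[𝕜] 𝕜) (T i p))
        ((ContinuousLinearMap.apply 𝕜 𝕜 z : (E →L[𝕜] 𝕜) →L[𝕜] 𝕜) (∑' p, T i p)) :=
      ContinuousLinearMap.hasSum _ (hsum i).hasSum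
    simpa only [ContinuousLinearMap.apply_apply] using h
  refine ⟨y, fun i => f i - ∑' p, T i p, ?_, ?_, ?_, ?_, hSy⟩
  · intro p
    have : (p : E × (E →L[𝕜] 𝕜)).1 - y p = u p := by simp [y]
    rw [this]; exact huspan p
  · intro n z hz
    have h1 : (∑' p, T n p) z = 0 := by
      refine (hTapp n z).unique ?_
      have : (fun p => T n p z) = fun _ => 0 := by
        funext p
        change f n (y p) • (p : E × (E →L[𝕜] 𝕜)).2 z = 0
        rw [hSF _ p.2 z hz, smul_zero]
      rw [this]; exact hasSum_zero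
    change f n z - (∑' p, T n p) z = f n z
    rw [h1, sub_zero]
  · intro n
    have h1 : f n - ∑' p, T n p - f n = -∑' p, T n p := by abel
    rw [h1, norm_neg]
    exact (tsum_of_norm_bounded hc (hTn n)).trans hcε
  · intro n q
    have h1 : (∑' p, T n p) (y q) = f n (y q) := by
      refine (hTapp n (y q)).unique ?_
      have h2 : (f n (y q) : 𝕜) = T n q (y q) := by
        change _ = f n (y q) • (q : E × (E →L[𝕜] 𝕜)).2 (y q)
        rw [(hSy q q).1 rfl, smul_eq_mul, mul_one]
      rw [h2]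
      apply hasSum_single q
      intro p hp
      change f n (y p) • (p : E × (E →L[𝕜] 𝕜)).2 (y q) = 0
      rw [(hSy p q).2 hp, smul_zero]
    change f n (y q) - (∑' p, T n p) (y q) = 0
    rw [h1, sub_self]

/-- The main extension theorem, in terms of bounded functionals on the whole space. -/
theorem exists_dense_modification [TopologicalSpace.SeparableSpace E] (x : ℕ → E)
    (g : ℕ → E →L[𝕜] 𝕜) (D : ℝ) (hgD : ∀ n, ‖g n‖ ≤ D)
    (hgx : ∀ i j, g i (x j) = if i = j then 1 else 0) (F : Submodule 𝕜 E)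
    (hF : F = (Submodule.span 𝕜 (Set.range x)).topologicalClosure) (ε : ℝ) (hε : 0 < ε) :
    ∃ (f' : ℕ → E →L[𝕜] 𝕜) (S : Set (E × (E →L[𝕜] 𝕜))) (y : S → E),
      S.Countable ∧ (∀ n, ∀ z ∈ F, f' n z = g n z) ∧ (∀ n, ‖f' n‖ ≤ 2 * D + ε) ∧
      (∀ n p, f' n (y p) = 0) ∧ (∀ p ∈ S, ∀ z ∈ F, p.2 z = 0) ∧
      (∀ p q : S, (p = q → (p : E × (E →L[𝕜] 𝕜)).2 (y q) = 1) ∧
        (p ≠ q → (p : E × (E →L[𝕜] 𝕜)).2 (y q) = 0)) ∧
      (F ⊔ Submodule.span 𝕜 (Set.range y)).topologicalClosure = ⊤ := by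
  have hxF : ∀ n, x n ∈ F := fun n => by
    rw [hF]
    exact Submodule.le_topologicalClosure _ (Submodule.subset_span ⟨n, rfl⟩)
  have hgnull : ∀ z ∈ F, Tendsto (fun n => g n z) atTop (𝓝 0) := by
    intro z hz
    refine null_closure g D hgD (Submodule.span 𝕜 (Set.range x) : Set E) ?_ z ?_
    · apply null_span
      rintro _ ⟨j, rfl⟩
      refine tendsto_const_nhds.congr' ?_
      filter_upwards [Filter.eventually_gt_atTop j] with n hn
      rw [hgx, if_neg (by omega)]
    · rw [hF, ← SetLike.mem_coe, Submodule.topologicalClosure_coe] at hz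
      exact hz
  obtain ⟨h, hh1, hh2, hh3⟩ := exists_null_correction F g D hgD hgnull
  have hfx : ∀ i j, (g i - h i) (x j) = if i = j then 1 else 0 := by
    intro i j
    change g i (x j) - h i (x j) = _
    rw [hh2 i _ (hxF j), sub_zero, hgx]
  obtain ⟨S, hS0, hS1, hS2, hS3, hS4⟩ := exists_complement_system (𝕜 := 𝕜) F
  obtain ⟨y, f', hy1, hf1, hf2, hf3, hf4⟩ := exists_kill x (fun n => g n - h n) hfx hh3 F hxF S hS0
    hS1 hS2 hS3 ε hε
  refine ⟨f', S, y, hS0, ?_, ?_, hf3, hS1, hf4, ?_⟩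
  · intro n z hz
    rw [hf1 n z hz]
    change g n z - h n z = _
    rw [hh2 n _ hz, sub_zero]
  · intro n
    have h1 : f' n = (f' n - (g n - h n)) + (g n - h n) := by abel
    calc ‖f' n‖ ≤ ‖f' n - (g n - h n)‖ + ‖g n - h n‖ := by
          conv_lhs => rw [h1]
          exact norm_add_le _ _
      _ ≤ ε + (D + D) := add_le_add (hf2 n)
          ((norm_sub_le _ _).trans (add_le_add (hgD n) (hh1 n)))
      _ = 2 * D + ε := by ring
  · rw [eq_top_iff, ← hS4]
    apply Submodule.topologicalClosure_mono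
    apply sup_le le_sup_left
    rw [Submodule.span_le]
    rintro _ ⟨p, hp, rfl⟩
    have h1 : p.1 = (p.1 - y ⟨p, hp⟩) + y ⟨p, hp⟩ := by abel
    rw [SetLike.mem_coe, h1]
    apply Submodule.add_mem
    · apply Submodule.mem_sup_left
      rw [hF]
      exact Submodule.le_topologicalClosure _ (hy1 ⟨p, hp⟩)
    · apply Submodule.mem_sup_right
      exact Submodule.subset_span ⟨⟨p, hp⟩, rfl⟩

end Pool.Agent.TH318.BiExt
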