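import Mathlib
import Pool.Agent.TH318.BiExtB

set_option autoImplicit false

open Filter Topology Set

namespace Pool.Agent.TH318.BiExt

variable {𝕜 : Type*} [RCLike 𝕜] {E : Type*} [NormedAddCommGroup E] [NormedSpace 𝕜 E]

/-- Pigeonhole principle: among the terms of a bounded sequence there are two whose difference is
almost annihilated by finitely many given functionals. -/
theorem exists_close_pair {κ : Type*} [Fintype κ] (Ψ : κ → E →L[𝕜] 𝕜) (u : ℕ → E) (R : ℝ)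
    (hu : ∀ n, ‖u n‖ ≤ R) (δ : ℝ) (hδ : 0 < δ) :
    ∃ m n, m ≠ n ∧ ∀ k, ‖Ψ k (u m - u n)‖ ≤ δ := by
  have hR : 0 ≤ R := (norm_nonneg _).trans (hu 0)
  let w : ℕ → (κ → 𝕜) := fun n k => Ψ k (u n)
  have hw : ∀ n, w n ∈ Metric.closedBall (0 : κ → 𝕜) ((∑ k, ‖Ψ k‖) * R) := by
    intro n
    rw [mem_closedBall_zero_iff, pi_norm_le_iff_of_nonneg (by positivity)]
    intro k
    calc ‖w n k‖ ≤ ‖Ψ k‖ * ‖u n‖ := (Ψ k).le_opNorm _
      _ ≤ (∑ k, ‖Ψ k‖) * R := by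
        apply mul_le_mul _ (hu n) (norm_nonneg _) (by positivity)
        exact Finset.single_le_sum (f := fun k => ‖Ψ k‖) (fun _ _ => norm_nonneg _)
          (Finset.mem_univ k)
  obtain ⟨a, -, φ, hφ, hlim⟩ := tendsto_subseq_of_bounded Metric.isBounded_closedBall hw
  obtain ⟨N, hN⟩ := Metric.cauchySeq_iff.1 hlim.cauchySeq δ hδ
  refine ⟨φ N, φ (N + 1), (hφ (Nat.lt_succ_self N)).ne, fun k => ?_⟩
  have h1 := hN N le_rfl (N + 1) (Nat.le_succ N)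
  rw [dist_eq_norm] at h1
  have h2 := (norm_le_pi_norm ((w ∘ φ) N - (w ∘ φ) (N + 1)) k).trans h1.le
  have h3 : ((w ∘ φ) N - (w ∘ φ) (N + 1)) k = Ψ k (u (φ N) - u (φ (N + 1))) := by
    simp [w]
  rwa [h3] at h2

/-- Adding a finite-dimensional subspace does not destroy infinite codimension. -/
theorem not_finiteDimensional_sup (F T : Submodule 𝕜 E) (hT : T.FG)
    (h : ¬ FiniteDimensional 𝕜 (E ⧸ F)) : ¬ FiniteDimensional 𝕜 (E ⧸ (F ⊔ T)) := by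
  intro hfin
  apply h
  obtain ⟨C, hC⟩ := Submodule.exists_isCompl (F ⊔ T)
  have hCfg : C.FG := Submodule.CoFG.fg_of_isCompl hC hfin
  have h1 : (T ⊔ C).FG := hT.sup hCfg
  have h2 : Codisjoint (T ⊔ C) F := by
    rw [codisjoint_iff, sup_comm, ← sup_assoc]
    exact hC.sup_eq_top
  exact Submodule.FG.cofg_of_codisjoint h2 h1

/-- The single step in the construction of bounded biorthogonal pairs. -/
theorem exists_next_pair (F : Submodule 𝕜 E) (hF : IsClosed (F : Set E))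
    (hfin : ¬ FiniteDimensional 𝕜 (E ⧸ F)) (f : ℕ → E →L[𝕜] 𝕜) (D : ℝ) (hfD : ∀ n, ‖f n‖ ≤ D)
    (s : Finset (E × (E →L[𝕜] 𝕜)))
    (hs2 : ∀ p ∈ s, p.2 p.1 = 1) (hs3 : ∀ p ∈ s, ∀ q ∈ s, p ≠ q → p.2 q.1 = 0)
    (hs4 : ∀ p ∈ s, ‖p.1‖ ≤ 9 ∧ ‖p.2‖ ≤ 1) (N : ℕ) (δ : ℝ) (hδ : 0 < δ) :
    ∃ a : E × (E →L[𝕜] 𝕜), a ∉ s ∧ (∀ z ∈ F, a.2 z = 0) ∧ a.2 a.1 = 1 ∧
      (∀ p ∈ s, a.2 p.1 = 0 ∧ p.2 a.1 = 0) ∧ ‖a.1‖ ≤ 9 ∧ ‖a.2‖ ≤ 1 ∧
      ∀ i < N, ‖f i a.1‖ ≤ δ := by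
  classical
  have hD : 0 ≤ D := (norm_nonneg _).trans (hfD 0)
  set T : Submodule 𝕜 E := Submodule.span 𝕜 (Prod.fst '' (↑s : Set (E × (E →L[𝕜] 𝕜)))) with hT
  have hTfg : T.FG := Submodule.fg_span (s.finite_toSet.image _)
  have : FiniteDimensional 𝕜 T := FiniteDimensional.span_of_finite 𝕜 (s.finite_toSet.image _)
  set G : Submodule 𝕜 E := F ⊔ T with hG
  have hGcl : IsClosed (G : Set E) := Submodule.isClosed_sup_finiteDimensional F T hF
  have hGfin : ¬ FiniteDimensional 𝕜 (E ⧸ G) := not_finiteDimensional_sup F T hTfg hfin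
  have h2 : (1 : ℝ) < ‖(2 : 𝕜)‖ := by
    rw [RCLike.norm_ofNat]; norm_num
  have h3 : ‖(2 : 𝕜)‖ < 3 := by
    rw [RCLike.norm_ofNat]; norm_num
  obtain ⟨q, hq1, hq2⟩ := exists_seq_norm_le_one_le_norm_sub' (E := E ⧸ G) h2 h3 hGfin
  have hlift : ∀ n, ∃ w : E, (Submodule.Quotient.mk w : E ⧸ G) = q n ∧ ‖w‖ ≤ 4 := by
    intro n
    obtain ⟨w, hw1, hw2⟩ := Submodule.Quotient.norm_mk_lt (q n) one_pos
    exact ⟨w, hw1, by linarith [hq1 n]⟩
  choose u hu1 hu2 using hlift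
  set c : ℝ := (s.card : ℝ) with hc
  have hc0 : 0 ≤ c := by positivity
  set δ' : ℝ := min 1 δ / (9 * (c + 1) * (D + 1)) with hδ'
  have hδ'pos : 0 < δ' := by positivity
  obtain ⟨m, n, hmn, hclose⟩ := exists_close_pair
    (fun k : (Fin N) ⊕ s => Sum.elim (fun i : Fin N => f i) (fun p : s => (p : E × _).2) k) u 4 hu2
    δ' hδ'pos
  set w : E := u m - u n with hw
  set v : E := w - ∑ p ∈ s, p.2 w • p.1 with hv
  have hwf : ∀ i < N, ‖f i w‖ ≤ δ' := fun i hi => hclose (Sum.inl ⟨i, hi⟩)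
  have hws : ∀ p ∈ s, ‖p.2 w‖ ≤ δ' := fun p hp => hclose (Sum.inr ⟨p, hp⟩)
  have hsumT : ∑ p ∈ s, p.2 w • p.1 ∈ T := by
    apply Submodule.sum_mem
    intro p hp
    exact Submodule.smul_mem _ _ (Submodule.subset_span ⟨p, hp, rfl⟩)
  have hsumG : ∑ p ∈ s, p.2 w • p.1 ∈ G := Submodule.mem_sup_right hsumT
  have hwn : ‖w‖ ≤ 8 := by
    calc ‖w‖ ≤ ‖u m‖ + ‖u n‖ := norm_sub_le _ _
      _ ≤ 8 := by linarith [hu2 m, hu2 n]
  have hkey : c * δ' * 9 * (D + 1) + δ' ≤ min 1 δ := by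
    have h5 : δ' * (9 * (c + 1) * (D + 1)) = min 1 δ := by
      rw [hδ']
      exact div_mul_cancel₀ _ (by positivity)
    rw [← h5]
    nlinarith [mul_nonneg hδ'pos.le hD, mul_nonneg hδ'pos.le hc0]
  have hsumn : ‖∑ p ∈ s, p.2 w • p.1‖ ≤ 1 := by
    calc ‖∑ p ∈ s, p.2 w • p.1‖ ≤ ∑ p ∈ s, ‖p.2 w • p.1‖ := norm_sum_le _ _
      _ ≤ ∑ p ∈ s, δ' * 9 := by
        apply Finset.sum_le_sum
        intro p hp
        rw [norm_smul]
        exact mul_le_mul (hws p hp) (hs4 p hp).1 (norm_nonneg _) hδ'pos.le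
      _ = c * δ' * 9 := by rw [Finset.sum_const, nsmul_eq_mul]; ring
      _ ≤ 1 := by
        have := min_le_left 1 δ
        nlinarith [mul_nonneg (mul_nonneg hc0 hδ'pos.le) hD]
  have hdist : ∀ z ∈ G, 1 ≤ ‖v - z‖ := by
    intro z hz
    have h5 : (Submodule.Quotient.mk (v - z) : E ⧸ G) = q m - q n := by
      rw [Submodule.Quotient.mk_sub, (Submodule.Quotient.mk_eq_zero G).2 hz, sub_zero, hv,
        Submodule.Quotient.mk_sub, (Submodule.Quotient.mk_eq_zero G).2 hsumG, sub_zero, hw,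
        Submodule.Quotient.mk_sub, hu1, hu1]
    calc 1 ≤ ‖q m - q n‖ := hq2 hmn
      _ = ‖(Submodule.Quotient.mk (v - z) : E ⧸ G)‖ := by rw [h5]
      _ ≤ ‖v - z‖ := Submodule.Quotient.norm_mk_le G _
  have hvG : v ∉ G := by
    intro h
    have := hdist v h
    rw [sub_self, norm_zero] at this
    linarith
  obtain ⟨γ, hγ1, hγ2, hγ3⟩ := exists_functional G hGcl v hvG
  refine ⟨(v, γ), ?_, ?_, hγ2, ?_, ?_, ?_, ?_⟩
  · intro hmem
    exact hvG (Submodule.mem_sup_right (Submodule.subset_span ⟨_, hmem, rfl⟩))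
  · intro z hz
    exact hγ1 z (Submodule.mem_sup_left hz)
  · intro p hp
    refine ⟨hγ1 _ (Submodule.mem_sup_right (Submodule.subset_span ⟨p, hp, rfl⟩)), ?_⟩
    change p.2 (w - ∑ p ∈ s, p.2 w • p.1) = 0
    rw [map_sub, apply_proj s hs2 hs3 w p hp, sub_self]
  · calc ‖v‖ ≤ ‖w‖ + ‖∑ p ∈ s, p.2 w • p.1‖ := norm_sub_le _ _
      _ ≤ 9 := by linarith
  · have := hγ3 1 one_pos hdist
    simpa using this
  · intro i hi
    change ‖f i (w - ∑ p ∈ s, p.2 w • p.1)‖ ≤ δ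
    rw [map_sub]
    calc ‖f i w - f i (∑ p ∈ s, p.2 w • p.1)‖ ≤ ‖f i w‖ + ‖f i (∑ p ∈ s, p.2 w • p.1)‖ :=
          norm_sub_le _ _
      _ ≤ δ' + c * δ' * 9 * D := by
        apply add_le_add (hwf i hi)
        rw [map_sum]
        calc ‖∑ p ∈ s, f i (p.2 w • p.1)‖ ≤ ∑ p ∈ s, ‖f i (p.2 w • p.1)‖ := norm_sum_le _ _
          _ ≤ ∑ p ∈ s, δ' * 9 * D := by
            apply Finset.sum_le_sum
            intro p hp
            rw [map_smul, norm_smul]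
            have h6 : ‖f i p.1‖ ≤ 9 * D := by
              calc ‖f i p.1‖ ≤ D * ‖p.1‖ := (f i).le_of_opNorm_le (hfD i) _
                _ ≤ D * 9 := mul_le_mul_of_nonneg_left (hs4 p hp).1 hD
                _ = 9 * D := by ring
            calc ‖p.2 w‖ * ‖f i p.1‖ ≤ δ' * (9 * D) :=
                  mul_le_mul (hws p hp) h6 (norm_nonneg _) hδ'pos.le
              _ = δ' * 9 * D := by ring
          _ = c * δ' * 9 * D := by rw [Finset.sum_const, nsmul_eq_mul]; ring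
      _ ≤ δ := by
        have := min_le_right 1 δ
        nlinarith [mul_nonneg (mul_nonneg hc0 hδ'pos.le) hD, mul_nonneg hc0 hδ'pos.le]

/-- **Bounded pairs.** -/
theorem exists_bounded_pairs (F : Submodule 𝕜 E) (hF : IsClosed (F : Set E))
    (hfin : ¬ FiniteDimensional 𝕜 (E ⧸ F)) (f : ℕ → E →L[𝕜] 𝕜) (D : ℝ) (hfD : ∀ n, ‖f n‖ ≤ D)
    (hnull : ∀ z, Tendsto (fun n => f n z) atTop (𝓝 0)) :
    ∃ T : Set (E × (E →L[𝕜] 𝕜)), T.Countable ∧ T.Infinite ∧ (∀ p ∈ T, ∀ z ∈ F, p.2 z = 0) ∧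
      (∀ p ∈ T, p.2 p.1 = 1) ∧ (∀ p ∈ T, ∀ q ∈ T, p ≠ q → p.2 q.1 = 0) ∧
      (∀ p ∈ T, ‖p.1‖ ≤ 9 ∧ ‖p.2‖ ≤ 1) ∧
      ∀ n, ∀ s : Finset (E × (E →L[𝕜] 𝕜)), (↑s : Set (E × (E →L[𝕜] 𝕜))) ⊆ T →
        ∑ p ∈ s, ‖f n p.1‖ ≤ 9 * D + 2 := by
  classical
  have hD : 0 ≤ D := (norm_nonneg _).trans (hfD 0)
  let Inv : Finset (E × (E →L[𝕜] 𝕜)) → Prop := fun s => (∀ p ∈ s, ∀ z ∈ F, p.2 z = 0) ∧
      (∀ p ∈ s, p.2 p.1 = 1) ∧ (∀ p ∈ s, ∀ q ∈ s, p ≠ q → p.2 q.1 = 0) ∧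
      (∀ p ∈ s, ‖p.1‖ ≤ 9 ∧ ‖p.2‖ ≤ 1) ∧
      ∀ n, ∑ p ∈ s, ‖f n p.1‖ ≤ 9 * D + 2 - (1 / 2) ^ s.card
  have hone : ∀ s, Inv s → ∃ a, a ∉ s ∧ Inv (insert a s) := by
    intro s hs
    obtain ⟨hs1, hs2, hs3, hs4, hs5⟩ := hs
    have hlim : Tendsto (fun n => ∑ p ∈ s, ‖f n p.1‖) atTop (𝓝 0) := by
      have := tendsto_finsetSum s (fun p _ => (hnull p.1).norm)
      simpa using this
    obtain ⟨N, hN⟩ := Filter.eventually_atTop.1 (hlim.eventually (gt_mem_nhds one_pos))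
    obtain ⟨a, ha0, ha1, ha2, ha3, ha4, ha5, ha6⟩ := exists_next_pair F hF hfin f D hfD s hs2
      hs3 hs4 N ((1 / 2) ^ (s.card + 1)) (by positivity)
    refine ⟨a, ha0, ?_, ?_, ?_, ?_, ?_⟩
    · intro p hp
      rcases Finset.mem_insert.1 hp with rfl | hp
      · exact ha1
      · exact hs1 p hp
    · intro p hp
      rcases Finset.mem_insert.1 hp with rfl | hp
      · exact ha2
      · exact hs2 p hp
    · intro p hp r hr hpr
      rcases Finset.mem_insert.1 hp with hpa | hps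
      · rcases Finset.mem_insert.1 hr with hra | hrs
        · exact absurd (hpa.trans hra.symm) hpr
        · rw [hpa]; exact (ha3 r hrs).1
      · rcases Finset.mem_insert.1 hr with hra | hrs
        · rw [hra]; exact (ha3 p hps).2
        · exact hs3 p hps r hrs hpr
    · intro p hp
      rcases Finset.mem_insert.1 hp with rfl | hp
      · exact ⟨ha4, ha5⟩
      · exact hs4 p hp
    · intro n
      rw [Finset.sum_insert ha0, Finset.card_insert_of_notMem ha0]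
      have hpow : ((1 : ℝ) / 2) ^ (s.card + 1) = (1 / 2) ^ s.card / 2 := by rw [pow_succ]; ring
      have hpos : (0 : ℝ) < (1 / 2) ^ s.card := by positivity
      have hle1 : ((1 : ℝ) / 2) ^ s.card ≤ 1 := pow_le_one₀ (by norm_num) (by norm_num)
      by_cases hn : n < N
      · have h1 := ha6 n hn
        have h2 := hs5 n
        rw [hpow] at h1 ⊢
        linarith
      · have h1 := hN n (not_lt.1 hn)
        have h2 : ‖f n a.1‖ ≤ 9 * D := by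
          calc ‖f n a.1‖ ≤ D * ‖a.1‖ := (f n).le_of_opNorm_le (hfD n) _
            _ ≤ D * 9 := mul_le_mul_of_nonneg_left ha4 hD
            _ = 9 * D := by ring
        rw [hpow]
        linarith
  have hmany : ∀ n : ℕ, ∀ s, Inv s → ∃ s', s ⊆ s' ∧ Inv s' ∧ n ≤ s'.card := by
    intro n
    induction n with
    | zero => intro s hs; exact ⟨s, Finset.Subset.refl _, hs, Nat.zero_le _⟩
    | succ n ih =>
      intro s hs
      obtain ⟨s', h1, h2, h3⟩ := ih s hs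
      obtain ⟨a, ha, hInv⟩ := hone s' h2
      refine ⟨insert a s', h1.trans (Finset.subset_insert _ _), hInv, ?_⟩
      rw [Finset.card_insert_of_notMem ha]
      omega
  obtain ⟨T, hT1, hT2, hT3⟩ := finset_recursion Inv (fun n s => n ≤ s.card)
    ⟨by simp, by simp, by simp, by simp, fun n => by simp; linarith⟩ hmany
  refine ⟨T, hT1, ?_, ?_, ?_, ?_, ?_, ?_⟩
  · intro hfinT
    obtain ⟨s, hs1, -, hs3⟩ := hT3 (hfinT.toFinset.card + 1)
    have hsub : s ⊆ hfinT.toFinset := by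
      intro a ha
      rw [Set.Finite.mem_toFinset]
      exact hs1 ha
    have := Finset.card_le_card hsub
    omega
  · intro p hp
    obtain ⟨s, hs1, -, hs3⟩ := hT2 {p} (by simpa using hp)
    exact hs3.1 p (hs1 (by simp))
  · intro p hp
    obtain ⟨s, hs1, -, hs3⟩ := hT2 {p} (by simpa using hp)
    exact hs3.2.1 p (hs1 (by simp))
  · intro p hp q hq hpq
    obtain ⟨s, hs1, -, hs3⟩ := hT2 {p, q} (by
      intro a ha
      simp only [Finset.coe_insert, Finset.coe_singleton, Set.mem_insert_iff,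
        Set.mem_singleton_iff] at ha
      rcases ha with rfl | rfl <;> assumption)
    exact hs3.2.2.1 p (hs1 (by simp)) q (hs1 (by simp)) hpq
  · intro p hp
    obtain ⟨s, hs1, -, hs3⟩ := hT2 {p} (by simpa using hp)
    exact hs3.2.2.2.1 p (hs1 (by simp))
  · intro n t ht
    obtain ⟨s, hs1, -, hs3⟩ := hT2 t ht
    have h1 := hs3.2.2.2.2 n
    have h2 : (0 : ℝ) < (1 / 2) ^ s.card := by positivity
    calc ∑ p ∈ t, ‖f n p.1‖ ≤ ∑ p ∈ s, ‖f n p.1‖ :=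
          Finset.sum_le_sum_of_subset_of_nonneg hs1 (fun _ _ _ => norm_nonneg _)
      _ ≤ 9 * D + 2 := by linarith

end Pool.Agent.TH318.BiExt
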