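import Mathlib
import Pool.Agent.TH318.BiExtC

set_option autoImplicit false

open Filter Topology Set

namespace Pool.Agent.TH318.BiExt

variable {𝕜 : Type*} [RCLike 𝕜] {E : Type*} [NormedAddCommGroup E] [NormedSpace 𝕜 E]

/-- Orthogonality passes to linear spans. -/
theorem span_orth (A : Set (E →L[𝕜] 𝕜)) (B : Set E) (h : ∀ φ ∈ A, ∀ w ∈ B, φ w = 0)
    (φ : E →L[𝕜] 𝕜) (hφ : φ ∈ Submodule.span 𝕜 A) (w : E) (hw : w ∈ Submodule.span 𝕜 B) :
    φ w = 0 := by
  have h1 : ∀ φ ∈ A, ∀ w ∈ Submodule.span 𝕜 B, φ w = 0 := by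
    intro φ hφ w hw
    induction hw using Submodule.span_induction with
    | mem x hx => exact h φ hφ x hx
    | zero => exact map_zero φ
    | add x y _ _ hx hy => rw [map_add, hx, hy, add_zero]
    | smul c x _ hx => rw [map_smul, hx, smul_zero]
  induction hφ using Submodule.span_induction with
  | mem φ hφ => exact h1 φ hφ w hw
  | zero => rfl
  | add a b _ _ ha hb =>
    change a w + b w = 0
    rw [ha, hb, add_zero]
  | smul c a _ ha =>
    change c • a w = 0
    rw [ha, smul_zero]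

theorem norm_mix_add {V : Type*} [NormedAddCommGroup V] [NormedSpace 𝕜 V] (a b : 𝕜)
    (han : ‖a‖ = 3 / 5) (hbn : ‖b‖ = 4 / 5) (C r : ℝ) (hCr : C ≤ C * r) (p q : V)
    (hp : ‖p‖ ≤ 8 * C * (r * (9 / 8))) (hq : ‖q‖ ≤ C) : ‖a • p + b • q‖ ≤ 8 * C * r := by
  calc ‖a • p + b • q‖ ≤ ‖a • p‖ + ‖b • q‖ := norm_add_le _ _
    _ = 3 / 5 * ‖p‖ + 4 / 5 * ‖q‖ := by rw [norm_smul, norm_smul, han, hbn]
    _ ≤ 8 * C * r := by nlinarith [norm_nonneg q]

theorem norm_mix_sub {V : Type*} [NormedAddCommGroup V] [NormedSpace 𝕜 V] (a b : 𝕜)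
    (han : ‖a‖ = 3 / 5) (hbn : ‖b‖ = 4 / 5) (C r : ℝ) (hCr : C ≤ C * r) (p q : V)
    (hp : ‖p‖ ≤ 8 * C * (r * (9 / 8))) (hq : ‖q‖ ≤ C) : ‖b • p - a • q‖ ≤ 8 * C * r := by
  calc ‖b • p - a • q‖ ≤ ‖b • p‖ + ‖a • q‖ := norm_sub_le _ _
    _ = 4 / 5 * ‖p‖ + 3 / 5 * ‖q‖ := by rw [norm_smul, norm_smul, han, hbn]
    _ ≤ 8 * C * r := by nlinarith [norm_nonneg q]

/-- **Mixing lemma.** A (possibly large) pair can be combined with a sequence of bounded pairs, by
means of orthogonal transformations, so that all new pairs are bounded. -/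
theorem exists_mixing (C : ℝ) (hC : 0 < C) (s : ℕ) :
    ∀ (e : E) (g : E →L[𝕜] 𝕜) (v : ℕ → E) (γ : ℕ → E →L[𝕜] 𝕜),
      ‖e‖ ≤ 8 * C * (9 / 8) ^ s → ‖g‖ ≤ 8 * C * (9 / 8) ^ s →
      (∀ j, ‖v j‖ ≤ C) → (∀ j, ‖γ j‖ ≤ C) → g e = 1 → (∀ j, g (v j) = 0) → (∀ j, γ j e = 0) →
      (∀ j, γ j (v j) = 1) → (∀ i j, i ≠ j → γ i (v j) = 0) →
      ∃ T : Set (E × (E →L[𝕜] 𝕜)), T.Countable ∧ (∀ t ∈ T, ‖t.1‖ ≤ 8 * C) ∧
        (∀ t ∈ T, ‖t.2‖ ≤ 8 * C) ∧ (∀ t ∈ T, t.2 t.1 = 1) ∧
        (∀ t ∈ T, ∀ r ∈ T, t ≠ r → t.2 r.1 = 0) ∧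
        (∀ t ∈ T, t.1 ∈ Submodule.span 𝕜 (insert e (Set.range v))) ∧
        (∀ t ∈ T, t.2 ∈ Submodule.span 𝕜 (insert g (Set.range γ))) ∧
        e ∈ Submodule.span 𝕜 (Prod.fst '' T) ∧
        ∀ j, v j ∈ Submodule.span 𝕜 (Prod.fst '' T) := by
  induction s with
  | zero =>
    intro e g v γ he hg hv hγ hge hgv hγe hγv1 hγv0
    simp only [pow_zero, mul_one] at he hg
    refine ⟨insert (e, g) (Set.range fun j => (v j, γ j)), ?_, ?_, ?_, ?_, ?_, ?_, ?_, ?_, ?_⟩
    · exact (Set.countable_range _).insert _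
    · rintro t (rfl | ⟨j, rfl⟩)
      · exact he
      · exact (hv j).trans (by linarith)
    · rintro t (rfl | ⟨j, rfl⟩)
      · exact hg
      · exact (hγ j).trans (by linarith)
    · rintro t (rfl | ⟨j, rfl⟩)
      · exact hge
      · exact hγv1 j
    · rintro t (rfl | ⟨j, rfl⟩) r (rfl | ⟨k, rfl⟩) htr
      · exact absurd rfl htr
      · exact hgv k
      · exact hγe j
      · refine hγv0 j k (fun h => htr (by rw [h]))
    · rintro t (rfl | ⟨j, rfl⟩)
      · exact Submodule.subset_span (Set.mem_insert _ _)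
      · exact Submodule.subset_span (Set.mem_insert_of_mem _ ⟨j, rfl⟩)
    · rintro t (rfl | ⟨j, rfl⟩)
      · exact Submodule.subset_span (Set.mem_insert _ _)
      · exact Submodule.subset_span (Set.mem_insert_of_mem _ ⟨j, rfl⟩)
    · exact Submodule.subset_span ⟨(e, g), Set.mem_insert _ _, rfl⟩
    · intro j
      exact Submodule.subset_span ⟨(v j, γ j), Set.mem_insert_of_mem _ ⟨j, rfl⟩, rfl⟩
  | succ s ih =>
    intro e g v γ he hg hv hγ hge hgv hγe hγv1 hγv0
    set a : 𝕜 := ((3 / 5 : ℝ) : 𝕜) with ha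
    set b : 𝕜 := ((4 / 5 : ℝ) : 𝕜) with hb
    have han : ‖a‖ = 3 / 5 := by rw [ha, RCLike.norm_ofReal]; norm_num
    have hbn : ‖b‖ = 4 / 5 := by rw [hb, RCLike.norm_ofReal]; norm_num
    have hab : a * a + b * b = 1 := by
      rw [ha, hb]; norm_cast; norm_num
    have hpow1 : (1 : ℝ) ≤ (9 / 8) ^ s := one_le_pow₀ (by norm_num)
    have hpow2 : ((9 : ℝ) / 8) ^ (s + 1) = (9 / 8) ^ s * (9 / 8) := pow_succ _ _
    rw [hpow2] at he hg
    have hCp : C ≤ C * (9 / 8) ^ s := le_mul_of_one_le_right hC.le hpow1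
    obtain ⟨T₁, hT1, hT2, hT3, hT4, hT5, hT6, hT7, hT8, hT9⟩ := ih (a • e + b • v 0)
      (a • g + b • γ 0) (fun j => v (2 * j + 1)) (fun j => γ (2 * j + 1))
      (norm_mix_add a b han hbn C _ hCp e (v 0) he (hv 0))
      (norm_mix_add a b han hbn C _ hCp g (γ 0) hg (hγ 0)) (fun j => hv _) (fun j => hγ _)
      (by
        change a • g (a • e + b • v 0) + b • γ 0 (a • e + b • v 0) = 1
        simp only [map_add, map_smul, hge, hgv, hγe, hγv1, smul_eq_mul]
        linear_combination hab)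
      (by
        intro j
        change a • g (v (2 * j + 1)) + b • γ 0 (v (2 * j + 1)) = 0
        rw [hgv, hγv0 0 _ (by omega), smul_zero, smul_zero, add_zero])
      (by
        intro j
        rw [map_add, map_smul, map_smul, hγe, hγv0 _ 0 (by omega), smul_zero, smul_zero, add_zero])
      (fun j => hγv1 _) (fun i j hij => hγv0 _ _ (by omega))
    obtain ⟨T₂, hU1, hU2, hU3, hU4, hU5, hU6, hU7, hU8, hU9⟩ := ih (b • e - a • v 0)
      (b • g - a • γ 0) (fun j => v (2 * j + 2)) (fun j => γ (2 * j + 2))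
      (norm_mix_sub a b han hbn C _ hCp e (v 0) he (hv 0))
      (norm_mix_sub a b han hbn C _ hCp g (γ 0) hg (hγ 0)) (fun j => hv _) (fun j => hγ _)
      (by
        change b • g (b • e - a • v 0) - a • γ 0 (b • e - a • v 0) = 1
        simp only [map_sub, map_smul, hge, hgv, hγe, hγv1, smul_eq_mul]
        linear_combination hab)
      (by
        intro j
        change b • g (v (2 * j + 2)) - a • γ 0 (v (2 * j + 2)) = 0
        rw [hgv, hγv0 0 _ (by omega), smul_zero, smul_zero, sub_zero])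
      (by
        intro j
        rw [map_sub, map_smul, map_smul, hγe, hγv0 _ 0 (by omega), smul_zero, smul_zero, sub_zero])
      (fun j => hγv1 _) (fun i j hij => hγv0 _ _ (by omega))
    -- spans
    have hspE1 : ∀ t, t ∈ Submodule.span 𝕜 (insert (a • e + b • v 0)
        (Set.range fun j => v (2 * j + 1))) → t ∈ Submodule.span 𝕜 (insert e (Set.range v)) := by
      intro t ht
      refine (Submodule.span_le.2 ?_) ht
      rintro _ (rfl | ⟨j, rfl⟩)
      · apply Submodule.add_mem <;> apply Submodule.smul_mem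
        · exact Submodule.subset_span (Set.mem_insert _ _)
        · exact Submodule.subset_span (Set.mem_insert_of_mem _ ⟨0, rfl⟩)
      · exact Submodule.subset_span (Set.mem_insert_of_mem _ ⟨_, rfl⟩)
    have hspE2 : ∀ t, t ∈ Submodule.span 𝕜 (insert (b • e - a • v 0)
        (Set.range fun j => v (2 * j + 2))) → t ∈ Submodule.span 𝕜 (insert e (Set.range v)) := by
      intro t ht
      refine (Submodule.span_le.2 ?_) ht
      rintro _ (rfl | ⟨j, rfl⟩)
      · apply Submodule.sub_mem <;> apply Submodule.smul_mem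
        · exact Submodule.subset_span (Set.mem_insert _ _)
        · exact Submodule.subset_span (Set.mem_insert_of_mem _ ⟨0, rfl⟩)
      · exact Submodule.subset_span (Set.mem_insert_of_mem _ ⟨_, rfl⟩)
    have hspG1 : ∀ t, t ∈ Submodule.span 𝕜 (insert (a • g + b • γ 0)
        (Set.range fun j => γ (2 * j + 1))) → t ∈ Submodule.span 𝕜 (insert g (Set.range γ)) := by
      intro t ht
      refine (Submodule.span_le.2 ?_) ht
      rintro _ (rfl | ⟨j, rfl⟩)
      · apply Submodule.add_mem <;> apply Submodule.smul_mem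
        · exact Submodule.subset_span (Set.mem_insert _ _)
        · exact Submodule.subset_span (Set.mem_insert_of_mem _ ⟨0, rfl⟩)
      · exact Submodule.subset_span (Set.mem_insert_of_mem _ ⟨_, rfl⟩)
    have hspG2 : ∀ t, t ∈ Submodule.span 𝕜 (insert (b • g - a • γ 0)
        (Set.range fun j => γ (2 * j + 2))) → t ∈ Submodule.span 𝕜 (insert g (Set.range γ)) := by
      intro t ht
      refine (Submodule.span_le.2 ?_) ht
      rintro _ (rfl | ⟨j, rfl⟩)
      · apply Submodule.sub_mem <;> apply Submodule.smul_mem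
        · exact Submodule.subset_span (Set.mem_insert _ _)
        · exact Submodule.subset_span (Set.mem_insert_of_mem _ ⟨0, rfl⟩)
      · exact Submodule.subset_span (Set.mem_insert_of_mem _ ⟨_, rfl⟩)
    -- cross orthogonality
    have hc12 : ∀ t ∈ T₁, ∀ r ∈ T₂, t.2 r.1 = 0 := by
      intro t ht r hr
      refine span_orth _ _ ?_ t.2 (hT7 t ht) r.1 (hU6 r hr)
      rintro φ (rfl | ⟨i, rfl⟩) w (rfl | ⟨j, rfl⟩)
      · change a • g (b • e - a • v 0) + b • γ 0 (b • e - a • v 0) = 0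
        simp only [map_sub, map_smul, hge, hgv, hγe, hγv1, smul_eq_mul]
        ring
      · change a • g (v (2 * j + 2)) + b • γ 0 (v (2 * j + 2)) = 0
        rw [hgv, hγv0 0 _ (by omega), smul_zero, smul_zero, add_zero]
      · change γ (2 * i + 1) (b • e - a • v 0) = 0
        rw [map_sub, map_smul, map_smul, hγe, hγv0 _ 0 (by omega), smul_zero, smul_zero, sub_zero]
      · exact hγv0 _ _ (by omega)
    have hc21 : ∀ t ∈ T₂, ∀ r ∈ T₁, t.2 r.1 = 0 := by
      intro t ht r hr
      refine span_orth _ _ ?_ t.2 (hU7 t ht) r.1 (hT6 r hr)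
      rintro φ (rfl | ⟨i, rfl⟩) w (rfl | ⟨j, rfl⟩)
      · change b • g (a • e + b • v 0) - a • γ 0 (a • e + b • v 0) = 0
        simp only [map_add, map_smul, hge, hgv, hγe, hγv1, smul_eq_mul]
        ring
      · change b • g (v (2 * j + 1)) - a • γ 0 (v (2 * j + 1)) = 0
        rw [hgv, hγv0 0 _ (by omega), smul_zero, smul_zero, sub_zero]
      · change γ (2 * i + 2) (a • e + b • v 0) = 0
        rw [map_add, map_smul, map_smul, hγe, hγv0 _ 0 (by omega), smul_zero, smul_zero, add_zero]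
      · exact hγv0 _ _ (by omega)
    have hle1 : Submodule.span 𝕜 (Prod.fst '' T₁) ≤ Submodule.span 𝕜 (Prod.fst '' (T₁ ∪ T₂)) :=
      Submodule.span_mono (Set.image_mono Set.subset_union_left)
    have hle2 : Submodule.span 𝕜 (Prod.fst '' T₂) ≤ Submodule.span 𝕜 (Prod.fst '' (T₁ ∪ T₂)) :=
      Submodule.span_mono (Set.image_mono Set.subset_union_right)
    refine ⟨T₁ ∪ T₂, hT1.union hU1, ?_, ?_, ?_, ?_, ?_, ?_, ?_, ?_⟩
    · rintro t (ht | ht)
      · exact hT2 t ht
      · exact hU2 t ht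
    · rintro t (ht | ht)
      · exact hT3 t ht
      · exact hU3 t ht
    · rintro t (ht | ht)
      · exact hT4 t ht
      · exact hU4 t ht
    · rintro t (ht | ht) r (hr | hr) htr
      · exact hT5 t ht r hr htr
      · exact hc12 t ht r hr
      · exact hc21 t ht r hr
      · exact hU5 t ht r hr htr
    · rintro t (ht | ht)
      · exact hspE1 _ (hT6 t ht)
      · exact hspE2 _ (hU6 t ht)
    · rintro t (ht | ht)
      · exact hspG1 _ (hT7 t ht)
      · exact hspG2 _ (hU7 t ht)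
    · have h1 : e = a • (a • e + b • v 0) + b • (b • e - a • v 0) := by
        have : e = (a * a + b * b) • e := by rw [hab, one_smul]
        rw [smul_add, smul_sub, smul_smul, smul_smul, smul_smul, smul_smul]
        conv_lhs => rw [this, add_smul]
        rw [mul_comm b a]
        abel
      rw [h1]
      exact Submodule.add_mem _ (Submodule.smul_mem _ _ (hle1 hT8))
        (Submodule.smul_mem _ _ (hle2 hU8))
    · intro j
      rcases Nat.eq_zero_or_pos j with rfl | hj
      · have h1 : v 0 = b • (a • e + b • v 0) - a • (b • e - a • v 0) := by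
          have : v 0 = (a * a + b * b) • v 0 := by rw [hab, one_smul]
          rw [smul_add, smul_sub, smul_smul, smul_smul, smul_smul, smul_smul]
          conv_lhs => rw [this, add_smul]
          rw [mul_comm b a]
          abel
        rw [h1]
        exact Submodule.sub_mem _ (Submodule.smul_mem _ _ (hle1 hT8))
          (Submodule.smul_mem _ _ (hle2 hU8))
      · rcases Nat.even_or_odd' j with ⟨k, rfl | rfl⟩
        · have hk : 2 * k = 2 * (k - 1) + 2 := by omega
          rw [hk]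
          exact hle2 (hU9 (k - 1))
        · exact hle1 (hT9 k)

end Pool.Agent.TH318.BiExt
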