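import Mathlib
import Pool.Agent.TH318.BiExtD

set_option autoImplicit false

open Filter Topology Set

namespace Pool.Agent.TH318.BiExt

variable {𝕜 : Type*} [RCLike 𝕜] {E : Type*} [NormedAddCommGroup E] [NormedSpace 𝕜 E]

/-- In finite codimension the complementary system is finite. -/
theorem finite_of_quotient (F : Submodule 𝕜 E) [FiniteDimensional 𝕜 (E ⧸ F)]
    (S : Set (E × (E →L[𝕜] 𝕜))) (y : S → E) (h1 : ∀ p ∈ S, ∀ z ∈ F, p.2 z = 0)
    (h2 : ∀ p q : S, (p = q → (p : E × (E →L[𝕜] 𝕜)).2 (y q) = 1) ∧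
        (p ≠ q → (p : E × (E →L[𝕜] 𝕜)).2 (y q) = 0)) : Finite S := by
  classical
  have hli : LinearIndependent 𝕜 (fun p : S => F.mkQ (y p)) := by
    rw [linearIndependent_iff']
    intro s c hc p hp
    have h3 : F.mkQ (∑ i ∈ s, c i • y i) = 0 := by
      rw [map_sum]
      simpa only [map_smul] using hc
    have h4 : ∑ i ∈ s, c i • y i ∈ F := (Submodule.Quotient.mk_eq_zero F).1 h3
    have h5 := h1 _ p.2 _ h4
    rw [map_sum, Finset.sum_eq_single p] at h5
    · rw [map_smul, (h2 p p).1 rfl, smul_eq_mul, mul_one] at h5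
      exact h5
    · intro q hq hqp
      rw [map_smul, (h2 p q).2 (Ne.symm hqp), smul_zero]
    · intro h; exact absurd hp h
  exact hli.finite_of_isNoetherian

/-- The conclusion of the main theorem: `x` has bounded biorthogonal functionals `α` and there is a
countable bounded biorthogonal set `T` of pairs completing the system. -/
def Completed (x : ℕ → E) : Prop :=
  ∃ (α : ℕ → E →L[𝕜] 𝕜) (T : Set (E × (E →L[𝕜] 𝕜))) (K : ℝ),
    T.Countable ∧ (∀ i j, α i (x j) = if i = j then 1 else 0) ∧ (∀ i, ∀ t ∈ T, α i t.1 = 0) ∧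
    (∀ t ∈ T, ∀ j, t.2 (x j) = 0) ∧ (∀ t ∈ T, t.2 t.1 = 1) ∧
    (∀ t ∈ T, ∀ r ∈ T, t ≠ r → t.2 r.1 = 0) ∧ (∀ i, ‖α i‖ ≤ K) ∧
    (∀ t ∈ T, ‖t.1‖ ≤ K ∧ ‖t.2‖ ≤ K) ∧
    (Submodule.span 𝕜 (Set.range x ∪ Prod.fst '' T)).topologicalClosure = ⊤

/-- Assembling: a bounded system with infinitely many spare bounded pairs and a countable system of
unbounded pairs. -/
theorem completed_of_spare (x v : ℕ → E) (α β : ℕ → E →L[𝕜] 𝕜) (C : ℝ) (hC : 0 < C)
    (hα : ∀ i, ‖α i‖ ≤ C) (hv : ∀ i, ‖v i‖ ≤ C) (hβ : ∀ i, ‖β i‖ ≤ C)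
    (hαx : ∀ i j, α i (x j) = if i = j then 1 else 0) (hαv : ∀ i j, α i (v j) = 0)
    (hβx : ∀ i j, β i (x j) = 0) (hβv1 : ∀ i, β i (v i) = 1)
    (hβv0 : ∀ i j, i ≠ j → β i (v j) = 0)
    (S : Set (E × (E →L[𝕜] 𝕜))) (hS : S.Countable) (y : S → E) (hαy : ∀ i p, α i (y p) = 0)
    (hβy : ∀ i p, β i (y p) = 0) (hSx : ∀ p ∈ S, ∀ j, p.2 (x j) = 0)
    (hSv : ∀ p ∈ S, ∀ j, p.2 (v j) = 0)
    (hSy : ∀ p q : S, (p = q → (p : E × (E →L[𝕜] 𝕜)).2 (y q) = 1) ∧
        (p ≠ q → (p : E × (E →L[𝕜] 𝕜)).2 (y q) = 0))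
    (hdense : (Submodule.span 𝕜 (Set.range x ∪ Set.range v ∪ Set.range y)).topologicalClosure = ⊤) :
    Completed (𝕜 := 𝕜) x := by
  classical
  rcases isEmpty_or_nonempty S with hemp | hne
  · refine ⟨α, Set.range fun k => (v k, β k), C, Set.countable_range _, hαx, ?_, ?_, ?_, ?_, hα,
      ?_, ?_⟩
    · rintro i _ ⟨k, rfl⟩; exact hαv i k
    · rintro _ ⟨k, rfl⟩ j; exact hβx k j
    · rintro _ ⟨k, rfl⟩; exact hβv1 k
    · rintro _ ⟨k, rfl⟩ _ ⟨l, rfl⟩ hkl
      exact hβv0 k l (fun h => hkl (by rw [h]))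
    · rintro _ ⟨k, rfl⟩; exact ⟨hv k, hβ k⟩
    · rw [eq_top_iff, ← hdense]
      apply Submodule.topologicalClosure_mono
      apply Submodule.span_mono
      rintro z ((hz | ⟨k, rfl⟩) | ⟨p, rfl⟩)
      · exact Or.inl hz
      · exact Or.inr ⟨_, ⟨k, rfl⟩, rfl⟩
      · exact (hemp.false p).elim
  · have : Countable S := hS.to_subtype
    obtain ⟨ρ⟩ : Nonempty (S × ℕ ≃ ℕ) := nonempty_equiv_of_countable
    have hρ : ∀ (p q : S) (i j : ℕ), (p, i) ≠ (q, j) → ρ (p, i) ≠ ρ (q, j) := by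
      intro p q i j h h'
      exact h (ρ.injective h')
    have hmix : ∀ p : S, ∃ T : Set (E × (E →L[𝕜] 𝕜)), T.Countable ∧ (∀ t ∈ T, ‖t.1‖ ≤ 8 * C) ∧
        (∀ t ∈ T, ‖t.2‖ ≤ 8 * C) ∧ (∀ t ∈ T, t.2 t.1 = 1) ∧
        (∀ t ∈ T, ∀ r ∈ T, t ≠ r → t.2 r.1 = 0) ∧
        (∀ t ∈ T, t.1 ∈ Submodule.span 𝕜 (insert (y p) (Set.range fun j => v (ρ (p, j))))) ∧
        (∀ t ∈ T, t.2 ∈ Submodule.span 𝕜
          (insert (p : E × (E →L[𝕜] 𝕜)).2 (Set.range fun j => β (ρ (p, j))))) ∧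
        y p ∈ Submodule.span 𝕜 (Prod.fst '' T) ∧
        ∀ j, v (ρ (p, j)) ∈ Submodule.span 𝕜 (Prod.fst '' T) := by
      intro p
      obtain ⟨s, hs⟩ := pow_unbounded_of_one_lt
        ((‖y p‖ + ‖(p : E × (E →L[𝕜] 𝕜)).2‖) / (8 * C)) (show (1 : ℝ) < 9 / 8 by norm_num)
      rw [div_lt_iff₀ (by positivity)] at hs
      have h1 := norm_nonneg (y p)
      have h2 := norm_nonneg (p : E × (E →L[𝕜] 𝕜)).2
      exact exists_mixing C hC s (y p) (p : E × (E →L[𝕜] 𝕜)).2 (fun j => v (ρ (p, j)))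
        (fun j => β (ρ (p, j))) (by linarith) (by linarith) (fun j => hv _) (fun j => hβ _)
        ((hSy p p).1 rfl) (fun j => hSv _ p.2 _) (fun j => hβy _ _) (fun j => hβv1 _)
        (fun i j hij => hβv0 _ _ (hρ _ _ _ _ (by simpa using hij)))
    choose T hT1 hT2 hT3 hT4 hT5 hT6 hT7 hT8 hT9 using hmix
    refine ⟨α, ⋃ p, T p, 8 * C, Set.countable_iUnion hT1, hαx, ?_, ?_, ?_, ?_, ?_, ?_, ?_⟩
    · intro i t ht
      obtain ⟨p, hp⟩ := Set.mem_iUnion.1 ht
      refine span_orth {α i} _ ?_ (α i) (Submodule.subset_span rfl) t.1 (hT6 p t hp)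
      rintro φ rfl w (rfl | ⟨j, rfl⟩)
      · exact hαy i p
      · exact hαv i _
    · intro t ht j
      obtain ⟨p, hp⟩ := Set.mem_iUnion.1 ht
      refine span_orth _ {x j} ?_ t.2 (hT7 p t hp) (x j) (Submodule.subset_span rfl)
      rintro φ (rfl | ⟨i, rfl⟩) w rfl
      · exact hSx _ p.2 j
      · exact hβx _ j
    · intro t ht
      obtain ⟨p, hp⟩ := Set.mem_iUnion.1 ht
      exact hT4 p t hp
    · intro t ht r hr htr
      obtain ⟨p, hp⟩ := Set.mem_iUnion.1 ht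
      obtain ⟨q, hq⟩ := Set.mem_iUnion.1 hr
      by_cases hpq : p = q
      · subst hpq
        exact hT5 p t hp r hq htr
      · refine span_orth _ _ ?_ t.2 (hT7 p t hp) r.1 (hT6 q r hq)
        rintro φ (rfl | ⟨i, rfl⟩) w (rfl | ⟨j, rfl⟩)
        · exact (hSy p q).2 hpq
        · exact hSv _ p.2 _
        · exact hβy _ _
        · exact hβv0 _ _ (hρ _ _ _ _ (by simp [hpq]))
    · intro i
      exact (hα i).trans (by linarith)
    · intro t ht
      obtain ⟨p, hp⟩ := Set.mem_iUnion.1 ht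
      exact ⟨hT2 p t hp, hT3 p t hp⟩
    · rw [eq_top_iff, ← hdense]
      apply Submodule.topologicalClosure_mono
      rw [Submodule.span_le]
      have hle : ∀ p, Submodule.span 𝕜 (Prod.fst '' T p) ≤
          Submodule.span 𝕜 (Set.range x ∪ Prod.fst '' ⋃ p, T p) := fun p =>
        Submodule.span_mono (subset_trans (Set.image_mono (Set.subset_iUnion T p))
          Set.subset_union_right)
      rintro z ((hz | ⟨k, rfl⟩) | ⟨p, rfl⟩)
      · exact Submodule.subset_span (Or.inl hz)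
      · have h1 := hT9 (ρ.symm k).1 (ρ.symm k).2
        have h2 : ρ ((ρ.symm k).1, (ρ.symm k).2) = k := by simp
        rw [h2] at h1
        exact hle _ h1
      · exact hle _ (hT8 p)

/-- **Main theorem.** -/
theorem completed [TopologicalSpace.SeparableSpace E] (x : ℕ → E) (D : ℝ)
    (f : ℕ → E →L[𝕜] 𝕜) (hf : ∀ n, ‖f n‖ ≤ D)
    (hfx : ∀ i j, f i (x j) = if i = j then 1 else 0) : Completed (𝕜 := 𝕜) x := by
  classical
  have hD : 0 ≤ D := (norm_nonneg _).trans (hf 0)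
  obtain ⟨F, hF⟩ : ∃ F : Submodule 𝕜 E, F = (Submodule.span 𝕜 (Set.range x)).topologicalClosure :=
    ⟨_, rfl⟩
  have hFcl : IsClosed (F : Set E) := by
    rw [hF]; exact Submodule.isClosed_topologicalClosure _
  have hxF : ∀ n, x n ∈ F := fun n => by
    rw [hF]
    exact Submodule.le_topologicalClosure _ (Submodule.subset_span ⟨n, rfl⟩)
  by_cases hfin : FiniteDimensional 𝕜 (E ⧸ F)
  · obtain ⟨f', S, y, -, hf1, hf2, hf3, hf4, hf5, hf6⟩ := exists_dense_modification x f D hf hfx F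
      hF 1 one_pos
    have hSfin : Finite S := finite_of_quotient F S y hf4 hf5
    have : Fintype S := Fintype.ofFinite S
    refine ⟨f', Set.range fun p : S => (y p, (p : E × (E →L[𝕜] 𝕜)).2),
      (2 * D + 1) + (∑ p : S, ‖y p‖) + ∑ p : S, ‖(p : E × (E →L[𝕜] 𝕜)).2‖,
      (Set.finite_range _).countable, ?_, ?_, ?_, ?_, ?_, ?_, ?_, ?_⟩
    · intro i j
      rw [hf1 i _ (hxF j), hfx]
    · rintro i _ ⟨p, rfl⟩
      exact hf3 i p
    · rintro _ ⟨p, rfl⟩ j
      exact hf4 _ p.2 _ (hxF j)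
    · rintro _ ⟨p, rfl⟩
      exact (hf5 p p).1 rfl
    · rintro _ ⟨p, rfl⟩ _ ⟨q, rfl⟩ hpq
      exact (hf5 p q).2 (fun h => hpq (by rw [h]))
    · intro i
      have h1 : 0 ≤ ∑ p : S, ‖y p‖ := Finset.sum_nonneg fun _ _ => norm_nonneg _
      have h2 : 0 ≤ ∑ p : S, ‖(p : E × (E →L[𝕜] 𝕜)).2‖ := Finset.sum_nonneg fun _ _ => norm_nonneg _
      linarith [hf2 i]
    · rintro _ ⟨p, rfl⟩
      have h1 : 0 ≤ ∑ p : S, ‖y p‖ := Finset.sum_nonneg fun _ _ => norm_nonneg _
      have h2 : 0 ≤ ∑ p : S, ‖(p : E × (E →L[𝕜] 𝕜)).2‖ := Finset.sum_nonneg fun _ _ => norm_nonneg _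
      have h3 : ‖y p‖ ≤ ∑ p : S, ‖y p‖ :=
        Finset.single_le_sum (f := fun p => ‖y p‖) (fun _ _ => norm_nonneg _) (Finset.mem_univ p)
      have h4 : ‖(p : E × (E →L[𝕜] 𝕜)).2‖ ≤ ∑ p : S, ‖(p : E × (E →L[𝕜] 𝕜)).2‖ :=
        Finset.single_le_sum (f := fun p : S => ‖(p : E × (E →L[𝕜] 𝕜)).2‖)
          (fun _ _ => norm_nonneg _) (Finset.mem_univ p)
      exact ⟨by change ‖y p‖ ≤ _; linarith,
        by change ‖(p : E × (E →L[𝕜] 𝕜)).2‖ ≤ _; linarith⟩
    · rw [eq_top_iff, ← hf6]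
      apply Submodule.topologicalClosure_minimal _ _ (Submodule.isClosed_topologicalClosure _)
      apply sup_le
      · rw [hF]
        exact Submodule.topologicalClosure_mono (Submodule.span_mono Set.subset_union_left)
      · refine le_trans ?_ (Submodule.le_topologicalClosure _)
        rw [Submodule.span_le]
        rintro _ ⟨p, rfl⟩
        exact Submodule.subset_span (Or.inr ⟨_, ⟨p, rfl⟩, rfl⟩)
  · have hfnull : ∀ z ∈ F, Tendsto (fun n => f n z) atTop (𝓝 0) := by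
      intro z hz
      refine null_closure f D hf (Submodule.span 𝕜 (Set.range x) : Set E) ?_ z ?_
      · apply null_span
        rintro _ ⟨j, rfl⟩
        refine tendsto_const_nhds.congr' ?_
        filter_upwards [Filter.eventually_gt_atTop j] with n hn
        rw [hfx, if_neg (by omega)]
      · rw [hF, ← SetLike.mem_coe, Submodule.topologicalClosure_coe] at hz
        exact hz
    obtain ⟨h, hh1, hh2, hh3⟩ := exists_null_correction F f D hf hfnull
    obtain ⟨f1, hf1⟩ : ∃ f1 : ℕ → E →L[𝕜] 𝕜, f1 = fun n => f n - h n := ⟨_, rfl⟩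
    have hf1x : ∀ i j, f1 i (x j) = if i = j then 1 else 0 := by
      intro i j
      rw [hf1]
      change f i (x j) - h i (x j) = _
      rw [hh2 i _ (hxF j), sub_zero, hfx]
    have hf1D : ∀ n, ‖f1 n‖ ≤ D + D := by
      intro n
      rw [hf1]
      exact (norm_sub_le _ _).trans (add_le_add (hf n) (hh1 n))
    have hf1null : ∀ z, Tendsto (fun n => f1 n z) atTop (𝓝 0) := by
      intro z
      rw [hf1]
      exact hh3 z
    obtain ⟨T, hT1, hT2, hT3, hT4, hT5, hT6, hT7⟩ := exists_bounded_pairs F hFcl hfin f1 (D + D)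
      hf1D hf1null
    have : Countable T := hT1.to_subtype
    have : Infinite T := hT2.to_subtype
    obtain ⟨e⟩ : Nonempty (ℕ ≃ T) := nonempty_equiv_of_countable
    obtain ⟨v, hv⟩ : ∃ v : ℕ → E, v = fun k => (e k : E × (E →L[𝕜] 𝕜)).1 := ⟨_, rfl⟩
    obtain ⟨γ, hγ⟩ : ∃ γ : ℕ → E →L[𝕜] 𝕜, γ = fun k => (e k : E × (E →L[𝕜] 𝕜)).2 := ⟨_, rfl⟩
    have hvn : ∀ k, ‖v k‖ ≤ 9 := fun k => by rw [hv]; exact (hT6 _ (e k).2).1
    have hγn : ∀ k, ‖γ k‖ ≤ 1 := fun k => by rw [hγ]; exact (hT6 _ (e k).2).2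
    have hγx : ∀ k j, γ k (x j) = 0 := fun k j => by rw [hγ]; exact hT3 _ (e k).2 _ (hxF j)
    have hγv : ∀ i j, γ i (v j) = if i = j then 1 else 0 := by
      intro i j
      rw [hγ, hv]
      split_ifs with hij
      · subst hij; exact hT4 _ (e i).2
      · exact hT5 _ (e i).2 _ (e j).2 (fun h' => hij (e.injective (Subtype.ext h')))
    have hsum1 : ∀ n, ∀ u : Finset ℕ, ∑ k ∈ u, ‖f1 n (v k)‖ ≤ 9 * (D + D) + 2 := by
      intro n u
      have hinj : Function.Injective (fun k => (e k : E × (E →L[𝕜] 𝕜))) :=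
        fun a b hab => e.injective (Subtype.ext hab)
      have h1 := hT7 n (u.map ⟨_, hinj⟩) (by
        intro a ha
        rw [Finset.mem_coe, Finset.mem_map] at ha
        obtain ⟨k, -, rfl⟩ := ha
        exact (e k).2)
      rw [Finset.sum_map] at h1
      rw [hv]
      exact h1
    have hsum2 : ∀ n, Summable fun k => ‖f1 n (v k)‖ := fun n =>
      summable_of_sum_le (fun _ => norm_nonneg _) (hsum1 n)
    have hsum3 : ∀ n, ∑' k, ‖f1 n (v k)‖ ≤ 9 * (D + D) + 2 := fun n =>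
      (hsum2 n).tsum_le_of_sum_le (hsum1 n)
    obtain ⟨W, hW⟩ : ∃ W : ℕ → ℕ → (E →L[𝕜] 𝕜), W = fun n k => f1 n (v k) • γ k := ⟨_, rfl⟩
    have hWn : ∀ n k, ‖W n k‖ ≤ ‖f1 n (v k)‖ := by
      intro n k
      rw [hW]
      change ‖f1 n (v k) • γ k‖ ≤ _
      rw [norm_smul]
      exact mul_le_of_le_one_right (norm_nonneg _) (hγn k)
    have hWs : ∀ n, Summable (W n) := fun n => Summable.of_norm_bounded (hsum2 n) (hWn n)
    have hWt : ∀ n, ‖∑' k, W n k‖ ≤ 9 * (D + D) + 2 := fun n =>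
      (tsum_of_norm_bounded (hsum2 n).hasSum (hWn n)).trans (hsum3 n)
    have hWapp : ∀ n z, HasSum (fun k => W n k z) ((∑' k, W n k) z) := by
      intro i z
      have h : HasSum (fun p => (ContinuousLinearMap.apply 𝕜 𝕜 z : (E →L[𝕜] 𝕜) →L[𝕜] 𝕜) (W i p))
          ((ContinuousLinearMap.apply 𝕜 𝕜 z : (E →L[𝕜] 𝕜) →L[𝕜] 𝕜) (∑' p, W i p)) :=
        ContinuousLinearMap.hasSum _ (hWs i).hasSum
      simpa only [ContinuousLinearMap.apply_apply] using h
    obtain ⟨f2, hf2⟩ : ∃ f2 : ℕ → E →L[𝕜] 𝕜, f2 = fun n => f1 n - ∑' k, W n k := ⟨_, rfl⟩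
    have hf2x : ∀ i j, f2 i (x j) = if i = j then 1 else 0 := by
      intro i j
      have h1 : (∑' k, W i k) (x j) = 0 := by
        refine (hWapp i (x j)).unique ?_
        have : (fun k => W i k (x j)) = fun _ => 0 := by
          funext k
          rw [hW]
          change f1 i (v k) • γ k (x j) = 0
          rw [hγx, smul_zero]
        rw [this]; exact hasSum_zero
      rw [hf2]
      change f1 i (x j) - (∑' k, W i k) (x j) = _
      rw [h1, sub_zero, hf1x]
    have hf2v : ∀ i j, f2 i (v j) = 0 := by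
      intro i j
      have h1 : (∑' k, W i k) (v j) = f1 i (v j) := by
        refine (hWapp i (v j)).unique ?_
        have h2 : (f1 i (v j) : 𝕜) = W i j (v j) := by
          rw [hW]
          change _ = f1 i (v j) • γ j (v j)
          rw [hγv, if_pos rfl, smul_eq_mul, mul_one]
        rw [h2]
        apply hasSum_single j
        intro k hk
        rw [hW]
        change f1 i (v k) • γ k (v j) = 0
        rw [hγv, if_neg hk, smul_zero]
      rw [hf2]
      change f1 i (v j) - (∑' k, W i k) (v j) = 0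
      rw [h1, sub_self]
    have hf2D : ∀ n, ‖f2 n‖ ≤ 20 * D + 3 := by
      intro n
      rw [hf2]
      refine (norm_sub_le _ _).trans ?_
      linarith [hf1D n, hWt n]
    -- the combined system
    let σ : ℕ ⊕ ℕ ≃ ℕ := Equiv.natSumNatEquivNat
    obtain ⟨X, hX⟩ : ∃ X : ℕ → E, X = fun n => Sum.elim x v (σ.symm n) := ⟨_, rfl⟩
    obtain ⟨Φ, hΦ⟩ : ∃ Φ : ℕ → E →L[𝕜] 𝕜, Φ = fun n => Sum.elim f2 γ (σ.symm n) := ⟨_, rfl⟩
    have hXl : ∀ i, X (σ (Sum.inl i)) = x i := fun i => by rw [hX]; simp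
    have hXr : ∀ i, X (σ (Sum.inr i)) = v i := fun i => by rw [hX]; simp
    have hel : ∀ a b : ℕ ⊕ ℕ, (Sum.elim f2 γ a) (Sum.elim x v b) = if a = b then 1 else 0 := by
      rintro (a | a) (b | b)
      · simp only [Sum.elim_inl, Sum.inl.injEq]; exact hf2x a b
      · simp only [Sum.elim_inl, Sum.elim_inr, reduceCtorEq, if_false]; exact hf2v a b
      · simp only [Sum.elim_inl, Sum.elim_inr, reduceCtorEq, if_false]; exact hγx a b
      · simp only [Sum.elim_inr, Sum.inr.injEq]; exact hγv a b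
    have hΦX : ∀ i j, Φ i (X j) = if i = j then 1 else 0 := by
      intro i j
      rw [hΦ, hX]
      change (Sum.elim f2 γ (σ.symm i)) (Sum.elim x v (σ.symm j)) = _
      rw [hel]
      simp only [EmbeddingLike.apply_eq_iff_eq]
    have hΦn : ∀ n, ‖Φ n‖ ≤ 20 * D + 3 := by
      intro n
      rw [hΦ]
      change ‖Sum.elim f2 γ (σ.symm n)‖ ≤ _
      rcases σ.symm n with a | a
      · exact hf2D a
      · exact (hγn a).trans (by linarith)
    obtain ⟨f', S, y, hS0, hg1, hg2, hg3, hg4, hg5, hg6⟩ := exists_dense_modification X Φ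
      (20 * D + 3) hΦn hΦX _ rfl 1 one_pos
    have hXF : ∀ n, X n ∈ (Submodule.span 𝕜 (Set.range X)).topologicalClosure := fun n =>
      Submodule.le_topologicalClosure _ (Submodule.subset_span ⟨n, rfl⟩)
    have hg1X : ∀ i j, f' i (X j) = if i = j then 1 else 0 := by
      intro i j
      rw [hg1 i _ (hXF j), hΦX]
    refine completed_of_spare x v (fun i => f' (σ (Sum.inl i))) (fun k => f' (σ (Sum.inr k)))
      (40 * D + 16) (by linarith) (fun i => (hg2 _).trans (by linarith))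
      (fun i => (hvn i).trans (by linarith)) (fun i => (hg2 _).trans (by linarith))
      ?_ ?_ ?_ ?_ ?_ S hS0 y (fun i p => hg3 _ p) (fun i p => hg3 _ p) ?_ ?_ hg5 ?_
    · intro i j
      rw [← hXl j, hg1X]
      simp only [EmbeddingLike.apply_eq_iff_eq, Sum.inl.injEq]
    · intro i j
      rw [← hXr j, hg1X]
      simp only [EmbeddingLike.apply_eq_iff_eq, reduceCtorEq, if_false]
    · intro i j
      rw [← hXl j, hg1X]
      simp only [EmbeddingLike.apply_eq_iff_eq, reduceCtorEq, if_false]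
    · intro i
      rw [← hXr i, hg1X, if_pos rfl]
    · intro i j hij
      rw [← hXr j, hg1X]
      simp only [EmbeddingLike.apply_eq_iff_eq, Sum.inr.injEq, if_neg hij]
    · intro p hp j
      rw [← hXl j]
      exact hg4 p hp _ (hXF _)
    · intro p hp j
      rw [← hXr j]
      exact hg4 p hp _ (hXF _)
    · rw [eq_top_iff, ← hg6]
      apply Submodule.topologicalClosure_minimal _ _ (Submodule.isClosed_topologicalClosure _)
      apply sup_le
      · apply Submodule.topologicalClosure_mono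
        rw [Submodule.span_le]
        rintro _ ⟨n, rfl⟩
        apply Submodule.subset_span
        rw [hX]
        change Sum.elim x v (σ.symm n) ∈ _
        rcases σ.symm n with a | a
        · exact Or.inl (Or.inl ⟨a, rfl⟩)
        · exact Or.inl (Or.inr ⟨a, rfl⟩)
      · refine le_trans ?_ (Submodule.le_topologicalClosure _)
        apply Submodule.span_mono
        exact Set.subset_union_right

end Pool.Agent.TH318.BiExt
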