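import Mathlib

/-!
# Bounded extensions with dense sum: the obstruction by uncomplemented subspaces
-/

set_option autoImplicit false
open scoped ENNReal Topology
open Filter

namespace Pool.Agent.TH318.DenseSum

section General

variable {𝕜 : Type} [RCLike 𝕜] {E : Type} [NormedAddCommGroup E] [NormedSpace 𝕜 E]

/-- the sum of `G` and the common kernel of the functionals `f n` -/
def sumKer (G : Submodule 𝕜 E) (f : ℕ → (E →L[𝕜] 𝕜)) : Set E :=
  {x | ∃ g ∈ G, ∃ y : E, (∀ n, f n y = 0) ∧ x = g + y}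

/-- a norming sequence of functionals on a separable space -/
theorem exists_norming (F : Type) [NormedAddCommGroup F] [NormedSpace 𝕜 F]
    [TopologicalSpace.SeparableSpace F] :
    ∃ φ : ℕ → (F →L[𝕜] 𝕜), (∀ n, ‖φ n‖ ≤ 1) ∧
      ∀ (g : F) (D : ℝ), (∀ n, ‖φ n g‖ ≤ D) → ‖g‖ ≤ D := by
  have h := fun n : ℕ => exists_dual_vector'' 𝕜 (TopologicalSpace.denseSeq F n)
  choose φ h1 h2 using h
  refine ⟨φ, h1, fun g D hD => ?_⟩
  refine le_of_forall_pos_le_add fun ε hε => ?_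
  obtain ⟨n, hn⟩ := (TopologicalSpace.denseRange_denseSeq F).exists_dist_lt g
    (show (0 : ℝ) < ε / 2 by positivity)
  rw [dist_eq_norm] at hn
  set u := TopologicalSpace.denseSeq F n with hu
  have h3 : ‖u‖ = ‖φ n u‖ := by
    rw [hu, h2 n]
    simp
  have h4 : ‖φ n u‖ ≤ ‖φ n g‖ + ‖g - u‖ := by
    have : φ n u = φ n g - φ n (g - u) := by rw [map_sub]; ring
    rw [this]
    refine (norm_sub_le _ _).trans ?_
    have h5 := (φ n).le_of_opNorm_le (h1 n) (g - u)
    linarith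
  have h6 : ‖g‖ ≤ ‖u‖ + ‖g - u‖ := by
    have : g = u + (g - u) := by abel
    calc ‖g‖ = ‖u + (g - u)‖ := by rw [← this]
      _ ≤ _ := norm_add_le _ _
  have h7 := hD n
  linarith

/-- if the restrictions of the `f n` to `G` are norming and `G + [f_n]_⊥` is dense, then `G` is
complemented -/
theorem closedComplemented_of_dense [CompleteSpace E] {G : Submodule 𝕜 E}
    (hG : IsClosed (G : Set E)) {f : ℕ → (E →L[𝕜] 𝕜)} {C : ℝ}
    (hf : ∀ n, ‖f n‖ ≤ C) (hn : ∀ g ∈ G, ∀ D : ℝ, (∀ n, ‖f n g‖ ≤ D) → ‖g‖ ≤ D)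
    (hd : Dense (sumKer G f)) : G.ClosedComplemented := by
  let Y : Submodule 𝕜 E := ⨅ n, LinearMap.ker (f n).toLinearMap
  have hY : ∀ y, y ∈ Y ↔ ∀ n, f n y = 0 := by
    intro y
    simp [Y, Submodule.mem_iInf]
  have hYc : IsClosed (Y : Set E) := by
    have : (Y : Set E) = ⋂ n, {y | f n y = 0} := by
      ext y
      simp only [SetLike.mem_coe, hY, Set.mem_iInter, Set.mem_ofPred_eq]
    rw [this]
    exact isClosed_iInter fun n => isClosed_eq (f n).continuous continuous_const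
  have hC : 0 ≤ C := (norm_nonneg _).trans (hf 0)
  have hb : ∀ g ∈ G, ∀ y ∈ Y, ‖g‖ ≤ C * ‖g + y‖ := by
    intro g hg y hy
    apply hn g hg
    intro n
    have h1 : f n g = f n (g + y) := by rw [map_add, (hY y).1 hy n, add_zero]
    rw [h1]
    exact ((f n).le_opNorm _).trans (mul_le_mul_of_nonneg_right (hf n) (norm_nonneg _))
  refine Submodule.ClosedComplemented.of_isCompl_isClosed (q := Y) ⟨?_, ?_⟩ hG hYc
  · rw [Submodule.disjoint_def]
    intro x hx hxY
    have h1 := hb x hx (-x) (Y.neg_mem hxY)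
    rw [add_neg_cancel, norm_zero, mul_zero] at h1
    exact norm_le_zero_iff.1 h1
  · rw [codisjoint_iff, eq_top_iff]
    rintro x -
    have : CompleteSpace G := hG.completeSpace_coe
    have : CompleteSpace Y := hYc.completeSpace_coe
    let T : (G × Y) →L[𝕜] E := G.subtypeL.coprod Y.subtypeL
    have hT : ∀ z : G × Y, T z = (z.1 : E) + (z.2 : E) := fun z => rfl
    have hanti : AntilipschitzWith (Real.toNNReal (C + 1)) T := by
      refine AddMonoidHomClass.antilipschitz_of_bound T fun z => ?_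
      rw [hT, Real.coe_toNNReal _ (by linarith), Prod.norm_def]
      have h1 := hb z.1 z.1.2 z.2 z.2.2
      have h2 : ‖(z.2 : E)‖ ≤ ‖(z.1 : E) + z.2‖ + ‖(z.1 : E)‖ := by
        have : (z.2 : E) = ((z.1 : E) + z.2) - z.1 := by abel
        calc ‖(z.2 : E)‖ = ‖((z.1 : E) + z.2) - z.1‖ := by rw [← this]
          _ ≤ _ := norm_sub_le _ _
      have h3 := norm_nonneg ((z.1 : E) + z.2)
      refine max_le ?_ ?_
      · change ‖(z.1 : E)‖ ≤ _
        nlinarith
      · change ‖(z.2 : E)‖ ≤ _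
        nlinarith
    have hcl : IsClosed (Set.range T) := hanti.isClosed_range T.uniformContinuous
    have hrange : Set.range T = sumKer G f := by
      ext w
      constructor
      · rintro ⟨z, rfl⟩
        exact ⟨z.1, z.1.2, z.2, (hY _).1 z.2.2, rfl⟩
      · rintro ⟨g, hg, y, hy, rfl⟩
        exact ⟨(⟨g, hg⟩, ⟨y, (hY _).2 hy⟩), rfl⟩
    have hx : x ∈ Set.range T := by
      rw [← hrange] at hd
      rw [← hcl.closure_eq, hd.closure_eq]
      trivial
    obtain ⟨z, rfl⟩ := hx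
    rw [hT]
    exact Submodule.add_mem_sup z.1.2 z.2.2

/-- the obstruction -/
theorem not_dense [CompleteSpace E] [TopologicalSpace.SeparableSpace E] {G : Submodule 𝕜 E}
    (hG : IsClosed (G : Set E)) (hGc : ¬ G.ClosedComplemented) :
    ∃ φ : ℕ → (G →L[𝕜] 𝕜), (∀ n, ‖φ n‖ ≤ 1) ∧
      ∀ f : ℕ → (E →L[𝕜] 𝕜), (∀ (n : ℕ) (g : G), f n g = φ n g) → (∃ C : ℝ, ∀ n, ‖f n‖ ≤ C) →
        ¬ Dense (sumKer G f) := by
  have : SecondCountableTopology E := UniformSpace.secondCountable_of_separable E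
  have : TopologicalSpace.SeparableSpace G := inferInstance
  obtain ⟨φ, h1, h2⟩ := exists_norming (𝕜 := 𝕜) G
  refine ⟨φ, h1, ?_⟩
  rintro f hf ⟨C, hC⟩ hd
  refine hGc (closedComplemented_of_dense hG hC (fun g hg D hD => ?_) hd)
  exact h2 ⟨g, hg⟩ D fun n => by
    rw [← hf n ⟨g, hg⟩]
    exact hD n

end General

noncomputable section Example

/-- pairs of finite sets: codes of sign vectors -/
abbrev J : Type := Finset ℕ × Finset ℕ

variable (𝕜 : Type) [RCLike 𝕜]

/-- `ℓ₁` over the codes -/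
abbrev L1 : Type := lp (fun _ : J => 𝕜) 1

/-- the sign vector -/
def s (v : J) (k : ℕ) : 𝕜 := (if k ∈ v.1 then 1 else 0) - (if k ∈ v.2 then 1 else 0)

variable {𝕜}

theorem norm_s_le (v : J) (k : ℕ) : ‖s 𝕜 v k‖ ≤ 1 := by
  unfold s
  split_ifs <;> simp

theorem summable_norm (z : L1 𝕜) : Summable (fun x => ‖z x‖) := by
  have h := (lp.memℓp z).summable (by norm_num)
  simpa using h

theorem norm_eq (z : L1 𝕜) : ‖z‖ = ∑' x, ‖z x‖ := by
  rw [lp.norm_eq_tsum_rpow (by norm_num)]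
  simp

theorem summable_mul (k : ℕ) (z : L1 𝕜) : Summable (fun v : J => z v * s 𝕜 v k) := by
  refine Summable.of_norm_bounded (g := fun v => ‖z v‖) (summable_norm z) fun v => ?_
  rw [norm_mul]
  exact mul_le_of_le_one_right (norm_nonneg _) (norm_s_le v k)

/-- the coordinate functionals of the sum of the sign vectors -/
def q (k : ℕ) : L1 𝕜 →L[𝕜] 𝕜 :=
  LinearMap.mkContinuous
    { toFun := fun z => ∑' v : J, z v * s 𝕜 v k
      map_add' := fun z w => by
        rw [← (summable_mul k z).tsum_add (summable_mul k w)]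
        exact tsum_congr fun x => by rw [lp.coeFn_add, Pi.add_apply, add_mul]
      map_smul' := fun c z => by
        rw [RingHom.id_apply, smul_eq_mul, ← tsum_mul_left]
        exact tsum_congr fun x => by
          rw [lp.coeFn_smul, Pi.smul_apply, smul_eq_mul, mul_assoc] } 1 (fun z => by
      change ‖∑' v : J, z v * s 𝕜 v k‖ ≤ _
      rw [one_mul, norm_eq]
      refine tsum_of_norm_bounded (summable_norm z).hasSum fun v => ?_
      rw [norm_mul]
      exact mul_le_of_le_one_right (norm_nonneg _) (norm_s_le v k))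

theorem q_apply (k : ℕ) (z : L1 𝕜) : q k z = ∑' v : J, z v * s 𝕜 v k := rfl

theorem norm_q_le (k : ℕ) (z : L1 𝕜) : ‖q k z‖ ≤ ‖z‖ := by
  have := (q (𝕜 := 𝕜) k).le_of_opNorm_le (LinearMap.mkContinuous_norm_le _ zero_le_one _) z
  simpa using this

/-- unit vectors -/
def δ (v : J) : L1 𝕜 := lp.single 1 v (1 : 𝕜)

theorem norm_δ (v : J) : ‖(δ v : L1 𝕜)‖ = 1 := by
  unfold δ
  rw [lp.norm_single (by norm_num), norm_one]

theorem q_δ (k : ℕ) (v : J) : q k (δ v : L1 𝕜) = s 𝕜 v k := by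
  unfold δ
  rw [q_apply, tsum_eq_single v]
  · rw [lp.single_apply_self, one_mul]
  · intro y hy
    rw [lp.single_apply_ne _ _ _ hy, zero_mul]

variable (𝕜) in
/-- the kernel of the quotient map -/
def G : Submodule 𝕜 (L1 𝕜) := ⨅ k, LinearMap.ker (q (𝕜 := 𝕜) k).toLinearMap

theorem mem_G (z : L1 𝕜) : z ∈ G 𝕜 ↔ ∀ k, q k z = 0 := by
  simp [G, Submodule.mem_iInf]

theorem isClosed_G : IsClosed (G 𝕜 : Set (L1 𝕜)) := by
  have : (G 𝕜 : Set (L1 𝕜)) = ⋂ k, {y | q k y = 0} := by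
    ext y
    simp only [SetLike.mem_coe, mem_G, Set.mem_iInter, Set.mem_ofPred_eq]
  rw [this]
  exact isClosed_iInter fun n => isClosed_eq (q n).continuous continuous_const

/-- the code of the `k`-th unit vector -/
def e (k : ℕ) : J := ({k}, ∅)

theorem s_e (k j : ℕ) : s 𝕜 (e k) j = if j = k then 1 else 0 := by
  unfold s e
  simp

theorem rel_mem_G (v : J) :
    (δ v : L1 𝕜) - ((∑ k ∈ v.1, δ (e k)) - ∑ k ∈ v.2, δ (e k)) ∈ G 𝕜 := by
  rw [mem_G]
  intro j
  rw [map_sub, map_sub, map_sum, map_sum, q_δ]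
  simp only [q_δ, s_e]
  rw [Finset.sum_ite_eq, Finset.sum_ite_eq]
  unfold s
  ring

/-- adding a vector that is almost disjoint -/
theorem hump (t : L1 𝕜) (y : ℕ → L1 𝕜) (hy : ∀ v : J, Tendsto (fun k => y k v) atTop (𝓝 0))
    (h1 : ∀ k, 1 ≤ ‖y k‖) : ∀ᶠ k in atTop, ‖t‖ + 1 / 2 ≤ ‖t + y k‖ := by
  have hs := (summable_norm t).hasSum
  rw [← norm_eq] at hs
  have h2 : ∀ᶠ A : Finset J in atTop, ‖t‖ - 1 / 8 < ∑ v ∈ A, ‖t v‖ :=
    hs.eventually (lt_mem_nhds (by linarith))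
  obtain ⟨A, hA⟩ := h2.exists
  have h3 : Tendsto (fun k => ∑ v ∈ A, ‖y k v‖) atTop (𝓝 0) := by
    have := tendsto_finsetSum A fun v _ => (hy v).norm
    simpa using this
  filter_upwards [h3.eventually (gt_mem_nhds (show (0 : ℝ) < 1 / 8 by norm_num))] with k hk
  have hpt : ∀ v : J, ‖t v‖ + ‖y k v‖ - 2 * ((if v ∈ A then ‖y k v‖ else 0) +
      (‖t v‖ - if v ∈ A then ‖t v‖ else 0)) ≤ ‖(t + y k) v‖ := by
    intro v
    rw [lp.coeFn_add, Pi.add_apply]
    have ha : ‖t v‖ - ‖y k v‖ ≤ ‖t v + y k v‖ := by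
      have := norm_sub_norm_le (t v) (-(y k v))
      rwa [norm_neg, sub_neg_eq_add] at this
    have hb : ‖y k v‖ - ‖t v‖ ≤ ‖t v + y k v‖ := by
      have := norm_sub_norm_le (y k v) (-(t v))
      rwa [norm_neg, sub_neg_eq_add, add_comm (y k v)] at this
    split_ifs
    · linarith
    · linarith
  have hsum1 : HasSum (fun v : J => if v ∈ A then ‖y k v‖ else 0) (∑ v ∈ A, ‖y k v‖) := by
    have h5 : HasSum (fun v : J => if v ∈ A then ‖y k v‖ else 0)
        (∑ v ∈ A, if v ∈ A then ‖y k v‖ else 0) :=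
      hasSum_sum_of_ne_finset_zero fun v hv => if_neg hv
    rwa [Finset.sum_congr rfl fun v hv => if_pos hv] at h5
  have hsum2 : HasSum (fun v : J => if v ∈ A then ‖t v‖ else 0) (∑ v ∈ A, ‖t v‖) := by
    have h5 : HasSum (fun v : J => if v ∈ A then ‖t v‖ else 0)
        (∑ v ∈ A, if v ∈ A then ‖t v‖ else 0) :=
      hasSum_sum_of_ne_finset_zero fun v hv => if_neg hv
    rwa [Finset.sum_congr rfl fun v hv => if_pos hv] at h5
  have hs' := (summable_norm (y k)).hasSum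
  rw [← norm_eq] at hs'
  have hs'' := (summable_norm (t + y k)).hasSum
  rw [← norm_eq] at hs''
  have hfin := hasSum_le hpt ((hs.add hs').sub ((hsum1.add (hs.sub hsum2)).mul_left 2)) hs''
  have := h1 k
  linarith

theorem not_closedComplemented : ¬ (G 𝕜).ClosedComplemented := by
  rintro ⟨P, hP⟩
  let R : L1 𝕜 →L[𝕜] L1 𝕜 := ContinuousLinearMap.id 𝕜 _ - (G 𝕜).subtypeL.comp P
  have hR : ∀ z, R z = z - (P z : L1 𝕜) := fun z => rfl
  have hRG : ∀ z ∈ G 𝕜, R z = 0 := by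
    intro z hz
    rw [hR, hP ⟨z, hz⟩, sub_self]
  have hqR : ∀ k z, q k (R z) = q k z := by
    intro k z
    rw [hR, map_sub, (mem_G _).1 (P z).2 k, sub_zero]
  let y : ℕ → L1 𝕜 := fun k => R (δ (e k))
  have hy1 : ∀ k, 1 ≤ ‖y k‖ := by
    intro k
    have h1 : q k (y k) = 1 := by
      change q k (R (δ (e k))) = 1
      rw [hqR, q_δ, s_e, if_pos rfl]
    have h2 := norm_q_le k (y k)
    rwa [h1, norm_one] at h2
  set C : ℝ := ‖R‖ with hC
  have hsum : ∀ A B : Finset ℕ, ‖(∑ k ∈ A, y k) - ∑ k ∈ B, y k‖ ≤ C := by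
    intro A B
    have h1 := hRG _ (rel_mem_G (𝕜 := 𝕜) (A, B))
    rw [map_sub, map_sub, map_sum, map_sum, sub_eq_zero] at h1
    change ‖(∑ k ∈ A, R (δ (e k))) - ∑ k ∈ B, R (δ (e k))‖ ≤ C
    rw [← h1]
    have h2 := R.le_opNorm (δ (A, B))
    rwa [norm_δ, mul_one] at h2
  have hbound : ∀ (L : 𝕜 →+ ℝ), (∀ a, |L a| ≤ ‖a‖) → ∀ (v : J) (F : Finset ℕ),
      ∑ k ∈ F, |L (y k v)| ≤ C := by
    intro L hL v F
    have h1 := hsum (F.filter fun k => 0 ≤ L (y k v)) (F.filter fun k => ¬ 0 ≤ L (y k v))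
    set w := (∑ k ∈ F.filter (fun k => 0 ≤ L (y k v)), y k) -
      ∑ k ∈ F.filter (fun k => ¬ 0 ≤ L (y k v)), y k with hw
    have h2 : L (w v) = ∑ k ∈ F, |L (y k v)| := by
      rw [hw, lp.coeFn_sub, Pi.sub_apply, lp.coeFn_sum, lp.coeFn_sum, Finset.sum_apply,
        Finset.sum_apply, map_sub, map_sum, map_sum, ← Finset.sum_filter_add_sum_filter_not F
          (fun k => 0 ≤ L (y k v)) (fun k => |L (y k v)|), sub_eq_add_neg, ← Finset.sum_neg_distrib]
      congr 1
      · exact Finset.sum_congr rfl fun k hk => (abs_of_nonneg (Finset.mem_filter.1 hk).2).symm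
      · exact Finset.sum_congr rfl fun k hk =>
          (abs_of_neg (not_le.1 (Finset.mem_filter.1 hk).2)).symm
    calc ∑ k ∈ F, |L (y k v)| = L (w v) := h2.symm
      _ ≤ |L (w v)| := le_abs_self _
      _ ≤ ‖w v‖ := hL _
      _ ≤ ‖w‖ := lp.norm_apply_le_norm (by simp) w v
      _ ≤ C := h1
  have htend : ∀ (L : 𝕜 →+ ℝ), (∀ a, |L a| ≤ ‖a‖) → ∀ v : J,
      Tendsto (fun k => |L (y k v)|) atTop (𝓝 0) := by
    intro L hL v
    have hs : Summable (fun k => |L (y k v)|) :=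
      summable_of_sum_le (fun k => abs_nonneg _) (fun F => hbound L hL v F)
    exact hs.tendsto_atTop_zero
  have hcoord : ∀ v : J, Tendsto (fun k => y k v) atTop (𝓝 0) := by
    intro v
    have h1 := htend (RCLike.re : 𝕜 →+ ℝ) (fun a => RCLike.abs_re_le_norm a) v
    have h2 := htend (RCLike.im : 𝕜 →+ ℝ) (fun a => RCLike.abs_im_le_norm a) v
    have h3 := h1.add h2
    rw [add_zero] at h3
    rw [tendsto_zero_iff_norm_tendsto_zero]
    refine squeeze_zero (fun _ => norm_nonneg _) (fun k => ?_) h3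
    have h4 := norm_add_le ((RCLike.re (y k v) : ℝ) : 𝕜) (((RCLike.im (y k v) : ℝ) : 𝕜) * RCLike.I)
    rw [RCLike.re_add_im, norm_mul, RCLike.norm_ofReal, RCLike.norm_ofReal] at h4
    refine h4.trans (add_le_add le_rfl (mul_le_of_le_one_right (abs_nonneg _) ?_))
    rw [RCLike.norm_I]
    split_ifs <;> norm_num
  have hgrow : ∀ m : ℕ, ∃ F : Finset ℕ, (m : ℝ) / 2 ≤ ‖∑ k ∈ F, y k‖ := by
    intro m
    induction m with
    | zero => exact ⟨∅, by simp⟩
    | succ m ih =>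
      obtain ⟨F, hF⟩ := ih
      have h1 := hump (∑ k ∈ F, y k) y hcoord hy1
      have h2 : ∀ᶠ k in atTop, k ∉ F := by
        filter_upwards [eventually_gt_atTop (F.sup id)] with k hk hkF
        exact absurd (Finset.le_sup (f := id) hkF) (not_le.2 hk)
      obtain ⟨k, hk1, hk2⟩ := (h1.and h2).exists
      refine ⟨insert k F, ?_⟩
      rw [Finset.sum_insert hk2, add_comm (y k)]
      push_cast
      linarith
  obtain ⟨m, hm⟩ := exists_nat_gt (2 * C)
  obtain ⟨F, hF⟩ := hgrow m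
  have := hsum F ∅
  rw [Finset.sum_empty, sub_zero] at this
  linarith

instance separable_L1 : TopologicalSpace.SeparableSpace (L1 𝕜) := by
  rw [← TopologicalSpace.isSeparable_univ_iff]
  have h1 : TopologicalSpace.IsSeparable
      (Submodule.span 𝕜 (Set.range (δ : J → L1 𝕜)) : Set (L1 𝕜)) :=
    (Set.countable_range _).isSeparable.span
  have h2 := h1.closure
  refine h2.mono fun z _ => ?_
  have h3 := lp.hasSum_single (p := 1) (by norm_num) z
  refine mem_closure_of_tendsto h3 (Eventually.of_forall fun A => ?_)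
  refine Submodule.sum_mem _ fun v _ => ?_
  have h4 : (lp.single 1 v (z v) : L1 𝕜) = z v • (δ v : L1 𝕜) := by
    unfold δ
    rw [← lp.single_smul, smul_eq_mul, mul_one]
  rw [h4]
  exact Submodule.smul_mem _ _ (Submodule.subset_span ⟨v, rfl⟩)

end Example

end Pool.Agent.TH318.DenseSum
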