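import Pool.Agent.H721R2.Ivrii.Def

set_option autoImplicit false

open Set Filter Topology
open scoped InnerProductSpace
open Pool.Agent.H721R2.Ivrii

namespace Pool.Agent.TH318.Iv

variable {E : Type*} [NormedAddCommGroup E] [InnerProductSpace ℝ E] [CompleteSpace E]

/-- The bounce at the boundary point `q` with outgoing unit velocity `u` is focusing with strength
at most `β` off `r` directions. (For `r = 0` in the plane, at a boundary point of curvature `κ`,
positive for a convex table, where the trajectory makes the angle `θ` with the tangent, this is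
`2 κ / sin θ ≤ β`.) -/
def FocLe (Ω : Set E) (q u : E) (r : ℕ) (β : ℝ) : Prop :=
  ∃ F : E → ℝ, LocalDef Ω q F ∧ ∃ a : Fin r → E, ∀ w : E, ⟪gradient F q, w⟫_ℝ = 0 →
    (∀ i, ⟪a i, w⟫_ℝ = 0) →
    2 * |⟪gradient F q, u⟫_ℝ| * fderiv ℝ (fderiv ℝ F) q w w ≤
      β * ‖gradient F q‖ ^ 2 * (‖w‖ ^ 2 - ⟪u, w⟫_ℝ ^ 2)

/-- The boundary is regular and not focusing at `q`: it is flat or dispersing in every tangent
direction (the curvature may vanish). -/
def NonFocusing (Ω : Set E) (q : E) : Prop :=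
  ∃ F : E → ℝ, LocalDef Ω q F ∧
    ∀ w : E, ⟪gradient F q, w⟫_ℝ = 0 → fderiv ℝ (fderiv ℝ F) q w w ≤ 0

/-- The length of the path `p 0, p 1, …, p k`. -/
noncomputable def pos (p : ℕ → E) (k : ℕ) : ℝ := ∑ j ∈ Finset.range k, ‖p (j + 1) - p j‖

/-- The focusing at the bounces `1, …, n - 1` is weak: off `r k` directions it is at most `β k`,
where the sum of the `r k` is at most `d - 2` and the `β k` violate the Lyapunov inequality
`∑ β k * s k * (ℓ - s k) ≥ ℓ`; here `s k` is the position of the bounce `k` along the path and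
`ℓ` the length of the path. -/
def WeakAll (Ω : Set E) (n : ℕ) (p u : ℕ → E) : Prop :=
  ∃ (r : ℕ → ℕ) (β : ℕ → ℝ),
    (∀ k, 0 < k → k < n → 0 ≤ β k ∧ FocLe Ω (p k) (u k) (r k) (β k)) ∧
    ∑ k ∈ Finset.Ioo 0 n, r k + 2 ≤ Module.finrank ℝ E ∧
    ∑ k ∈ Finset.Ioo 0 n, β k * (pos p k * (pos p n - pos p k)) < pos p n

/-- The focusing between the positions `a` and `b` of the path is weak. -/
def WeakOn (Ω : Set E) (n : ℕ) (p u : ℕ → E) (a b : ℝ) : Prop :=
  ∃ β : ℕ → ℝ, (∀ k, 0 < k → k < n → a < pos p k → pos p k < b →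
      0 ≤ β k ∧ FocLe Ω (p k) (u k) 0 (β k)) ∧
    ∑ k ∈ (Finset.Ioo 0 n).filter (fun k => a < pos p k ∧ pos p k < b),
      β k * ((pos p k - a) * (b - pos p k)) < b - a

/-- The parity condition: the isometry `g` followed by `n` reflections changes the orientation iff
the dimension is odd. For a periodic trajectory (`g = 1`) it says that `n` and the dimension have
the same parity. -/
def Par (g : E ≃ᵃⁱ[ℝ] E) (n : ℕ) : Prop :=
  LinearMap.det (g.linearIsometryEquiv.toLinearEquiv : E →ₗ[ℝ] E) * (-1) ^ n =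
    (-1) ^ Module.finrank ℝ E

/-- A path with weak focusing: on the whole path or, in the case `par`, on one of the two pieces of
every subdivision of the path. -/
def WeakPath (Ω : Set E) (par : Prop) (n : ℕ) (p u : ℕ → E) : Prop :=
  WeakAll Ω n p u ∨ (par ∧ ∀ t, 0 < t → t < pos p n →
    WeakOn Ω n p u 0 t ∨ WeakOn Ω n p u t (pos p n))

/-- The phase points whose billiard trajectory is periodic modulo some isometry `g ∈ Γ` and such
that, for some bounce `i`, the path from this bounce to its image under `g` has weak focusing. -/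
def WeakPer (Γ : Set (E ≃ᵃⁱ[ℝ] E)) (Ω : Set E) : Set (E × E) :=
  {z | ∃ g ∈ Γ, ∃ (n : ℕ) (p u : ℕ → E) (i : ℕ), OrbitMod Ω g n p u ∧ (p 0, u 0) = z ∧ i < n ∧
    WeakPath Ω (Par g n) n (fun k => p (k + i)) (fun k => u (k + i))}

/-- The phase points whose billiard trajectory is periodic modulo some isometry `g ∈ Γ`, with at
most one focusing bounce in a period, or at most two if the parity condition holds. -/
def FewPer (Γ : Set (E ≃ᵃⁱ[ℝ] E)) (Ω : Set E) : Set (E × E) :=
  {z | ∃ g ∈ Γ, ∃ (n : ℕ) (p u : ℕ → E), OrbitMod Ω g n p u ∧ (p 0, u 0) = z ∧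
    ({k | k < n ∧ ¬ NonFocusing Ω (p k)}.ncard ≤ 1 ∨
      (Par g n ∧ {k | k < n ∧ ¬ NonFocusing Ω (p k)}.ncard ≤ 2))}

/-- The phase points whose billiard trajectory is periodic modulo some isometry `g ∈ Γ`, of length
`ℓ` over a period, such that off some bounce `i` the focusing strengths of the bounces of a period
are at most `β k`, with `ℓ * ∑ β k < 4`, or `< 16` if the parity condition holds. -/
def TotPer (Γ : Set (E ≃ᵃⁱ[ℝ] E)) (Ω : Set E) : Set (E × E) :=
  {z | ∃ g ∈ Γ, ∃ (n : ℕ) (p u : ℕ → E) (i : ℕ) (β : ℕ → ℝ), OrbitMod Ω g n p u ∧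
    (p 0, u 0) = z ∧ i < n ∧
    (∀ k, 0 < k → k < n → 0 ≤ β k ∧ FocLe Ω (p (k + i)) (u (k + i)) 0 (β k)) ∧
    (pos p n * ∑ k ∈ Finset.Ioo 0 n, β k < 4 ∨
      (Par g n ∧ pos p n * ∑ k ∈ Finset.Ioo 0 n, β k < 16))}

end Pool.Agent.TH318.Iv
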