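import Pool.Agent.TH746.Loc
import Pool.Agent.TH318.IvDef

set_option autoImplicit false

open MeasureTheory Set Filter Topology
open scoped InnerProductSpace
open Pool.Agent.H721R2.Quart Pool.Agent.H721R2.Ivrii Pool.Agent.TH746

namespace Pool.Agent.TH318.Iv

variable {E : Type*} [NormedAddCommGroup E] [InnerProductSpace ℝ E] [FiniteDimensional ℝ E]

theorem NonFocusing.focLe {Ω : Set E} {q : E} (h : NonFocusing Ω q) (u : E) : FocLe Ω q u 0 0 := by
  obtain ⟨F, hF, h⟩ := h
  refine ⟨F, hF, fun _ => 0, fun w hw _ => ?_⟩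
  rw [zero_mul, zero_mul]
  exact mul_nonpos_of_nonneg_of_nonpos (by positivity) (h w hw)

theorem leaves {Ω : Set E} {q : E} {F : E → ℝ} (h : LocalDef Ω q F) {w : E}
    (hw : 0 < ⟪gradient F q, w⟫_ℝ) : ∀ᶠ t in 𝓝[>] (0 : ℝ), q + t • w ∉ Ω := by
  have hd := line_hasDerivAt (h.smooth.differentiableAt (by norm_num)) w
  have hc : Tendsto (fun t : ℝ => q + t • w) (𝓝[>] 0) (𝓝 q) := by
    have h1 : Continuous (fun t : ℝ => q + t • w) := by fun_prop
    have := h1.tendsto 0
    simp only [zero_smul, add_zero] at this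
    exact this.mono_left nhdsWithin_le_nhds
  have h2 : ∀ᶠ t in 𝓝[>] (0 : ℝ), 0 < F (q + t • w) := by
    have hs := hd.hasDerivWithinAt (s := Ioi 0)
    rw [hasDerivWithinAt_iff_tendsto_slope] at hs
    have hdiff : Ioi (0 : ℝ) \ {0} = Ioi 0 := by
      ext t; simp only [Set.mem_sdiff, mem_Ioi, mem_singleton_iff]
      exact ⟨fun h => h.1, fun h => ⟨h, h.ne'⟩⟩
    rw [hdiff] at hs
    have h3 := hs.eventually (lt_mem_nhds hw)
    filter_upwards [h3, self_mem_nhdsWithin] with t ht ht0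
    rw [slope_def_field] at ht
    simp only [zero_smul, add_zero, sub_zero, h.zero] at ht
    have ht0' : (0 : ℝ) < t := ht0
    by_contra hcon
    exact absurd ht (not_lt.2 (div_nonpos_of_nonpos_of_nonneg (not_lt.1 hcon) ht0'.le))
  filter_upwards [h2, hc.eventually h.mem] with t ht1 ht2 ht3
  exact absurd (ht2.1 ht3) (not_lt.2 ht1.le)

/-- The particle arrives at the boundary from the inside. -/
theorem step_pos {Ω : Set E} {q v q' v' : E} (h : Step Ω q v q' v') {F : E → ℝ}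
    (hF : LocalDef Ω q' F) : 0 < ⟪gradient F q', v⟫_ℝ := by
  have h0 := (step_refl' h hF).2.1
  obtain ⟨t, ht, hq, hin, -⟩ := h
  by_contra hcon
  have h1 : ⟪gradient F q', v⟫_ℝ < 0 := lt_of_le_of_ne (not_lt.1 hcon) h0
  have h2 := leaves hF (w := -v) (by rw [inner_neg_right]; linarith)
  obtain ⟨s, hs1, hs2⟩ := (h2.and (Ioo_mem_nhdsGT ht)).exists
  apply hs1
  have h3 : q' + s • (-v) = q + (t - s) • v := by rw [hq]; module
  rw [h3]
  exact hin _ ⟨by linarith [hs2.2], by linarith [hs2.1]⟩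

/-- Two defining functions: the gradients are positively proportional, and the second fundamental
forms agree. -/
theorem curv_rel {Ω : Set E} {q : E} {F F' : E → ℝ} (h : LocalDef Ω q F) (h' : LocalDef Ω q F') :
    ∃ l : ℝ, 0 < l ∧ gradient F' q = l • gradient F q ∧ ∀ w : E, ⟪gradient F q, w⟫_ℝ = 0 →
      fderiv ℝ (fderiv ℝ F') q w w = l * fderiv ℝ (fderiv ℝ F) q w w := by
  obtain ⟨l, hl, hll⟩ := grad_parallel h h'
  have hN : 0 < ‖gradient F q‖ ^ 2 := pow_pos (norm_pos_iff.2 h.grad) 2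
  have hlp : 0 < l := by
    by_contra hcon
    have hlt : l < 0 := lt_of_le_of_ne (not_lt.1 hcon) hl
    have h1 := enters h (w := -gradient F q) (by
      rw [inner_neg_right, real_inner_self_eq_norm_sq]; linarith)
    have h2 := leaves h' (w := -gradient F q) (by
      rw [hll, inner_neg_right, real_inner_smul_left, real_inner_self_eq_norm_sq]
      nlinarith)
    obtain ⟨t, ht1, ht2⟩ := (h1.and h2).exists
    exact ht2 ht1
  refine ⟨l, hlp, hll, fun w hw => ?_⟩
  obtain ⟨X, cX, X0, Xz, -, Xs⟩ := G4_chart h.smooth h.zero h.grad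
  have hXc : Tendsto X (𝓝 0) (𝓝 q) := by
    have := cX.continuousAt.tendsto
    rwa [X0] at this
  have hgc : ContinuousAt (gradient F) q := (G2_contDiff_grad h.smooth).continuousAt
  have e1 : ∀ᶠ z in 𝓝 0, F' (X z) = 0 := by
    filter_upwards [Xz, hXc.eventually (h.smooth.eventually (by norm_num)),
      hXc.eventually (hgc.eventually_ne h.grad), hXc.eventually (eventually_eventually_nhds.2 h.mem),
      hXc.eventually (h'.smooth.eventually (by norm_num)),
      hXc.eventually (eventually_eventually_nhds.2 h'.mem)] with z z1 z2 z3 z4 z5 z6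
    exact zero_of_mem z5.continuousAt z6 ⟨z2, z1, z3, z4⟩
  obtain ⟨ζ, hζ⟩ := Xs.self_of_nhds w (by rw [X0]; exact hw)
  have k1 := second_vanish cX (by rw [X0]; exact h.smooth) Xz ζ
  have k2 := second_vanish cX (by rw [X0]; exact h'.smooth) e1 ζ
  rw [hζ, X0] at k1 k2
  rw [G4_fderiv_eq F', hll, real_inner_smul_left] at k2
  rw [G4_fderiv_eq F] at k1
  linear_combination k2 - l * k1

/-- The strength does not depend on the defining function. -/
theorem focLe_def {Ω : Set E} {q u : E} {r : ℕ} {β : ℝ} (h : FocLe Ω q u r β) {F : E → ℝ}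
    (hF : LocalDef Ω q F) : ∃ a : Fin r → E, ∀ w, ⟪gradient F q, w⟫_ℝ = 0 →
      (∀ i, ⟪a i, w⟫_ℝ = 0) →
    2 * |⟪gradient F q, u⟫_ℝ| * fderiv ℝ (fderiv ℝ F) q w w ≤
      β * ‖gradient F q‖ ^ 2 * (‖w‖ ^ 2 - ⟪u, w⟫_ℝ ^ 2) := by
  obtain ⟨F', hF', a, h⟩ := h
  obtain ⟨l, hl, hg, hc⟩ := curv_rel hF hF'
  refine ⟨a, fun w hw hi => ?_⟩
  have h1 := h w (by rw [hg, real_inner_smul_left, hw, mul_zero]) hi
  rw [hc w hw, hg, real_inner_smul_left, abs_mul, abs_of_pos hl, norm_smul, Real.norm_eq_abs,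
    abs_of_pos hl, mul_pow] at h1
  have h2 : 0 < l ^ 2 := pow_pos hl 2
  by_contra hcon
  have h3 := mul_lt_mul_of_pos_left (not_le.1 hcon) h2
  linarith [h1, h3]

/-- Being not focusing is invariant under isometries. -/
theorem NonFocusing.comp (g : E ≃ᵃⁱ[ℝ] E) {Ω : Set E} {q : E} (h : NonFocusing Ω (g q)) :
    NonFocusing (g ⁻¹' Ω) q := by
  obtain ⟨F, hF, hz⟩ := h
  refine ⟨F ∘ g, hF.comp g, fun w hw => ?_⟩
  obtain ⟨lin, hlin⟩ : ∃ lin : E →L[ℝ] E,
      lin = (g.linearIsometryEquiv.toContinuousLinearEquiv : E →L[ℝ] E) := ⟨_, rfl⟩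
  have hg : ∀ x, HasFDerivAt g lin x := fun x => by rw [hlin]; exact isom_hasFDerivAt g x
  have h1 : ∀ᶠ x in 𝓝 (g q), ContDiffAt ℝ 3 F x := hF.smooth.eventually (by simp)
  have h2 : ∀ᶠ y in 𝓝 q, fderiv ℝ (F ∘ g) y = (fderiv ℝ F (g y)).comp lin := by
    filter_upwards [g.continuous.continuousAt.tendsto.eventually h1] with y hy
    exact ((hy.differentiableAt (by norm_num)).hasFDerivAt.comp y (hg y)).fderiv
  have hDF : HasFDerivAt (fderiv ℝ F) (fderiv ℝ (fderiv ℝ F) (g q)) (g q) := by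
    have : ContDiffAt ℝ 2 (fderiv ℝ F) (g q) := hF.smooth.fderiv_right (m := 2) (by norm_num)
    exact (this.differentiableAt (by norm_num)).hasFDerivAt
  have h3 : HasFDerivAt (fun y => (fderiv ℝ F (g y)).comp lin)
      (((ContinuousLinearMap.compL ℝ E E ℝ).flip lin).comp
        ((fderiv ℝ (fderiv ℝ F) (g q)).comp lin)) q :=
    ((ContinuousLinearMap.compL ℝ E E ℝ).flip lin).hasFDerivAt.comp q (hDF.comp q (hg q))
  have h4 := (h3.congr_of_eventuallyEq h2).fderiv
  rw [h4]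
  change fderiv ℝ (fderiv ℝ F) (g q) (lin w) (lin w) ≤ 0
  apply hz
  rw [gradient_comp_isom g (hF.smooth.differentiableAt (by norm_num))] at hw
  rw [← g.linearIsometryEquiv.inner_map_map, LinearIsometryEquiv.apply_symm_apply] at hw
  rw [hlin]
  exact hw

end Pool.Agent.TH318.Iv
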