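import Pool.Agent.TH746.Chn

set_option autoImplicit false

open MeasureTheory Set Filter Topology
open scoped InnerProductSpace
open Pool.Agent.H721R2.Quart Pool.Agent.H721R2.Ivrii Pool.Agent.TH746

namespace Pool.Agent.TH318.Iv

/-! ### The discrete Lyapunov inequality -/

theorem lyap {N : ℕ} (L d y β : ℕ → ℝ) (hL : ∀ k < N, 0 ≤ L k)
    (hy : ∀ k ≤ N, 0 ≤ y k) (y0 : y 0 = 0) (yN : y N = 0)
    (hs : ∀ k < N, |y (k + 1) - y k| ≤ L k * d k)
    (hβ : ∀ k ∈ Finset.Ioo 0 N, 0 ≤ β k)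
    (hE : ∑ k ∈ Finset.range N, L k * d k ^ 2 ≤ ∑ k ∈ Finset.Ioo 0 N, β k * y k ^ 2)
    (hw : ∑ k ∈ Finset.Ioo 0 N, β k * ((∑ j ∈ Finset.range k, L j) *
      ((∑ j ∈ Finset.range N, L j) - ∑ j ∈ Finset.range k, L j)) < ∑ j ∈ Finset.range N, L j) :
    ∀ k < N, 0 < L k → d k = 0 := by
  obtain ⟨s, hsd⟩ : ∃ s : ℕ → ℝ, s = fun k => ∑ j ∈ Finset.range k, L j := ⟨_, rfl⟩
  obtain ⟨T, hT⟩ : ∃ T : ℕ → ℝ, T = fun k => ∑ j ∈ Finset.range k, L j * d j ^ 2 := ⟨_, rfl⟩
  have hu : ∀ k ≤ N, y k ≤ ∑ j ∈ Finset.range k, L j * d j := by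
    intro k
    induction k with
    | zero => intro _; simp [y0]
    | succ k ih =>
      intro hk
      rw [Finset.sum_range_succ]
      have h1 := ih (by omega)
      have h2 := (abs_le.1 (hs k (by omega))).2
      linarith
  have hv : ∀ m, ∀ k, k + m = N → y k ≤ ∑ j ∈ Finset.Ico k N, L j * d j := by
    intro m
    induction m with
    | zero =>
      intro k hk
      have : k = N := by omega
      subst this
      simp [yN]
    | succ m ih =>
      intro k hk
      have h1 := ih (k + 1) (by omega)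
      have h2 := (abs_le.1 (hs k (by omega))).1
      rw [Finset.sum_eq_sum_Ico_succ_bot (by omega)]
      linarith
  have cs : ∀ S : Finset ℕ, (∀ j ∈ S, j < N) →
      (∑ j ∈ S, L j * d j) ^ 2 ≤ (∑ j ∈ S, L j) * ∑ j ∈ S, L j * d j ^ 2 := by
    intro S hS
    refine Finset.sum_sq_le_sum_mul_sum_of_sq_le_mul S (fun j hj => (hL j (hS j hj)))
      (fun j hj => mul_nonneg (hL j (hS j hj)) (sq_nonneg _)) (fun j _ => le_of_eq (by ring))
  have hTn : 0 ≤ T N := by
    rw [hT]
    exact Finset.sum_nonneg fun j hj => mul_nonneg (hL j (Finset.mem_range.1 hj)) (sq_nonneg _)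
  have key : ∀ k ≤ N, s N * y k ^ 2 ≤ s k * (s N - s k) * T N := by
    intro k hk
    have h1 : y k ^ 2 ≤ s k * T k := by
      rw [hsd, hT]
      refine le_trans (pow_le_pow_left₀ (hy k hk) (hu k hk) 2) (cs _ ?_)
      intro j hj
      have := Finset.mem_range.1 hj
      omega
    have e1 : s N - s k = ∑ j ∈ Finset.Ico k N, L j := by
      rw [hsd, Finset.sum_Ico_eq_sub _ hk]
    have e2 : T N - T k = ∑ j ∈ Finset.Ico k N, L j * d j ^ 2 := by
      rw [hT, Finset.sum_Ico_eq_sub _ hk]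
    have h2 : y k ^ 2 ≤ (s N - s k) * (T N - T k) := by
      rw [e1, e2]
      refine le_trans (pow_le_pow_left₀ (hy k hk) (hv (N - k) k (by omega)) 2) (cs _ ?_)
      intro j hj
      exact (Finset.mem_Ico.1 hj).2
    have hs1 : 0 ≤ s k := by
      rw [hsd]
      exact Finset.sum_nonneg fun j hj => (hL j (by have := Finset.mem_range.1 hj; omega))
    have hs2 : 0 ≤ s N - s k := by
      rw [e1]
      exact Finset.sum_nonneg fun j hj => (hL j (Finset.mem_Ico.1 hj).2)
    nlinarith [mul_le_mul_of_nonneg_left h1 hs2, mul_le_mul_of_nonneg_left h2 hs1]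
  have hT0 : T N ≤ 0 := by
    by_contra hcon
    have hcon : 0 < T N := not_le.1 hcon
    have hw' : ∑ k ∈ Finset.Ioo 0 N, β k * (s k * (s N - s k)) < s N := by
      rw [hsd]; exact hw
    have h0 : 0 ≤ s N := by
      rw [hsd]
      exact Finset.sum_nonneg fun j hj => (hL j (Finset.mem_range.1 hj))
    have h1 : s N * T N ≤ s N * ∑ k ∈ Finset.Ioo 0 N, β k * y k ^ 2 := by
      refine mul_le_mul_of_nonneg_left ?_ h0
      rw [hT]; exact hE
    have h2 : s N * ∑ k ∈ Finset.Ioo 0 N, β k * y k ^ 2 ≤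
        (∑ k ∈ Finset.Ioo 0 N, β k * (s k * (s N - s k))) * T N := by
      rw [Finset.mul_sum, Finset.sum_mul]
      refine Finset.sum_le_sum fun k hk => ?_
      have h3 := mul_le_mul_of_nonneg_left (key k (Finset.mem_Ioo.1 hk).2.le) (hβ k hk)
      nlinarith [h3]
    have h3 := mul_lt_mul_of_pos_right hw' hcon
    linarith
  intro k hk hLk
  have h1 : ∑ j ∈ Finset.range N, L j * d j ^ 2 = 0 := by
    have : T N = 0 := le_antisymm hT0 hTn
    rw [hT] at this
    exact this
  have h2 := (Finset.sum_eq_zero_iff_of_nonneg (fun j hj =>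
    mul_nonneg (hL j (Finset.mem_range.1 hj)) (sq_nonneg (d j)))).1 h1 k (Finset.mem_range.2 hk)
  rcases mul_eq_zero.1 h2 with h3 | h3
  · exact absurd h3 hLk.ne'
  · exact pow_eq_zero_iff (two_ne_zero) |>.1 h3

/-- A broken line in an inner product space from `0` to `0` with weakly focusing kicks. -/
theorem broken {H : Type*} [NormedAddCommGroup H] [InnerProductSpace ℝ H] {N : ℕ}
    (L β : ℕ → ℝ) (X D : ℕ → H) (hL : ∀ k < N, 0 ≤ L k) (X0 : X 0 = 0) (XN : X N = 0)
    (step : ∀ k < N, X (k + 1) = X k + L k • D k)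
    (kick : ∀ k, k + 1 < N → 0 ≤ β (k + 1) ∧ ⟪X (k + 1), D k⟫_ℝ - β (k + 1) * ‖X (k + 1)‖ ^ 2 ≤
      ⟪X (k + 1), D (k + 1)⟫_ℝ)
    (hw : ∑ k ∈ Finset.Ioo 0 N, β k * ((∑ j ∈ Finset.range k, L j) *
      ((∑ j ∈ Finset.range N, L j) - ∑ j ∈ Finset.range k, L j)) < ∑ j ∈ Finset.range N, L j) :
    ∀ k < N, 0 < L k → D k = 0 := by
  have pair : ∀ k < N, ⟪X (k + 1), D k⟫_ℝ = ⟪X k, D k⟫_ℝ + L k * ‖D k‖ ^ 2 := by
    intro k hk
    rw [step k hk, inner_add_left, real_inner_smul_left, real_inner_self_eq_norm_sq]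
  have acc : ∀ m, m < N → ∑ k ∈ Finset.range m, L k * ‖D k‖ ^ 2 -
      ∑ k ∈ Finset.Ioo 0 (m + 1), β k * ‖X k‖ ^ 2 ≤ ⟪X m, D m⟫_ℝ := by
    intro m
    induction m with
    | zero =>
      intro _
      have h5 : Finset.Ioo 0 (0 + 1) = ∅ := by decide
      rw [h5, X0]
      simp
    | succ m ih =>
      intro hm
      have h2 := ih (by omega)
      have h3 := pair m (by omega)
      have h4 := (kick m hm).2
      have h5 : Finset.Ioo 0 (m + 1 + 1) = insert (m + 1) (Finset.Ioo 0 (m + 1)) := by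
        ext j
        simp only [Finset.mem_Ioo, Finset.mem_insert]
        omega
      rw [Finset.sum_range_succ, h5, Finset.sum_insert (by simp)]
      linarith
  have hE : ∑ k ∈ Finset.range N, L k * ‖D k‖ ^ 2 ≤
      ∑ k ∈ Finset.Ioo 0 N, β k * ‖X k‖ ^ 2 := by
    rcases Nat.eq_zero_or_pos N with hN | hN
    · subst hN; simp
    obtain ⟨m, hm⟩ : ∃ m, N = m + 1 := ⟨N - 1, by omega⟩
    have h2 := acc m (by omega)
    have h3 := pair m (by omega)
    rw [← hm, XN, inner_zero_left] at h3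
    rw [← hm] at h2
    have h4 : ∑ k ∈ Finset.range N, L k * ‖D k‖ ^ 2 =
        ∑ k ∈ Finset.range m, L k * ‖D k‖ ^ 2 + L m * ‖D m‖ ^ 2 := by
      rw [hm, Finset.sum_range_succ]
    rw [h4]
    linarith
  intro k hk hLk
  have h2 := lyap L (fun k => ‖D k‖) (fun k => ‖X k‖) β hL
    (fun k _ => norm_nonneg _) (by simp [X0]) (by simp [XN])
    (fun k hk => by
      rw [step k hk]
      refine le_trans (abs_norm_sub_norm_le _ _) ?_
      rw [add_sub_cancel_left, norm_smul, Real.norm_eq_abs, abs_of_nonneg (hL k hk)])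
    (fun k hk => by
      obtain ⟨k1, k2⟩ := Finset.mem_Ioo.1 hk
      obtain ⟨j, rfl⟩ : ∃ j, k = j + 1 := ⟨k - 1, by omega⟩
      exact (kick j k2).1) hE hw k hk hLk
  exact norm_eq_zero.1 h2

/-- The first part of a broken line, up to an interior zero. -/
theorem broken_left {H : Type*} [NormedAddCommGroup H] [InnerProductSpace ℝ H] {m : ℕ}
    (L β : ℕ → ℝ) (X D : ℕ → H) {τ : ℝ} (hτ : 0 < τ) (hL : ∀ k < m, 0 < L k) (X0 : X 0 = 0)
    (hz : X m + τ • D m = 0)
    (step : ∀ k < m, X (k + 1) = X k + L k • D k)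
    (kick : ∀ k, k < m → 0 ≤ β (k + 1) ∧ ⟪X (k + 1), D k⟫_ℝ - β (k + 1) * ‖X (k + 1)‖ ^ 2 ≤
      ⟪X (k + 1), D (k + 1)⟫_ℝ)
    (hw : ∑ k ∈ Finset.Ioo 0 (m + 1), β k * ((∑ j ∈ Finset.range k, L j) *
      ((∑ j ∈ Finset.range m, L j) + τ - ∑ j ∈ Finset.range k, L j)) <
        (∑ j ∈ Finset.range m, L j) + τ) : D 0 = 0 := by
  obtain ⟨L', hL'⟩ : ∃ L' : ℕ → ℝ, L' = fun j => if j = m then τ else L j := ⟨_, rfl⟩
  obtain ⟨X', hX'⟩ : ∃ X' : ℕ → H, X' = fun j => if j = m + 1 then 0 else X j := ⟨_, rfl⟩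
  have L1 : ∀ j < m, L' j = L j := by
    intro j hj; rw [hL']; simp only [if_neg (show j ≠ m by omega)]
  have L2 : L' m = τ := by rw [hL']; simp
  have X1 : ∀ j ≤ m, X' j = X j := by
    intro j hj; rw [hX']; simp only [if_neg (show j ≠ m + 1 by omega)]
  have X2 : X' (m + 1) = 0 := by rw [hX']; simp
  have s1 : ∀ k ≤ m, ∑ j ∈ Finset.range k, L' j = ∑ j ∈ Finset.range k, L j := by
    intro k hk
    exact Finset.sum_congr rfl fun j hj => L1 j (by have := Finset.mem_range.1 hj; omega)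
  have s2 : ∑ j ∈ Finset.range (m + 1), L' j = (∑ j ∈ Finset.range m, L j) + τ := by
    rw [Finset.sum_range_succ, s1 m le_rfl, L2]
  have hLp : ∀ k < m + 1, 0 < L' k := by
    intro k hk
    rcases Nat.lt_or_ge k m with h | h
    · rw [L1 k h]; exact hL k h
    · have : k = m := by omega
      rw [this, L2]; exact hτ
  refine broken L' β X' D (N := m + 1) (fun k hk => (hLp k hk).le) ?_ X2 ?_ ?_ ?_ 0
    (Nat.succ_pos m) (hLp 0 (Nat.succ_pos m))
  · rw [X1 0 (Nat.zero_le _), X0]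
  · intro k hk
    rcases Nat.lt_or_ge k m with h | h
    · rw [X1 (k + 1) h, X1 k h.le, L1 k h, step k h]
    · have : k = m := by omega
      subst this
      rw [X2, X1 k le_rfl, L2, hz]
  · intro k hk
    rw [X1 (k + 1) (by omega)]
    exact kick k (by omega)
  · rw [s2]
    refine lt_of_le_of_lt (le_of_eq (Finset.sum_congr rfl fun k hk => ?_)) hw
    rw [s1 k (by have := (Finset.mem_Ioo.1 hk).2; omega)]

/-- The second part of a broken line, from an interior zero. -/
theorem broken_right {H : Type*} [NormedAddCommGroup H] [InnerProductSpace ℝ H] {N m : ℕ}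
    (hm : m < N) (L β : ℕ → ℝ) (X D : ℕ → H) {τ : ℝ} (hτ0 : 0 < τ) (hτ : τ ≤ L m)
    (hτ' : m + 1 = N → τ < L m)
    (hL : ∀ k < N, 0 < L k) (XN : X N = 0) (hz : X m + τ • D m = 0)
    (step : ∀ k < N, X (k + 1) = X k + L k • D k)
    (kick : ∀ k, k + 1 < N → (∑ j ∈ Finset.range m, L j) + τ < ∑ j ∈ Finset.range (k + 1), L j →
      0 ≤ β (k + 1) ∧ ⟪X (k + 1), D k⟫_ℝ - β (k + 1) * ‖X (k + 1)‖ ^ 2 ≤
      ⟪X (k + 1), D (k + 1)⟫_ℝ)
    (hw : ∑ k ∈ (Finset.Ioo 0 N).filter (fun k =>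
        (∑ j ∈ Finset.range m, L j) + τ < ∑ j ∈ Finset.range k, L j),
      β k * ((∑ j ∈ Finset.range k, L j - ((∑ j ∈ Finset.range m, L j) + τ)) *
      ((∑ j ∈ Finset.range N, L j) - ∑ j ∈ Finset.range k, L j)) <
        (∑ j ∈ Finset.range N, L j) - ((∑ j ∈ Finset.range m, L j) + τ)) : D (N - 1) = 0 := by
  obtain ⟨s, hsd⟩ : ∃ s : ℕ → ℝ, s = fun k => ∑ j ∈ Finset.range k, L j := ⟨_, rfl⟩
  obtain ⟨t, ht⟩ : ∃ t, t = s m + τ := ⟨_, rfl⟩
  have hse : ∀ k, ∑ j ∈ Finset.range k, L j = s k := fun k => by rw [hsd]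
  simp only [hse, ← ht] at kick hw
  have hs1 : ∀ k, s (k + 1) = s k + L k := by
    intro k; rw [hsd]; simp only; rw [Finset.sum_range_succ]
  have hsmono : ∀ j, m + 1 + j < N → t < s (m + 1 + j + 1) := by
    intro j
    induction j with
    | zero =>
      intro hj
      have h1 := hs1 m
      have h2 := hs1 (m + 1)
      have h3 := hL (m + 1) hj
      simp only [Nat.add_zero]
      linarith
    | succ j ih =>
      intro hj
      have h1 := ih (by omega)
      have h2 := hs1 (m + 1 + (j + 1))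
      have h3 := hL (m + 1 + (j + 1)) hj
      have e : m + 1 + j + 1 = m + 1 + (j + 1) := by ring
      rw [e] at h1
      linarith
  obtain ⟨L', hL'⟩ : ∃ L' : ℕ → ℝ, L' = fun j => if j = 0 then L m - τ else L (m + j) := ⟨_, rfl⟩
  obtain ⟨X', hX'⟩ : ∃ X' : ℕ → H, X' = fun j => if j = 0 then 0 else X (m + j) := ⟨_, rfl⟩
  obtain ⟨β', hβ'⟩ : ∃ β' : ℕ → ℝ, β' = fun j => if t < s (m + j) then β (m + j) else 0 :=
    ⟨_, rfl⟩
  have L0 : L' 0 = L m - τ := by rw [hL']; simp
  have L1 : ∀ j, L' (j + 1) = L (m + (j + 1)) := by intro j; rw [hL']; simp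
  have X0 : X' 0 = 0 := by rw [hX']; simp
  have X1 : ∀ j, X' (j + 1) = X (m + (j + 1)) := by intro j; rw [hX']; simp
  have s1 : ∀ k, ∑ j ∈ Finset.range (k + 1), L' j = s (m + (k + 1)) - t := by
    intro k
    induction k with
    | zero =>
      rw [Finset.sum_range_succ, Finset.sum_range_zero, L0, show m + (0 + 1) = m + 1 by ring,
        hs1 m, ht]
      ring
    | succ k ih =>
      rw [Finset.sum_range_succ, ih, L1, show m + (k + 1 + 1) = m + (k + 1) + 1 by ring,
        hs1 (m + (k + 1))]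
      ring
  obtain ⟨N', hN'⟩ : ∃ N', N = m + (N' + 1) := ⟨N - m - 1, by omega⟩
  have hLp : ∀ k < N' + 1, 0 ≤ L' k := by
    intro k hk
    rcases k with _ | k
    · rw [L0]; linarith
    · rw [L1]; exact (hL _ (by omega)).le
  have hlast : 0 < L' N' := by
    rcases N' with _ | k
    · rw [L0]
      have := hτ' (by omega)
      linarith
    · rw [L1]; exact hL _ (by omega)
  have hfin := broken L' β' X' (fun j => D (m + j)) (N := N' + 1) hLp X0 ?_ ?_ ?_ ?_ N'
    (Nat.lt_succ_self _) hlast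
  · have e : N - 1 = m + N' := by omega
    rw [e]; exact hfin
  · rw [X1, ← hN', XN]
  · intro k hk
    rcases k with _ | k
    · rw [X1, X0, L0, zero_add, show m + (0 + 1) = m + 1 by ring, step m hm,
        show m + 0 = m by ring]
      have : X m = -(τ • D m) := eq_neg_of_add_eq_zero_left hz
      rw [this, sub_smul]
      abel
    · rw [X1, X1, L1]
      have := step (m + (k + 1)) (by omega)
      rw [show m + (k + 1 + 1) = m + (k + 1) + 1 by ring]
      exact this
  · intro k hk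
    rw [X1]
    rcases lt_or_ge t (s (m + (k + 1))) with h | h
    · have h1 := kick (m + k) (by omega) (by rw [show m + k + 1 = m + (k + 1) by ring]; exact h)
      rw [hβ']
      simp only [if_pos h]
      exact h1
    · rw [hβ']
      simp only [if_neg (not_lt.2 h)]
      refine ⟨le_rfl, ?_⟩
      -- the zero is at the vertex `m + 1`
      have hk0 : k = 0 := by
        by_contra hne
        obtain ⟨j, rfl⟩ : ∃ j, k = j + 1 := ⟨k - 1, by omega⟩
        have := hsmono j (by omega)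
        rw [show m + 1 + j + 1 = m + (j + 1 + 1) by ring] at this
        linarith
      subst hk0
      have h2 : τ = L m := by
        have h3 := hs1 m
        simp only [zero_add] at h
        linarith
      have h4 : X (m + (0 + 1)) = 0 := by
        rw [show m + (0 + 1) = m + 1 by ring, step m hm, ← h2, hz]
      rw [h4]
      simp
  · rw [s1, ← hN']
    refine lt_of_le_of_lt (le_of_eq ?_) hw
    rw [Finset.sum_filter]
    have h1 : ∑ k ∈ Finset.Ioo 0 N, (if t < s k then β k * ((s k - t) * (s N - s k)) else 0) =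
        ∑ k ∈ Finset.Ico (m + 1) N, (if t < s k then β k * ((s k - t) * (s N - s k)) else 0) := by
      symm
      refine Finset.sum_subset ?_ ?_
      · intro k hk
        have := Finset.mem_Ico.1 hk
        exact Finset.mem_Ioo.2 ⟨by omega, this.2⟩
      · intro k hk hk2
        have h3 := Finset.mem_Ioo.1 hk
        have h4 : k ≤ m := by
          by_contra hcon
          exact hk2 (Finset.mem_Ico.2 ⟨by omega, h3.2⟩)
        have h5 : s k ≤ s m := by
          rw [hsd]
          exact Finset.sum_le_sum_of_subset_of_nonneg (Finset.range_mono h4)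
            fun j hj _ => (hL j (by have := Finset.mem_range.1 hj; omega)).le
        rw [if_neg]
        rw [ht]
        linarith
    have h2 : Finset.Ioo 0 (N' + 1) = Finset.Ico 1 (N' + 1) := by
      ext j; simp only [Finset.mem_Ioo, Finset.mem_Ico]; omega
    have h3 := Finset.sum_Ico_add (fun k => if t < s k then β k * ((s k - t) * (s N - s k)) else 0)
      1 (N' + 1) m
    have e1 : 1 + m = m + 1 := by ring
    have e2 : N' + 1 + m = N := by omega
    rw [e1, e2] at h3
    rw [h1, ← h3, h2]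
    refine Finset.sum_congr rfl fun k hk => ?_
    obtain ⟨j, rfl⟩ : ∃ j, k = j + 1 := ⟨k - 1, by have := Finset.mem_Ico.1 hk; omega⟩
    rw [s1 j, hβ']
    simp only
    split_ifs with h4
    · ring
    · ring

end Pool.Agent.TH318.Iv
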