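import Mathlib

set_option autoImplicit false

open Set Filter Topology

namespace Pool.Agent.TH318.Iv

/-- A continuous function without zeros keeps its sign. -/
theorem keep {f : ℝ → ℝ} (hf : Continuous f) {a b : ℝ} (hab : a ≤ b) (ha : 0 < f a)
    (hne : ∀ x ∈ Icc a b, f x ≠ 0) : 0 < f b := by
  by_contra hcon
  have h1 : (0 : ℝ) ∈ Icc (f b) (f a) := ⟨not_lt.1 hcon, ha.le⟩
  obtain ⟨x, hx, hx0⟩ := intermediate_value_Icc' hab hf.continuousOn h1
  exact hne x hx hx0

theorem det_cont {W : Type*} [NormedAddCommGroup W] [NormedSpace ℝ W] [FiniteDimensional ℝ W]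
    (A B : W →ₗ[ℝ] W) : Continuous fun τ : ℝ => LinearMap.det (A + τ • B) := by
  classical
  have h : (fun τ : ℝ => LinearMap.det (A + τ • B)) = fun τ : ℝ =>
      Matrix.det (LinearMap.toMatrix (Module.finBasis ℝ W) (Module.finBasis ℝ W) A +
        τ • LinearMap.toMatrix (Module.finBasis ℝ W) (Module.finBasis ℝ W) B) := by
    funext τ
    rw [← LinearMap.det_toMatrix (Module.finBasis ℝ W), map_add, map_smul]
  rw [h]
  exact Continuous.matrix_det (continuous_const.add (continuous_id.smul continuous_const))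

/-- If the determinant has the wrong sign there is an interior conjugate point. -/
theorem exists_conj {W : Type*} [NormedAddCommGroup W] [NormedSpace ℝ W] [FiniteDimensional ℝ W]
    {N : ℕ} (hN : 0 < N) (L : ℕ → ℝ) (hL : ∀ k < N, 0 < L k) (A B : ℕ → W →ₗ[ℝ] W)
    (A0 : A 0 = 0) (B0 : B 0 = LinearMap.id)
    (step : ∀ k < N, A (k + 1) = A k + L k • B k) (AN : A N = 0)
    (hdet : (-1) ^ Module.finrank ℝ W * LinearMap.det (B (N - 1)) ≤ 0) :
    ∃ k < N, ∃ τ : ℝ, 0 < τ ∧ τ ≤ L k ∧ (k + 1 = N → τ < L k) ∧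
      ∃ δ : W, δ ≠ 0 ∧ A k δ + τ • B k δ = 0 := by
  by_contra hcon
  push Not at hcon
  have hdn : ∀ k < N, ∀ τ : ℝ, 0 < τ → τ ≤ L k → (k + 1 = N → τ < L k) →
      LinearMap.det (A k + τ • B k) ≠ 0 := by
    intro k hk τ h1 h2 h3 h4
    have h5 := LinearMap.bot_lt_ker_of_det_eq_zero h4
    obtain ⟨δ, hδ1, hδ2⟩ := (Submodule.ne_bot_iff _).1 h5.ne'
    refine hcon k hk τ h1 h2 h3 δ hδ2 ?_
    have h6 := LinearMap.mem_ker.1 hδ1
    simpa using h6
  have hc := fun k => det_cont (A k) (B k)
  -- the sign on every side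
  have hpos : ∀ k < N, ∀ τ : ℝ, 0 < τ → τ ≤ L k → (k + 1 = N → τ < L k) →
      0 < LinearMap.det (A k + τ • B k) := by
    intro k
    induction k with
    | zero =>
      intro hk τ h1 h2 h3
      rw [A0, B0, zero_add, LinearMap.det_smul, LinearMap.det_id, mul_one]
      exact pow_pos h1 _
    | succ k ih =>
      intro hk τ h1 h2 h3
      have h4 := ih (by omega) (L k) (hL k (by omega)) le_rfl (fun h => absurd h (by omega))
      rw [← step k (by omega)] at h4
      refine keep (hc (k + 1)) h1.le (by simpa using h4) ?_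
      intro x hx
      rcases eq_or_lt_of_le hx.1 with h5 | h5
      · rw [← h5, zero_smul, add_zero]; exact h4.ne'
      · exact hdn (k + 1) hk x h5 (hx.2.trans h2) (fun h => lt_of_le_of_lt hx.2 (h3 h))
  obtain ⟨m, hm⟩ : ∃ m, N = m + 1 := ⟨N - 1, by omega⟩
  have hLm := hL m (by omega)
  have h1 := hpos m (by omega) (L m / 2) (by linarith) (by linarith) (fun _ => by linarith)
  have h2 : A m = -(L m • B m) := by
    have := step m (by omega)
    rw [← hm, AN] at this
    exact eq_neg_of_add_eq_zero_left this.symm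
  have h3 : A m + (L m / 2) • B m = (-(L m / 2)) • B m := by
    rw [h2]
    module
  rw [h3, LinearMap.det_smul, neg_pow] at h1
  have h4 : N - 1 = m := by omega
  rw [h4] at hdet
  have h5 : 0 < (L m / 2) ^ Module.finrank ℝ W := pow_pos (by linarith) _
  nlinarith

end Pool.Agent.TH318.Iv
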