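import Pool.Agent.TH746.Chn
import Pool.Agent.TH318.IvE
import Pool.Agent.TH318.IvF

set_option autoImplicit false

open MeasureTheory Set Filter Topology
open scoped InnerProductSpace
open Pool.Agent.H721R2.Quart Pool.Agent.H721R2.Ivrii Pool.Agent.TH746

namespace Pool.Agent.TH318.Iv

section
variable {E : Type*} [NormedAddCommGroup E] [InnerProductSpace ℝ E]

/-- The reflection as a linear map. -/
noncomputable def rfL (n : E) : E →ₗ[ℝ] E where
  toFun := rf n
  map_add' := G3_rf_add n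
  map_smul' a v := by simpa using G3_rf_smul n a v

theorem rfL_apply (n v : E) : rfL n v = rf n v := rfl

/-- The product of the first reflections. -/
noncomputable def RR (n : ℕ → E) : ℕ → (E →ₗ[ℝ] E)
  | 0 => LinearMap.id
  | k + 1 => RR n k ∘ₗ rfL (n (k + 1))

theorem RR_zero (n : ℕ → E) (v : E) : RR n 0 v = v := rfl

theorem RR_succ (n : ℕ → E) (k : ℕ) (v : E) : RR n (k + 1) v = RR n k (rf (n (k + 1)) v) := rfl

theorem RR_inner {n : ℕ → E} {N : ℕ} (hn : ∀ k < N, ⟪n (k + 1), n (k + 1)⟫_ℝ = 1) :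
    ∀ k ≤ N, ∀ v w, ⟪RR n k v, RR n k w⟫_ℝ = ⟪v, w⟫_ℝ := by
  intro k
  induction k with
  | zero => intro _ v w; rfl
  | succ k ih =>
    intro hk v w
    rw [RR_succ, RR_succ, ih (by omega), G3_rf_inner (hn k (by omega))]

theorem RR_e {n e : ℕ → E} {N : ℕ} (hn : ∀ k < N, ⟪n (k + 1), n (k + 1)⟫_ℝ = 1)
    (he : ∀ k < N, e (k + 1) = rf (n (k + 1)) (e k)) : ∀ k ≤ N, RR n k (e k) = e 0 := by
  intro k
  induction k with
  | zero => intro _; rfl
  | succ k ih =>
    intro hk
    rw [RR_succ, he k (by omega), G3_rf_invol (hn k (by omega)), ih (by omega)]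

variable [FiniteDimensional ℝ E]

theorem det_rfL {n : E} (hn : ⟪n, n⟫_ℝ = 1) : LinearMap.det (rfL n) = -1 := by
  have hn1 : ‖n‖ = 1 := by
    rw [real_inner_self_eq_norm_sq] at hn
    nlinarith [norm_nonneg n]
  have h : rfL n = ((ℝ ∙ n)ᗮ.reflection).toLinearMap := by
    ext v
    rw [rfL_apply]
    change rf n v = (ℝ ∙ n)ᗮ.reflection v
    rw [Submodule.reflection_orthogonal_apply, Submodule.reflection_singleton_apply, hn1]
    unfold rf
    simp only [one_pow, div_one, RCLike.ofReal_real_eq_id, id]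
    module
  rw [h, Submodule.det_reflection, Submodule.orthogonal_orthogonal,
    finrank_span_singleton (by rintro rfl; simp at hn), pow_one]

theorem det_RR {n : ℕ → E} {N : ℕ} (hn : ∀ k < N, ⟪n (k + 1), n (k + 1)⟫_ℝ = 1) :
    ∀ k ≤ N, LinearMap.det (RR n k) = (-1) ^ k := by
  intro k
  induction k with
  | zero => intro _; exact LinearMap.det_id
  | succ k ih =>
    intro hk
    change LinearMap.det (RR n k ∘ₗ rfL (n (k + 1))) = _
    rw [LinearMap.det_comp, ih (by omega), det_rfL (hn k (by omega)), pow_succ]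

theorem det_perp {U : E →ₗ[ℝ] E} {e : E} (hUe : U e = e)
    (UW : (ℝ ∙ e)ᗮ →ₗ[ℝ] (ℝ ∙ e)ᗮ) (h : ∀ δ, (UW δ : E) = U δ) :
    LinearMap.det UW = LinearMap.det U := by
  let φ := Submodule.prodEquivOfIsCompl (ℝ ∙ e) (ℝ ∙ e)ᗮ (ℝ ∙ e).isCompl_orthogonal
  have h1 : U = φ.toLinearMap ∘ₗ (LinearMap.prodMap LinearMap.id UW) ∘ₗ φ.symm.toLinearMap := by
    apply LinearMap.ext
    intro v
    obtain ⟨⟨a, b⟩, rfl⟩ := φ.surjective v
    simp only [LinearMap.comp_apply, LinearEquiv.coe_coe, LinearEquiv.symm_apply_apply,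
      LinearMap.prodMap_apply, LinearMap.id_apply]
    change U (φ (a, b)) = φ (a, UW b)
    rw [show φ (a, b) = (a : E) + b from Submodule.coe_prodEquivOfIsCompl' _ _ _ _,
      show φ (a, UW b) = (a : E) + UW b from Submodule.coe_prodEquivOfIsCompl' _ _ _ _,
      map_add, h]
    congr 1
    obtain ⟨c, hc⟩ := Submodule.mem_span_singleton.1 a.2
    rw [← hc, map_smul, hUe]
  rw [h1, LinearMap.det_conj, LinearMap.det_prodMap, LinearMap.det_id, one_mul]

end

end Pool.Agent.TH318.Iv
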