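import Pool.Agent.TH318.IvG

set_option autoImplicit false

open MeasureTheory Set Filter Topology
open scoped InnerProductSpace
open Pool.Agent.H721R2.Quart Pool.Agent.H721R2.Ivrii Pool.Agent.TH746

namespace Pool.Agent.TH318.Iv

section
variable {E Z : Type*} [NormedAddCommGroup E] [InnerProductSpace ℝ E] [FiniteDimensional ℝ E]
  [NormedAddCommGroup Z] [NormedSpace ℝ Z]

omit [FiniteDimensional ℝ E] in
theorem norm_perp {e X : E} (he : ⟪e, e⟫_ℝ = 1) :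
    ‖X - ⟪e, X⟫_ℝ • e‖ ^ 2 = ‖X‖ ^ 2 - ⟪e, X⟫_ℝ ^ 2 := by
  rw [← real_inner_self_eq_norm_sq, ← real_inner_self_eq_norm_sq]
  simp only [inner_sub_left, inner_sub_right, real_inner_smul_left, real_inner_smul_right, he]
  rw [real_inner_comm e X]
  ring

/-- The component orthogonal to a vector. -/
noncomputable def PP (e : E) : E →ₗ[ℝ] E where
  toFun v := v - ⟪e, v⟫_ℝ • e
  map_add' v w := by rw [inner_add_right]; module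
  map_smul' a v := by
    simp only [inner_smul_right, RingHom.id_apply]
    module

omit [FiniteDimensional ℝ E] in
theorem PP_apply (e v : E) : PP e v = v - ⟪e, v⟫_ℝ • e := rfl

/-- The variations which vanish at the vertex `0`, unfolded. -/
theorem unf (C : Chn E Z) {z : Z} (hz : z ∈ C.U)
    (he : C.e C.N z = C.G (C.e 0 z)) (hn : C.n C.N z = C.G (C.n 0 z))
    (hX : ∀ ζ, fderiv ℝ (C.x C.N) z ζ = C.G (fderiv ℝ (C.x 0) z ζ))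
    (hE : ∀ ζ, fderiv ℝ (C.e C.N) z ζ = C.G (fderiv ℝ (C.e 0) z ζ))
    (hn' : ∀ ζ, fderiv ℝ (C.n C.N) z ζ = C.G (fderiv ℝ (C.n 0) z ζ)) :
    ∃ (σ : (ℝ ∙ C.e 0 z)ᗮ →ₗ[ℝ] Z) (A B : ℕ → (ℝ ∙ C.e 0 z)ᗮ →ₗ[ℝ] (ℝ ∙ C.e 0 z)ᗮ),
      A 0 = 0 ∧ B 0 = LinearMap.id ∧ (∀ k < C.N, A (k + 1) = A k + C.L k z • B k) ∧ A C.N = 0 ∧
      LinearMap.det (B (C.N - 1)) = (-1) ^ C.N * LinearMap.det (C.G : E →ₗ[ℝ] E) ∧
      (∀ δ, ‖B (C.N - 1) δ‖ = ‖δ‖) ∧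
      ∀ k, k + 1 < C.N → ∀ δ, ⟪C.n (k + 1) z, fderiv ℝ (C.x (k + 1)) z (σ δ)⟫_ℝ = 0 ∧
        ‖A (k + 1) δ‖ ^ 2 = ‖fderiv ℝ (C.x (k + 1)) z (σ δ)‖ ^ 2 -
          ⟪C.e k z, fderiv ℝ (C.x (k + 1)) z (σ δ)⟫_ℝ ^ 2 ∧
        ⟪A (k + 1) δ, B (k + 1) δ⟫_ℝ = ⟪A (k + 1) δ, B k δ⟫_ℝ + 2 * ⟪C.n (k + 1) z, C.e k z⟫_ℝ *
          ⟪C.S (k + 1) z (fderiv ℝ (C.x (k + 1)) z (σ δ)),
            fderiv ℝ (C.x (k + 1)) z (σ δ)⟫_ℝ := by
  have hN := C.hN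
  obtain ⟨X, hXd⟩ : ∃ X : ℕ → Z →ₗ[ℝ] E, ∀ k ζ, X k ζ = fderiv ℝ (C.x k) z ζ :=
    ⟨fun k => (fderiv ℝ (C.x k) z : Z →ₗ[ℝ] E), fun k ζ => rfl⟩
  obtain ⟨D, hDd⟩ : ∃ D : ℕ → Z →ₗ[ℝ] E, ∀ k ζ, D k ζ = fderiv ℝ (C.e k) z ζ :=
    ⟨fun k => (fderiv ℝ (C.e k) z : Z →ₗ[ℝ] E), fun k ζ => rfl⟩
  obtain ⟨n, hnd⟩ : ∃ n : ℕ → E, ∀ k, n k = C.n k z := ⟨fun k => C.n k z, fun k => rfl⟩
  obtain ⟨e, hed⟩ : ∃ e : ℕ → E, ∀ k, e k = C.e k z := ⟨fun k => C.e k z, fun k => rfl⟩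
  obtain ⟨L, hLd⟩ : ∃ L : ℕ → ℝ, ∀ k, L k = C.L k z := ⟨fun k => C.L k z, fun k => rfl⟩
  have ee : ∀ k < C.N, ⟪e k, e k⟫_ℝ = 1 := fun k hk => by rw [hed]; exact C.ee k hk z hz
  have nn : ∀ k < C.N, ⟪n (k + 1), n (k + 1)⟫_ℝ = 1 := by
    intro k hk
    rw [hnd]
    rcases Nat.lt_or_ge (k + 1) C.N with h | h
    · exact C.nn (k + 1) h z hz
    · have h2 : k + 1 = C.N := by omega
      rw [h2, hn, C.G_iso]
      exact C.nn 0 hN z hz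
  have refl : ∀ k < C.N, e (k + 1) = rf (n (k + 1)) (e k) := by
    intro k hk
    rw [hed, hed, hnd]
    exact C.refl k hk z
  have eD : ∀ k < C.N, ∀ ζ, ⟪e k, D k ζ⟫_ℝ = 0 := by
    intro k hk ζ
    rw [hDd, hed]
    exact G3_unit C.hU hz (C.de k hk.le z hz) (C.ee k hk) ζ
  have nX : ∀ k < C.N, ∀ ζ, ⟪n (k + 1), X (k + 1) ζ⟫_ℝ = 0 := by
    intro k hk ζ
    rw [hnd, hXd]
    rcases Nat.lt_or_ge (k + 1) C.N with h | h
    · exact C.tan (k + 1) h z hz ζ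
    · have h2 : k + 1 = C.N := by omega
      rw [h2, hn, hX, C.G_iso]
      exact C.tan 0 hN z hz ζ
  have step : ∀ k < C.N, ∀ ζ, ∃ ℓ : ℝ, X (k + 1) ζ = X k ζ + ℓ • e k + L k • D k ζ := by
    intro k hk ζ
    refine ⟨fderiv ℝ (C.L k) z ζ, ?_⟩
    rw [hXd, hXd, hDd, hed, hLd]
    exact G3_step C.hU hz (C.dx k hk.le z hz) (C.de k hk.le z hz)
        (C.dL k hk z hz) (fun z _ => C.step k hk z) ζ
  have rjac : ∀ k < C.N, ∀ ζ, D (k + 1) ζ = rf (n (k + 1)) (D k ζ)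
      - (2 * ⟪fderiv ℝ (C.n (k + 1)) z ζ, e k⟫_ℝ) • n (k + 1)
      - (2 * ⟪n (k + 1), e k⟫_ℝ) • fderiv ℝ (C.n (k + 1)) z ζ := by
    intro k hk ζ
    have h1 : C.e (k + 1) = fun z => rf (C.n (k + 1) z) (C.e k z) := by
      funext z; exact C.refl k (by omega) z
    have h2 := G3_rf_fderiv (C.dn (k + 1) (by omega) z hz) (C.de k (by omega) z hz) ζ
    rw [← h1] at h2
    rw [hDd, hDd, hed, hnd]
    exact h2
  -- the section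
  obtain ⟨σ, hσ⟩ : ∃ σ : (ℝ ∙ C.e 0 z)ᗮ →ₗ[ℝ] Z, ∀ δ, X 0 (σ δ) = 0 ∧ D 0 (σ δ) = δ := by
    have hmem : ∀ ζ, D 0 ζ ∈ (ℝ ∙ C.e 0 z)ᗮ := by
      intro ζ
      rw [Submodule.mem_orthogonal_singleton_iff_inner_right, ← hed]
      exact eD 0 hN ζ
    obtain ⟨f, hf⟩ : ∃ f : LinearMap.ker (X 0) →ₗ[ℝ] (ℝ ∙ C.e 0 z)ᗮ, ∀ ζ, (f ζ : E) = D 0 ζ :=
      ⟨LinearMap.codRestrict _ (D 0 ∘ₗ (LinearMap.ker (X 0)).subtype) (fun ζ => hmem ζ),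
        fun ζ => rfl⟩
    have hfs : Function.Surjective f := by
      intro δ
      obtain ⟨ζ, h1, h2⟩ := C.surj z hz 0 (δ : E) (inner_zero_right _)
        (Submodule.mem_orthogonal_singleton_iff_inner_right.1 δ.2)
      refine ⟨⟨ζ, ?_⟩, ?_⟩
      · rw [LinearMap.mem_ker, hXd]; exact h1
      · apply Subtype.ext
        rw [hf, hDd]; exact h2
    obtain ⟨g, hg⟩ := f.exists_rightInverse_of_surjective (LinearMap.range_eq_top.2 hfs)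
    refine ⟨(LinearMap.ker (X 0)).subtype ∘ₗ g, fun δ => ⟨?_, ?_⟩⟩
    · exact (g δ).2
    · have h1 := congrArg (fun T : (ℝ ∙ C.e 0 z)ᗮ →ₗ[ℝ] (ℝ ∙ C.e 0 z)ᗮ => (T δ : E)) hg
      simp only [LinearMap.comp_apply, LinearMap.id_apply, hf] at h1
      exact h1
  -- the projection
  have e0 : ⟪e 0, e 0⟫_ℝ = 1 := ee 0 hN
  obtain ⟨pW, hpW⟩ : ∃ pW : E →ₗ[ℝ] (ℝ ∙ C.e 0 z)ᗮ, ∀ v, ⟪e 0, v⟫_ℝ = 0 → (pW v : E) = v := by
    refine ⟨LinearMap.codRestrict _ (PP (e 0)) (fun v => ?_), fun v hv => ?_⟩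
    · rw [Submodule.mem_orthogonal_singleton_iff_inner_right, ← hed, PP_apply, inner_sub_right,
        inner_smul_right, e0]
      ring
    · change PP (e 0) v = v
      rw [PP_apply, hv]; simp
  have RI := RR_inner nn
  have Re := RR_e nn refl
  obtain ⟨A, hA⟩ : ∃ A : ℕ → (ℝ ∙ C.e 0 z)ᗮ →ₗ[ℝ] (ℝ ∙ C.e 0 z)ᗮ,
      ∀ k, A k = pW ∘ₗ RR n k ∘ₗ PP (e k) ∘ₗ X k ∘ₗ σ := ⟨_, fun k => rfl⟩
  obtain ⟨B, hB⟩ : ∃ B : ℕ → (ℝ ∙ C.e 0 z)ᗮ →ₗ[ℝ] (ℝ ∙ C.e 0 z)ᗮ,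
      ∀ k, B k = pW ∘ₗ RR n k ∘ₗ D k ∘ₗ σ := ⟨_, fun k => rfl⟩
  have ee' : ∀ k ≤ C.N, ⟪e k, e k⟫_ℝ = 1 := by
    intro k hk
    rcases Nat.lt_or_ge k C.N with h | h
    · exact ee k h
    · have h2 : k = C.N := by omega
      rw [h2, hed, he, C.G_iso, ← hed]; exact e0
  have Av : ∀ k ≤ C.N, ∀ δ, (A k δ : E) = RR n k (PP (e k) (X k (σ δ))) := by
    intro k hk δ
    rw [hA]
    refine hpW (RR n k (PP (e k) (X k (σ δ)))) ?_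
    rw [← Re k hk, RI k hk, PP_apply, inner_sub_right, inner_smul_right, ee' k hk]
    ring
  have Bv : ∀ k < C.N, ∀ δ, (B k δ : E) = RR n k (D k (σ δ)) := by
    intro k hk δ
    rw [hB]
    refine hpW (RR n k (D k (σ δ))) ?_
    rw [← Re k hk.le, RI k hk.le]
    exact eD k hk _
  -- the two perpendicular components at a vertex
  have nxt : ∀ k < C.N, ∀ δ, (A (k + 1) δ : E) = RR n k (PP (e k) (X (k + 1) (σ δ))) := by
    intro k hk δ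
    rw [Av (k + 1) hk, RR_succ]
    congr 1
    have h1 : ⟪e (k + 1), X (k + 1) (σ δ)⟫_ℝ = ⟪e k, X (k + 1) (σ δ)⟫_ℝ := by
      rw [refl k hk, G3_rf_sym, G3_rf_tan (nX k hk _)]
    rw [PP_apply, PP_apply, h1, G3_rf_sub, G3_rf_smul, G3_rf_tan (nX k hk _), refl k hk,
      G3_rf_invol (nn k hk)]
  have A0 : A 0 = 0 := by
    apply LinearMap.ext
    intro δ
    apply Subtype.ext
    rw [Av 0 (Nat.zero_le _), (hσ δ).1, map_zero, map_zero]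
    rfl
  have B0 : B 0 = LinearMap.id := by
    apply LinearMap.ext
    intro δ
    apply Subtype.ext
    rw [Bv 0 hN, (hσ δ).2]
    rfl
  have AN : A C.N = 0 := by
    apply LinearMap.ext
    intro δ
    apply Subtype.ext
    have h1 : X C.N (σ δ) = 0 := by
      rw [hXd, hX, ← hXd, (hσ δ).1, map_zero]
    rw [Av C.N le_rfl, h1, map_zero, map_zero]
    rfl
  have stp : ∀ k < C.N, A (k + 1) = A k + C.L k z • B k := by
    intro k hk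
    apply LinearMap.ext
    intro δ
    apply Subtype.ext
    rw [nxt k hk]
    simp only [LinearMap.add_apply, LinearMap.smul_apply, Submodule.coe_add, Submodule.coe_smul]
    rw [Av k hk.le, Bv k hk, ← hLd, ← map_smul, ← map_add]
    congr 1
    obtain ⟨ℓ, hl⟩ := step k hk (σ δ)
    rw [PP_apply, PP_apply, hl]
    simp only [inner_add_right, inner_smul_right, ee k hk, eD k hk]
    module
  -- the last side
  obtain ⟨m, hm⟩ : ∃ m, C.N = m + 1 := ⟨C.N - 1, by omega⟩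
  have hm' : C.N - 1 = m := by omega
  obtain ⟨U, hU⟩ : ∃ U : E →ₗ[ℝ] E, U = RR n C.N ∘ₗ (C.G : E →ₗ[ℝ] E) := ⟨_, rfl⟩
  have Ua : ∀ v, U v = RR n C.N (C.G v) := by intro v; rw [hU]; rfl
  have Ue : U (C.e 0 z) = C.e 0 z := by
    rw [Ua, ← he, ← hed, Re C.N le_rfl, hed]
  have Bl : ∀ δ, (B m δ : E) = U δ := by
    intro δ
    have h0 : fderiv ℝ (C.n C.N) z (σ δ) = 0 := by
      rw [hn', C.njac 0 hN z hz, ← hXd, (hσ δ).1, map_zero, neg_zero, map_zero]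
    have h1 := rjac m (by omega) (σ δ)
    rw [← hm, h0, inner_zero_left, mul_zero, zero_smul, sub_zero, smul_zero, sub_zero] at h1
    have h2 : rf (n C.N) (D C.N (σ δ)) = D m (σ δ) := by
      rw [h1, hm]
      exact G3_rf_invol (nn m (by omega)) _
    have h3 : D C.N (σ δ) = C.G δ := by
      rw [hDd, hE, ← hDd, (hσ δ).2]
    rw [Bv m (by omega), Ua, ← h3, ← h2, hm, RR_succ]
  refine ⟨σ, A, B, A0, B0, stp, AN, ?_, ?_, ?_⟩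
  · rw [hm', det_perp Ue (B m) Bl, hU, LinearMap.det_comp, det_RR nn C.N le_rfl]
  · intro δ
    have h1 : ⟪(B m δ : E), (B m δ : E)⟫_ℝ = ⟪(δ : E), (δ : E)⟫_ℝ := by
      rw [Bl, Ua, RI C.N le_rfl, C.G_iso]
    rw [real_inner_self_eq_norm_sq, real_inner_self_eq_norm_sq] at h1
    rw [hm']
    exact (pow_left_inj₀ (norm_nonneg _) (norm_nonneg _) two_ne_zero).1 h1
  · intro k hk δ
    have hk' : k < C.N := by omega
    have e1 : ⟪n (k + 1), X (k + 1) (σ δ)⟫_ℝ = 0 := nX k hk' (σ δ)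
    have e2 : ‖A (k + 1) δ‖ ^ 2 = ‖X (k + 1) (σ δ)‖ ^ 2 - ⟪e k, X (k + 1) (σ δ)⟫_ℝ ^ 2 := by
      rw [← norm_perp (ee k hk'), ← real_inner_self_eq_norm_sq, ← real_inner_self_eq_norm_sq,
        Submodule.coe_inner, nxt k hk', RI k hk'.le]
      rfl
    have e3 : ⟪A (k + 1) δ, B (k + 1) δ⟫_ℝ = ⟪A (k + 1) δ, B k δ⟫_ℝ +
        2 * ⟪n (k + 1), e k⟫_ℝ * ⟪C.S (k + 1) z (X (k + 1) (σ δ)), X (k + 1) (σ δ)⟫_ℝ := by
      rw [Submodule.coe_inner, Submodule.coe_inner, Bv (k + 1) hk, Bv k hk']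
      have e4 : ⟪(A (k + 1) δ : E), RR n k (D k (σ δ))⟫_ℝ = ⟪X (k + 1) (σ δ), D k (σ δ)⟫_ℝ := by
        rw [nxt k hk', RI k hk'.le, PP_apply, inner_sub_left, real_inner_smul_left, eD k hk']
        ring
      have e5 : ⟪(A (k + 1) δ : E), RR n (k + 1) (D (k + 1) (σ δ))⟫_ℝ =
          ⟪X (k + 1) (σ δ), D (k + 1) (σ δ)⟫_ℝ := by
        rw [Av (k + 1) hk', RI (k + 1) hk', PP_apply, inner_sub_left, real_inner_smul_left,
          eD (k + 1) hk]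
        ring
      rw [e4, e5, rjac k hk' (σ δ), C.njac (k + 1) hk z hz, ← hXd]
      rw [inner_sub_right, inner_sub_right, inner_smul_right, inner_smul_right,
        ← G3_rf_sym, G3_rf_tan e1, real_inner_comm (n (k + 1)) (X (k + 1) (σ δ)), e1,
        inner_neg_right, real_inner_comm (C.S (k + 1) z (X (k + 1) (σ δ))) (X (k + 1) (σ δ))]
      ring
    rw [hnd, hXd] at e1
    rw [hXd, hed] at e2
    rw [hnd, hed, hXd] at e3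
    exact ⟨e1, e2, e3⟩

end

end Pool.Agent.TH318.Iv
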