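import Pool.Agent.TH318.IvH

set_option autoImplicit false

open MeasureTheory Set Filter Topology
open scoped InnerProductSpace
open Pool.Agent.H721R2.Quart Pool.Agent.H721R2.Ivrii Pool.Agent.TH746

namespace Pool.Agent.TH318.Iv

section
variable {E Z : Type*} [NormedAddCommGroup E] [InnerProductSpace ℝ E]
  [NormedAddCommGroup Z] [NormedSpace ℝ Z]

/-- The bounce `k + 1` of the chain has focusing strength at most `β` off `r` directions. -/
def CF (C : Chn E Z) (z : Z) (k r : ℕ) (β : ℝ) : Prop :=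
  ∃ a : Fin r → E, ∀ w, ⟪C.n (k + 1) z, w⟫_ℝ = 0 → (∀ i, ⟪a i, w⟫_ℝ = 0) →
    -(2 * ⟪C.n (k + 1) z, C.e k z⟫_ℝ * ⟪C.S (k + 1) z w, w⟫_ℝ) ≤
        β * (‖w‖ ^ 2 - ⟪C.e k z, w⟫_ℝ ^ 2)

/-- Weak focusing of the trajectory at `z`. -/
def BadC (C : Chn E Z) (z : Z) (s : ℕ → ℝ) : Prop :=
  (∃ (r : ℕ → ℕ) (β : ℕ → ℝ),
    (∀ k, k + 1 < C.N → 0 ≤ β (k + 1) ∧ CF C z k (r (k + 1)) (β (k + 1))) ∧
    ∑ k ∈ Finset.Ioo 0 C.N, r k + 2 ≤ Module.finrank ℝ E ∧
    ∑ k ∈ Finset.Ioo 0 C.N, β k * (s k * (s C.N - s k)) < s C.N) ∨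
  ((-1) ^ C.N * LinearMap.det (C.G : E →ₗ[ℝ] E) = (-1) ^ Module.finrank ℝ E ∧
    ∀ t, 0 < t → t < s C.N →
      (∃ β : ℕ → ℝ, (∀ k, k + 1 < C.N → s (k + 1) < t →
          0 ≤ β (k + 1) ∧ CF C z k 0 (β (k + 1))) ∧
        ∑ k ∈ (Finset.Ioo 0 C.N).filter (fun k => s k < t), β k * (s k * (t - s k)) < t) ∨
      (∃ β : ℕ → ℝ, (∀ k, k + 1 < C.N → t < s (k + 1) →
          0 ≤ β (k + 1) ∧ CF C z k 0 (β (k + 1))) ∧
        ∑ k ∈ (Finset.Ioo 0 C.N).filter (fun k => t < s k), β k * ((s k - t) * (s C.N - s k)) <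
          s C.N - t))

variable [FiniteDimensional ℝ E]

/-- At a point where all variations close the focusing is not weak. -/
theorem not_bad (C : Chn E Z) {z : Z} (hz : z ∈ C.U)
    (he : C.e C.N z = C.G (C.e 0 z)) (hn : C.n C.N z = C.G (C.n 0 z))
    (hX : ∀ ζ, fderiv ℝ (C.x C.N) z ζ = C.G (fderiv ℝ (C.x 0) z ζ))
    (hE : ∀ ζ, fderiv ℝ (C.e C.N) z ζ = C.G (fderiv ℝ (C.e 0) z ζ))
    (hn' : ∀ ζ, fderiv ℝ (C.n C.N) z ζ = C.G (fderiv ℝ (C.n 0) z ζ)) :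
    ¬ BadC C z (fun k => ∑ j ∈ Finset.range k, C.L j z) := by
  obtain ⟨σ, A, B, A0, B0, stp, AN, hdB, hnB, hk⟩ := unf C hz he hn hX hE hn'
  obtain ⟨s, hs⟩ : ∃ s : ℕ → ℝ, s = fun k => ∑ j ∈ Finset.range k, C.L j z := ⟨_, rfl⟩
  have hse : ∀ k, ∑ j ∈ Finset.range k, C.L j z = s k := fun k => by rw [hs]
  rw [← hs]
  have hN := C.hN
  have hLp : ∀ k < C.N, 0 < C.L k z := fun k hk => C.Lpos k hk z hz
  have hfr : Module.finrank ℝ (ℝ ∙ C.e 0 z)ᗮ + 1 = Module.finrank ℝ E := by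
    have h1 := Submodule.finrank_add_finrank_orthogonal (ℝ ∙ (C.e 0 z))
    have h2 : Module.finrank ℝ (ℝ ∙ (C.e 0 z)) = 1 := by
      refine finrank_span_singleton fun h0 => ?_
      have h6 := C.ee 0 C.hN z hz
      rw [h0, inner_zero_left] at h6
      exact zero_ne_one h6
    omega
  have hs1 : ∀ k, s (k + 1) = s k + C.L k z := by
    intro k; rw [hs]; simp only; rw [Finset.sum_range_succ]
  have smono : ∀ a b, a ≤ b → b ≤ C.N → s a ≤ s b := by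
    intro a b hab hb
    rw [hs]
    exact Finset.sum_le_sum_of_subset_of_nonneg (Finset.range_mono hab)
      fun j hj _ => (hLp j (by have := Finset.mem_range.1 hj; omega)).le
  -- a kick
  have kick : ∀ (δ : (ℝ ∙ C.e 0 z)ᗮ) (k : ℕ), k + 1 < C.N → ∀ β : ℝ,
      (-(2 * ⟪C.n (k + 1) z, C.e k z⟫_ℝ * ⟪C.S (k + 1) z (fderiv ℝ (C.x (k + 1)) z (σ δ)),
        fderiv ℝ (C.x (k + 1)) z (σ δ)⟫_ℝ) ≤ β * (‖fderiv ℝ (C.x (k + 1)) z (σ δ)‖ ^ 2 -
          ⟪C.e k z, fderiv ℝ (C.x (k + 1)) z (σ δ)⟫_ℝ ^ 2)) →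
      ⟪A (k + 1) δ, B k δ⟫_ℝ - β * ‖A (k + 1) δ‖ ^ 2 ≤ ⟪A (k + 1) δ, B (k + 1) δ⟫_ℝ := by
    intro δ k hk' β h
    obtain ⟨-, e2, e3⟩ := hk k hk' δ
    rw [e3, e2]
    linarith
  rintro (⟨r, β, hβ, hr, hw⟩ | ⟨hpar, hw⟩)
  · -- the functionals
    have h1 : ∀ k, k + 1 < C.N → ∃ a : Fin (r (k + 1)) → E, ∀ w, ⟪C.n (k + 1) z, w⟫_ℝ = 0 →
        (∀ i, ⟪a i, w⟫_ℝ = 0) → -(2 * ⟪C.n (k + 1) z, C.e k z⟫_ℝ * ⟪C.S (k + 1) z w, w⟫_ℝ) ≤
        β (k + 1) * (‖w‖ ^ 2 - ⟪C.e k z, w⟫_ℝ ^ 2) := fun k hk => (hβ k hk).2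
    choose! a ha using h1
    obtain ⟨Φ, hΦ⟩ : ∃ Φ : (ℝ ∙ C.e 0 z)ᗮ →ₗ[ℝ] ((k : Fin (C.N - 1)) × Fin (r (k + 1)) → ℝ),
        ∀ δ k i, Φ δ ⟨k, i⟩ = ⟪a k i, fderiv ℝ (C.x (k + 1)) z (σ δ)⟫_ℝ :=
      ⟨LinearMap.pi fun q => (innerₛₗ ℝ (a q.1 q.2)) ∘ₗ
        (fderiv ℝ (C.x (q.1 + 1)) z : Z →ₗ[ℝ] E) ∘ₗ σ, fun δ k i => rfl⟩
    have hcard : Module.finrank ℝ ((k : Fin (C.N - 1)) × Fin (r (k + 1)) → ℝ) =
        ∑ k ∈ Finset.Ioo 0 C.N, r k := by
      rw [Module.finrank_fintype_fun_eq_card, Fintype.card_sigma]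
      simp only [Fintype.card_fin]
      have h2 : Finset.Ioo 0 C.N = Finset.Ico 1 C.N := by
        ext j; simp only [Finset.mem_Ioo, Finset.mem_Ico]; omega
      rw [h2, Finset.sum_Ico_eq_sum_range, ← Fin.sum_univ_eq_sum_range (fun k => r (1 + k))]
      refine Finset.sum_congr rfl fun k _ => ?_
      rw [add_comm]
    have hker := LinearMap.ker_ne_bot_of_finrank_lt (f := Φ) (by rw [hcard]; omega)
    obtain ⟨δ, hδ1, hδ2⟩ := (Submodule.ne_bot_iff _).1 hker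
    have h2 := broken (fun k => C.L k z) β (fun k => A k δ) (fun k => B k δ) (N := C.N)
      (fun k hk => (hLp k hk).le) (by rw [A0]; rfl) (by rw [AN]; rfl)
      (fun k hk => by rw [stp k hk]; rfl)
      (fun k hk' => ⟨(hβ k hk').1, kick δ k hk' _ (ha k hk' _ (hk k hk' δ).1 (fun i => by
        have h3 := congrFun (LinearMap.mem_ker.1 hδ1) ⟨⟨k, by omega⟩, i⟩
        rw [hΦ] at h3
        exact h3))⟩)
      (by simp only [hse]; exact hw) 0 hN (hLp 0 hN)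
    rw [B0] at h2
    exact hδ2 h2
  · -- the interior zero
    have hdet : (-1) ^ Module.finrank ℝ (ℝ ∙ C.e 0 z)ᗮ * LinearMap.det (B (C.N - 1)) ≤ 0 := by
      rw [hdB, hpar, ← hfr, pow_succ, ← mul_assoc, ← pow_add, ← two_mul, pow_mul]
      norm_num
    obtain ⟨m, hm, τ, hτ0, hτ1, hτ2, δ, hδ, hδz⟩ :=
      exists_conj hN (fun k => C.L k z) hLp A B A0 B0 stp AN hdet
    have hms : s m + τ ≤ s (m + 1) := by rw [hs1]; linarith
    have hs0 : 0 ≤ s m := by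
      have := smono 0 m (Nat.zero_le _) hm.le
      have h0 : s 0 = 0 := by rw [hs]; simp
      linarith
    have htN : s m + τ < s C.N := by
      rcases Nat.lt_or_ge (m + 1) C.N with h | h
      · have h2 := smono (m + 1 + 1) C.N h le_rfl
        have h3 := hs1 (m + 1)
        have h4 := hLp (m + 1) h
        linarith
      · have h2 : m + 1 = C.N := by omega
        have h3 := hs1 m
        have h4 := hτ2 h2
        rw [h2] at h3
        linarith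
    have hCF0 : ∀ k β', CF C z k 0 β' → ∀ w, ⟪C.n (k + 1) z, w⟫_ℝ = 0 →
        -(2 * ⟪C.n (k + 1) z, C.e k z⟫_ℝ * ⟪C.S (k + 1) z w, w⟫_ℝ) ≤
        β' * (‖w‖ ^ 2 - ⟪C.e k z, w⟫_ℝ ^ 2) := by
      rintro k β' ⟨a, ha⟩ w hw'
      exact ha w hw' (fun i => i.elim0)
    rcases hw (s m + τ) (by linarith) htN with ⟨β, hβ, hsum⟩ | ⟨β, hβ, hsum⟩
    · have h2 := broken_left (fun k => C.L k z) β (fun k => A k δ) (fun k => B k δ) (m := m) hτ0
        (fun k hk => hLp k (by omega)) (by rw [A0]; rfl) hδz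
        (fun k hk => by rw [stp k (by omega)]; rfl)
        (fun k hk' => by
          have h3 : s (k + 1) < s m + τ := by
            have := smono (k + 1) m hk' hm.le
            linarith
          have h4 := hβ k (by omega) h3
          exact ⟨h4.1, kick δ k (by omega) _ (hCF0 k _ h4.2 _ (hk k (by omega) δ).1)⟩)
        (by
          simp only [hse]
          refine lt_of_le_of_lt (le_of_eq ?_) hsum
          refine Finset.sum_congr ?_ fun k _ => rfl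
          ext k
          simp only [Finset.mem_Ioo, Finset.mem_filter]
          constructor
          · rintro ⟨h3, h4⟩
            refine ⟨⟨h3, by omega⟩, ?_⟩
            have := smono k m (by omega) hm.le
            linarith
          · rintro ⟨⟨h3, h4⟩, h5⟩
            refine ⟨h3, ?_⟩
            by_contra hcon
            have := smono (m + 1) k (by omega) h4.le
            linarith)
      rw [B0] at h2
      exact hδ h2
    · have h2 := broken_right hm (fun k => C.L k z) β (fun k => A k δ) (fun k => B k δ) hτ0 hτ1 hτ2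
        hLp (by rw [AN]; rfl) hδz (fun k hk => by rw [stp k hk]; rfl)
        (fun k hk' h3 => by
          simp only [hse] at h3
          have h4 := hβ k hk' h3
          exact ⟨h4.1, kick δ k hk' _ (hCF0 k _ h4.2 _ (hk k hk' δ).1)⟩)
        (by simp only [hse]; exact hsum)
      have h3 := hnB δ
      rw [h2, norm_zero] at h3
      exact hδ (norm_eq_zero.1 h3.symm)

end

end Pool.Agent.TH318.Iv
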