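import Pool.Agent.TH318.IvJ

set_option autoImplicit false

open MeasureTheory Set Filter Topology
open scoped InnerProductSpace
open Pool.Agent.H721R2.Quart Pool.Agent.H721R2.Ivrii Pool.Agent.TH746

namespace Pool.Agent.TH318.Iv

theorem two_mem {S : Set ℕ} (hS : S.Finite) (h : S.ncard ≤ 2) (i : ℕ) (hi : i ∈ S) :
    ∃ j, S ⊆ {i, j} := by
  by_cases h1 : ∃ j ∈ S, j ≠ i
  · obtain ⟨j, hj, hji⟩ := h1
    refine ⟨j, fun k hk => ?_⟩
    by_contra hcon
    simp only [mem_insert_iff, mem_singleton_iff, not_or] at hcon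
    have h2 : ({i, j, k} : Set ℕ) ⊆ S := by
      intro x hx
      simp only [mem_insert_iff, mem_singleton_iff] at hx
      rcases hx with rfl | rfl | rfl <;> assumption
    have h3 := Set.ncard_le_ncard h2 hS
    have h4 : ({i, j, k} : Set ℕ).ncard = 3 := by
      rw [Set.ncard_eq_three]
      exact ⟨i, j, k, hji.symm, fun h => hcon.1 h.symm, fun h => hcon.2 h.symm, rfl⟩
    omega
  · push Not at h1
    exact ⟨i, fun k hk => by simp [h1 k hk]⟩

section
variable {E : Type*} [NormedAddCommGroup E] [InnerProductSpace ℝ E] [FiniteDimensional ℝ E]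

theorem pos_n_pos {Ω : Set E} {g : E ≃ᵃⁱ[ℝ] E} {n : ℕ} {p u : ℕ → E} (h : OrbitMod Ω g n p u)
    (i : ℕ) : 0 < pos (fun k => p (k + i)) n := by
  have hunit := unit_steps h.step h.unit
  refine Finset.sum_pos (fun j hj => ?_) ⟨0, Finset.mem_range.2 h.pos⟩
  obtain ⟨t, ht, hq, -⟩ := h.step (j + i)
  change 0 < ‖p (j + 1 + i) - p (j + i)‖
  rw [show j + 1 + i = j + i + 1 by ring, hq, add_sub_cancel_left, norm_smul]
  have h2 : ‖u (j + i)‖ = 1 := by
    have h5 := hunit (j + i)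
    rw [real_inner_self_eq_norm_sq] at h5
    nlinarith [norm_nonneg (u (j + i))]
  rw [h2, mul_one]
  exact norm_pos_iff.2 ht.ne'

theorem few_sub (hd : 2 ≤ Module.finrank ℝ E) (Ω : Set E) (Γ : Set (E ≃ᵃⁱ[ℝ] E))
    (hinv : ∀ g ∈ Γ, g ⁻¹' Ω = Ω) : FewPer Γ Ω ⊆ WeakPer Γ Ω := by
  rintro z ⟨g, hgΓ, n, p, u, h, hz, hcase⟩
  have hg := hinv g hgΓ
  have hn := h.pos
  have hfin : {k | k < n ∧ ¬ NonFocusing Ω (p k)}.Finite :=
    (Set.finite_Iio n).subset fun k hk => hk.1
  -- invariance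
  have hinvN : ∀ k, NonFocusing Ω (p k) → NonFocusing Ω (p (k + n)) := by
    intro k hk
    rw [h.perp]
    have h6 : NonFocusing Ω (g.symm (g (p k))) := by rw [g.symm_apply_apply]; exact hk
    have h7 := h6.comp g.symm
    rwa [preimage_symm hg] at h7
  have hlen := pos_n_pos h
  rcases hcase with hc | ⟨hpar, hc⟩
  · -- at most one focusing bounce
    obtain ⟨i, hin, hi⟩ : ∃ i < n, ∀ k < n, k ≠ i → NonFocusing Ω (p k) := by
      by_cases h1 : ∃ i, i < n ∧ ¬ NonFocusing Ω (p i)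
      · obtain ⟨i, hi1, hi2⟩ := h1
        refine ⟨i, hi1, fun k hk hki => ?_⟩
        by_contra hcon
        exact hki ((Set.ncard_le_one hfin).1 hc k ⟨hk, hcon⟩ i ⟨hi1, hi2⟩)
      · push Not at h1
        exact ⟨0, hn, fun k hk _ => h1 k hk⟩
    refine ⟨g, hgΓ, n, p, u, i, h, hz, hin, Or.inl ⟨fun _ => 0, fun _ => 0, ?_, ?_, ?_⟩⟩
    · intro k hk1 hk2
      refine ⟨le_rfl, NonFocusing.focLe ?_ _⟩
      change NonFocusing Ω (p (k + i))
      rcases Nat.lt_or_ge (k + i) n with h1 | h1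
      · exact hi _ h1 (by omega)
      · have e : k + i = (k + i - n) + n := by omega
        rw [e]
        exact hinvN _ (hi _ (by omega) (by omega))
    · simpa using hd
    · simpa using hlen i
  · -- at most two
    by_cases h1 : ∃ i, i < n ∧ ¬ NonFocusing Ω (p i)
    · obtain ⟨i, hi1, hi2⟩ := h1
      obtain ⟨j, hj⟩ := two_mem hfin hc i ⟨hi1, hi2⟩
      have hij : ∀ k < n, k ≠ i → k ≠ j → NonFocusing Ω (p k) := by
        intro k hk h3 h4
        by_contra hcon
        have := hj (a := k) ⟨hk, hcon⟩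
        simp only [mem_insert_iff, mem_singleton_iff] at this
        rcases this with h5 | h5
        · exact h3 h5
        · exact h4 h5
      -- the place of the second focusing bounce
      obtain ⟨m, hm⟩ : ∃ m, ∀ k, 0 < k → k < n → k ≠ m → NonFocusing Ω (p (k + i)) := by
        refine ⟨if i ≤ j then j - i else j + n - i, fun k hk1 hk2 hkm => ?_⟩
        rcases Nat.lt_or_ge (k + i) n with h3 | h3
        · refine hij _ h3 (by omega) ?_
          intro h4
          apply hkm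
          rw [if_pos (by omega)]
          omega
        · have e : k + i = (k + i - n) + n := by omega
          rw [e]
          refine hinvN _ (hij _ (by omega) (by omega) ?_)
          intro h4
          apply hkm
          rw [if_neg (by omega)]
          omega
      refine ⟨g, hgΓ, n, p, u, i, h, hz, hi1, Or.inr ⟨hpar, fun t ht0 ht1 => ?_⟩⟩
      rcases lt_or_ge (pos (fun k => p (k + i)) m) t with h3 | h3
      · right
        refine ⟨fun _ => 0, fun k hk1 hk2 hk3 hk4 => ⟨le_rfl, NonFocusing.focLe (hm k hk1 hk2 ?_) _⟩,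
          ?_⟩
        · rintro rfl
          exact absurd h3 (not_lt.2 hk3.le)
        · simpa using ht1
      · left
        refine ⟨fun _ => 0, fun k hk1 hk2 hk3 hk4 => ⟨le_rfl, NonFocusing.focLe (hm k hk1 hk2 ?_) _⟩,
          ?_⟩
        · rintro rfl
          exact absurd hk4 (not_lt.2 h3)
        · simpa using ht0
    · push Not at h1
      refine ⟨g, hgΓ, n, p, u, 0, h, hz, hn, Or.inl ⟨fun _ => 0, fun _ => 0, ?_, ?_, ?_⟩⟩
      · intro k hk1 hk2
        exact ⟨le_rfl, NonFocusing.focLe (h1 k hk2) _⟩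
      · simpa using hd
      · simpa using hlen 0

/-- The length of a period does not depend on the starting bounce. -/
theorem pos_shift {Ω : Set E} {g : E ≃ᵃⁱ[ℝ] E} {n : ℕ} {p u : ℕ → E} (h : OrbitMod Ω g n p u)
    (i : ℕ) : pos (fun k => p (k + i)) n = pos p n := by
  induction i with
  | zero => rfl
  | succ i ih =>
    rw [← ih]
    obtain ⟨f, hf⟩ : ∃ f : ℕ → ℝ, f = fun j => ‖p (j + 1 + i) - p (j + i)‖ := ⟨_, rfl⟩
    have h1 : pos (fun k => p (k + (i + 1))) n = ∑ j ∈ Finset.range n, f (j + 1) := by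
      unfold pos
      refine Finset.sum_congr rfl fun j _ => ?_
      rw [hf]
      change ‖p (j + 1 + (i + 1)) - p (j + (i + 1))‖ = ‖p (j + 1 + 1 + i) - p (j + 1 + i)‖
      rw [show j + 1 + (i + 1) = j + 1 + 1 + i by ring, show j + (i + 1) = j + 1 + i by ring]
    have h2 : pos (fun k => p (k + i)) n = ∑ j ∈ Finset.range n, f j := by
      unfold pos
      rw [hf]
    have h3 : f n = f 0 := by
      rw [hf]
      simp only
      rw [show n + 1 + i = 0 + 1 + i + n by ring, show n + i = 0 + i + n by ring, h.perp, h.perp]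
      have := g.dist_map (p (0 + 1 + i)) (p (0 + i))
      rw [dist_eq_norm, dist_eq_norm] at this
      exact this
    have h4 := Finset.sum_range_succ f n
    have h5 := Finset.sum_range_succ' f n
    rw [h1, h2]
    linarith

theorem quarter {x y : ℝ} (h : 0 < y) (hx : 0 ≤ x) (hxy : x ≤ y) :
    x * (y - x) ≤ y ^ 2 / 4 := by nlinarith [sq_nonneg (y - 2 * x)]

theorem tot_sub (hd : 2 ≤ Module.finrank ℝ E) (Ω : Set E) (Γ : Set (E ≃ᵃⁱ[ℝ] E)) :
    TotPer Γ Ω ⊆ WeakPer Γ Ω := by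
  rintro z ⟨g, hgΓ, n, p, u, i, β, h, hz, hin, hβ, hcase⟩
  have hlen := pos_n_pos h i
  rw [← pos_shift h i] at hcase
  obtain ⟨q, hq⟩ : ∃ q : ℕ → E, q = fun k => p (k + i) := ⟨_, rfl⟩
  rw [← hq] at hlen hcase
  obtain ⟨ℓ, hℓ⟩ : ∃ ℓ, ℓ = pos q n := ⟨_, rfl⟩
  have hmono : ∀ k ≤ n, 0 ≤ pos q k ∧ pos q k ≤ pos q n := by
    intro k hk
    refine ⟨Finset.sum_nonneg fun _ _ => norm_nonneg _, ?_⟩
    exact Finset.sum_le_sum_of_subset_of_nonneg (Finset.range_mono hk) fun _ _ _ => norm_nonneg _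
  have hβ0 : ∀ k ∈ Finset.Ioo 0 n, 0 ≤ β k := fun k hk =>
    (hβ k (Finset.mem_Ioo.1 hk).1 (Finset.mem_Ioo.1 hk).2).1
  refine ⟨g, hgΓ, n, p, u, i, h, hz, hin, ?_⟩
  rw [← hq]
  rcases hcase with hc | ⟨hpar, hc⟩
  · refine Or.inl ⟨fun _ => 0, β, fun k h1 h2 => ?_, by simpa using hd, ?_⟩
    · rw [hq]; exact hβ k h1 h2
    · rw [← hℓ] at hc hlen ⊢
      have h1 : ∑ k ∈ Finset.Ioo 0 n, β k * (pos q k * (ℓ - pos q k)) ≤
          ∑ k ∈ Finset.Ioo 0 n, β k * (ℓ ^ 2 / 4) := by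
        refine Finset.sum_le_sum fun k hk => ?_
        have h2 := hmono k (Finset.mem_Ioo.1 hk).2.le
        rw [← hℓ] at h2
        exact mul_le_mul_of_nonneg_left (quarter hlen h2.1 h2.2) (hβ0 k hk)
      rw [← Finset.sum_mul] at h1
      nlinarith
  · refine Or.inr ⟨hpar, fun t ht0 ht1 => ?_⟩
    rw [← hℓ] at hc hlen ht1 ⊢
    by_contra hcon
    push Not at hcon
    obtain ⟨hc1, hc2⟩ := hcon
    have k1 : t ≤ ∑ k ∈ (Finset.Ioo 0 n).filter (fun k => 0 < pos q k ∧ pos q k < t),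
        β k * ((pos q k - 0) * (t - pos q k)) := by
      by_contra hlt
      refine hc1 ⟨β, fun k h1 h2 _ _ => by rw [hq]; exact hβ k h1 h2, ?_⟩
      rw [sub_zero]; exact not_le.1 hlt
    have k2 : ℓ - t ≤ ∑ k ∈ (Finset.Ioo 0 n).filter (fun k => t < pos q k ∧ pos q k < ℓ),
        β k * ((pos q k - t) * (ℓ - pos q k)) := by
      by_contra hlt
      exact hc2 ⟨β, fun k h1 h2 _ _ => by rw [hq]; exact hβ k h1 h2, not_le.1 hlt⟩
    have k3 : t ≤ (∑ k ∈ (Finset.Ioo 0 n).filter (fun k => 0 < pos q k ∧ pos q k < t), β k) *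
        (t ^ 2 / 4) := by
      refine k1.trans ?_
      rw [Finset.sum_mul]
      refine Finset.sum_le_sum fun k hk => ?_
      obtain ⟨h1, h2, h3⟩ := Finset.mem_filter.1 hk
      rw [sub_zero]
      exact mul_le_mul_of_nonneg_left (quarter ht0 h2.le h3.le) (hβ0 k h1)
    have k4 : ℓ - t ≤ (∑ k ∈ (Finset.Ioo 0 n).filter (fun k => t < pos q k ∧ pos q k < ℓ), β k) *
        ((ℓ - t) ^ 2 / 4) := by
      refine k2.trans ?_
      rw [Finset.sum_mul]
      refine Finset.sum_le_sum fun k hk => ?_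
      obtain ⟨h1, h2, h3⟩ := Finset.mem_filter.1 hk
      have h4 := quarter (x := pos q k - t) (y := ℓ - t) (by linarith) (by linarith) (by linarith)
      have h5 : ℓ - t - (pos q k - t) = ℓ - pos q k := by ring
      rw [h5] at h4
      exact mul_le_mul_of_nonneg_left h4 (hβ0 k h1)
    obtain ⟨b1, hb1⟩ : ∃ b1, b1 = ∑ k ∈ (Finset.Ioo 0 n).filter
      (fun k => 0 < pos q k ∧ pos q k < t), β k := ⟨_, rfl⟩
    obtain ⟨b2, hb2⟩ : ∃ b2, b2 = ∑ k ∈ (Finset.Ioo 0 n).filter
      (fun k => t < pos q k ∧ pos q k < ℓ), β k := ⟨_, rfl⟩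
    rw [← hb1] at k3
    rw [← hb2] at k4
    have k5 : b1 + b2 ≤ ∑ k ∈ Finset.Ioo 0 n, β k := by
      rw [hb1, hb2, ← Finset.sum_union]
      · refine Finset.sum_le_sum_of_subset_of_nonneg ?_ fun k hk _ => hβ0 k hk
        intro k hk
        rcases Finset.mem_union.1 hk with hk | hk
        · exact (Finset.mem_filter.1 hk).1
        · exact (Finset.mem_filter.1 hk).1
      · rw [Finset.disjoint_left]
        intro k hk hk'
        have h1 := (Finset.mem_filter.1 hk).2.2
        have h2 := (Finset.mem_filter.1 hk').2.1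
        linarith
    have k6 : 4 ≤ b1 * t := by
      by_contra hlt
      have : b1 * (t ^ 2 / 4) = (b1 * t) * (t / 4) := by ring
      rw [this] at k3
      nlinarith [not_le.1 hlt]
    have hlt' : 0 < ℓ - t := by linarith
    have k7 : 4 ≤ b2 * (ℓ - t) := by
      by_contra hlt
      have : b2 * ((ℓ - t) ^ 2 / 4) = (b2 * (ℓ - t)) * ((ℓ - t) / 4) := by ring
      rw [this] at k4
      nlinarith [not_le.1 hlt]
    have k8 : 16 ≤ ℓ * (b1 + b2) := by
      have e1 : 4 / t ≤ b1 := by rw [div_le_iff₀ ht0]; exact k6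
      have e2 : 4 / (ℓ - t) ≤ b2 := by rw [div_le_iff₀ hlt']; exact k7
      have e3 : 16 ≤ ℓ * (4 / t + 4 / (ℓ - t)) := by
        rw [div_add_div _ _ ht0.ne' hlt'.ne', mul_div_assoc', le_div_iff₀ (mul_pos ht0 hlt')]
        nlinarith [sq_nonneg (ℓ - 2 * t)]
      have e4 := mul_le_mul_of_nonneg_left (add_le_add e1 e2) hlen.le
      linarith
    have k9 := mul_le_mul_of_nonneg_left k5 hlen.le
    linarith

end

end Pool.Agent.TH318.Iv
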